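import Pool.Agent.Lib.MP_7f581e_Z.CS.Spec
import Pool.Agent.Lib.MP_7f581e_Z.EP.CStep
import Pool.Agent.Lib.MP_7f581e_Z.BR.Spec

/-!
# Package CS: the central step, bridge to `Ω`

One Lean task for each `def CStmtX : Prop`: file `CS/X.lean`, import this file, `theorem ctX : CStmtX`;
the statements under *Uses* are hypotheses.  (`CStStmt, LvlStmt, ...` are statements of `BR/Spec`.)

Notation of the docstrings: `𝔽 = Cst p Ω`; `geo` = automorphisms fixing `𝔽`; `U = gker ρ` = the elements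
of `H ∩ geo` killed by `ρ`.  `U` is normal in `H`.
-/

set_option autoImplicit false

namespace MP7Z

open Finset

section

variable {p : ℕ} [Fact p.Prime] {Ω : Type} [Field Ω] [Algebra (ZMod p) Ω]

/-- The automorphisms of `Ω` which fix the constants. -/
abbrev geo (p : ℕ) [Fact p.Prime] (Ω : Type) [Field Ω] [Algebra (ZMod p) Ω] :
    Subgroup (Ω ≃ₐ[ZMod p] Ω) := Fx p (Cst p Ω : Set Ω)

/-- The geometric part of the kernel of `ρ`. -/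
def gker {H : Subgroup (Ω ≃ₐ[ZMod p] Ω)} {P : Type} [Group P] (ρ : H →* P) :
    Subgroup (Ω ≃ₐ[ZMod p] Ω) where
  carrier := {γ | γ ∈ geo p Ω ∧ ∃ h : γ ∈ H, ρ ⟨γ, h⟩ = 1}
  mul_mem' := by
    rintro a b ⟨ha, ha', ha''⟩ ⟨hb, hb', hb''⟩
    refine ⟨mul_mem ha hb, mul_mem ha' hb', ?_⟩
    have h : (⟨a * b, mul_mem ha' hb'⟩ : H) = ⟨a, ha'⟩ * ⟨b, hb'⟩ := rfl
    rw [h, map_mul, ha'', hb'', one_mul]
  one_mem' := ⟨one_mem _, one_mem _, map_one ρ⟩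
  inv_mem' := by
    rintro a ⟨ha, ha', ha''⟩
    refine ⟨inv_mem ha, inv_mem ha', ?_⟩
    have h : (⟨a⁻¹, inv_mem ha'⟩ : H) = (⟨a, ha'⟩ : H)⁻¹ := rfl
    rw [h, map_inv, ha'', inv_one]

theorem mem_gker {H : Subgroup (Ω ≃ₐ[ZMod p] Ω)} {P : Type} [Group P] {ρ : H →* P}
    {γ : Ω ≃ₐ[ZMod p] Ω} : γ ∈ gker ρ ↔ γ ∈ geo p Ω ∧ ∃ h : γ ∈ H, ρ ⟨γ, h⟩ = 1 := Iff.rfl

/-- The restriction of `ρ` to the elements fixing `x'`. -/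
def rst {H : Subgroup (Ω ≃ₐ[ZMod p] Ω)} {P : Type} [Group P] (ρ : H →* P) (x' : Ω) :
    (H ⊓ Gx p x' : Subgroup (Ω ≃ₐ[ZMod p] Ω)) →* P :=
  ρ.comp (Subgroup.inclusion inf_le_left)

@[simp] theorem rst_apply {H : Subgroup (Ω ≃ₐ[ZMod p] Ω)} {P : Type} [Group P] (ρ : H →* P)
    (x' : Ω) (γ : Ω ≃ₐ[ZMod p] Ω) (h : γ ∈ H ⊓ Gx p x') :
    rst ρ x' ⟨γ, h⟩ = ρ ⟨γ, h.1⟩ := rfl

/-- `φ` is in `H`, and with the geometric part of `H` it generates a dense subgroup of `H`. -/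
def DGc (H : Subgroup (Ω ≃ₐ[ZMod p] Ω)) (φ : Ω ≃ₐ[ZMod p] Ω) : Prop :=
  φ ∈ H ∧ ∀ γ ∈ H, ∀ S : Finset Ω, ∃ u ∈ H, u ∈ geo p Ω ∧ ∃ i : ℕ, ∀ s ∈ S, γ s = u ((φ ^ i) s)

/-- The generator can be changed by a geometric element, and the group can be made smaller. -/
theorem DGc.mono {H : Subgroup (Ω ≃ₐ[ZMod p] Ω)} {φ u : Ω ≃ₐ[ZMod p] Ω} (h : DGc H φ) (hu : u ∈ H)
    (hu' : u ∈ geo p Ω) {q : ℕ} (hq : ∀ c ∈ Cst p Ω, φ c = c ^ q) {x' : Ω}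
    (hx' : u * φ ∈ Gx p x') : DGc (H ⊓ Gx p x') (u * φ) := by
  classical
  have hgeo : ∀ (v : Ω ≃ₐ[ZMod p] Ω) (_ : v ∈ geo p Ω), φ * v * φ⁻¹ ∈ geo p Ω := by
    intro v hv c hc
    have hc' : c ∈ Cst p Ω := hc
    have h1 : φ⁻¹ c ∈ Cst p Ω := by
      rw [mem_algebraicClosure_iff] at hc' ⊢
      exact IsAlgebraic.algHom (φ⁻¹ : Ω ≃ₐ[ZMod p] Ω).toAlgHom hc'
    change φ (v (φ⁻¹ c)) = c
    rw [hv _ h1]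
    exact φ.apply_symm_apply c
  have hpow : ∀ i : ℕ, ∃ v ∈ H, v ∈ geo p Ω ∧ φ ^ i = v * (u * φ) ^ i := by
    intro i
    induction i with
    | zero => exact ⟨1, one_mem _, one_mem _, by simp⟩
    | succ i ih =>
      obtain ⟨v, hv, hv', hvi⟩ := ih
      refine ⟨φ * v * φ⁻¹ * u⁻¹, ?_, ?_, ?_⟩
      · exact mul_mem (mul_mem (mul_mem h.1 hv) (inv_mem h.1)) (inv_mem hu)
      · exact mul_mem (hgeo v hv') (inv_mem hu')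
      · rw [pow_succ' φ i, hvi, pow_succ' (u * φ) i]
        simp only [mul_assoc, inv_mul_cancel_left]
  refine ⟨⟨mul_mem hu h.1, hx'⟩, ?_⟩
  rintro γ ⟨hγ, hγ'⟩ S
  obtain ⟨v, hv, hv', i, hi⟩ := h.2 γ hγ (insert x' S)
  obtain ⟨v', hv1, hv2, hv3⟩ := hpow i
  refine ⟨v * v', ⟨mul_mem hv hv1, ?_⟩, mul_mem hv' hv2, i, ?_⟩
  · change v * v' ∈ Gx p x'
    rw [mem_Gx]
    have h1 := hi x' (Finset.mem_insert_self _ _)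
    rw [mem_Gx.1 hγ', hv3] at h1
    have h2 : ((u * φ) ^ i) x' = x' := by
      have h3 : (u * φ) ^ i ∈ Gx p x' := pow_mem hx' i
      exact mem_Gx.1 h3
    change x' = v (v' (((u * φ) ^ i) x')) at h1
    rw [h2] at h1
    exact h1.symm
  · intro s hs
    rw [hi s (Finset.mem_insert_of_mem hs), hv3]
    rfl

end

/-- **Den.** (220 lines)  An open subgroup of `Gx` contains a Frobenius lift which generates it modulo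
its geometric part.

*Proof.*  Let `φ₀ ∈ Gx` be a Frobenius lift for `c ↦ c ^ p` (*Frb*), `F₀ = adjoin (ZMod p) {x}`.
STEP 0: if `f ∈ 𝔽(x) = adjoin 𝔽 {x}` and `φ₀ f = f` then `f ∈ F₀`.  `f = a(x)/b(x)`, `a, b ∈ 𝔽[X]`, `b(x) ≠ 0`
(`IntermediateField.mem_adjoin_simple_iff`).  Let `b^{(i)}` be `b` with coefficients raised to the power
`p^i`, so `φ₀^i (b(x)) = b^{(i)}(x)`.  For some `N > 0` all coefficients `c` of `b` satisfy `c^(p^N) = c`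
(they are algebraic over `ZMod p`; or *Frb*, second part).  `b' = ∏_{i<N} b^{(i)}` is invariant under
`c ↦ c^p`, so its coefficients are in the prime field (roots of `T^p - T`, `ZMod.pow_card`; the `p` elements
of `ZMod p` are all the roots), and `b'(x) ∈ F₀`, `b'(x) ≠ 0`.  `f b'(x) = a'(x)`, `a' = a ∏_{0<i<N} b^{(i)}`,
is fixed by `φ₀`; as `x` is transcendental over `𝔽` (*Lvl*) the coefficients of `a'` are fixed by `c ↦ c^p`, so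
`a'(x) ∈ F₀`.
STEP 1: for `γ ∈ Gx` and `S` finite there are `u₀ ∈ Gx ∩ geo` and `i : ℕ` with `γ = u₀ φ₀^i` on `S`.  Let `L` be
a finite Galois extension of `F₀` in `Ω` containing `S` (`Ω / F₀` is Galois: `IsStage`).  `W = {u₀ φ₀^i : i ∈ ℤ}`
is a subgroup of `Gx` (`Gx ∩ geo` is normalized by `φ₀`).  The image of `W` in `Gal(L/F₀)` has fixed field
`F₀`: if `f ∈ L` is fixed by `Gx ∩ geo = Gal(Ω/𝔽(x))` then `f ∈ 𝔽(x)` (*Gal* for `H = Gx ∩ geo` and `S = ∅`, or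
`Ω / 𝔽(x)` Galois), and STEP 0.  So the image is all of `Gal(L/F₀)` (finite Galois correspondence) and
`γ = u₀ φ₀^i` on `L`, `i ∈ ℤ`; by *Frb* some `φ₀^N`, `N > 0`, is trivial on `L` (on a finite set of
generators): `i` can be made `≥ 0`.
STEP 2: let `S₀` be the set of `hopn`.  By *Frb*, `φ₀^N` fixes `S₀` for some `N > 0`, so `φ₀^N ∈ H`.  Let `a > 0` be
minimal such that there is `φ ∈ H` with `φ c = c^(p^a)` on `𝔽`.  Let `γ ∈ H`, `S` finite, and `u₀, i` for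
`γ` and `S ∪ S₀`.  `w = u₀ φ₀^i`; `γ⁻¹ w` is in `Gx` and fixes `S₀`, so `w ∈ H`.  `i = a k + r`, `r < a`;
`w φ^{-k} ∈ H` acts on `𝔽` as `c ↦ c^(p^r)`, so `r = 0` by minimality, and `u = w φ^{-k} ∈ H ∩ geo`,
`γ = u φ^k` on `S`.
*Uses*: Cst, Lvl, Frb, Gal. -/
def CStmtDen : Prop :=
  ∀ (p : ℕ) [Fact p.Prime] (Ω : Type) [Field Ω] [Algebra (ZMod p) Ω] (x : Ω), IsStage p x →
    ∀ H : Subgroup (Ω ≃ₐ[ZMod p] Ω), H ≤ Gx p x →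
      (∃ S : Finset Ω, ∀ γ ∈ Gx p x, (∀ s ∈ S, γ s = s) → γ ∈ H) →
      ∃ (φ : Ω ≃ₐ[ZMod p] Ω) (a : ℕ), 0 < a ∧ (∀ c ∈ Cst p Ω, φ c = c ^ (p ^ a)) ∧ DGc H φ

/-- **BExt.** (150 lines)  Extension of a homomorphism from `H ∩ geo` to `H`.

*Proof.*  Let `Ψ` be trivial on the elements of `H ∩ geo` fixing the finite set `S`, and `m₀ > 0` with
`φ^{m₀} s = s` for `s ∈ S` (*Frb*), `M = m₀ * card P'`, so `e ^ M = 1`.  Let `θ ∈ 𝔽` be a primitive root of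
unity of order `p^(a M) - 1` (exists in the algebraically closed field `𝔽`), so that `φ^i θ = φ^{i'} θ` with
`i' ≤ i` implies `M ∣ i - i'`  (`φ^i θ = θ^(p^(a i))`; from `φ^i θ = φ^{i'} θ` we get `φ^{i-i'} θ = θ`,
`p^(aM) - 1 ∣ p^(a(i-i')) - 1`, `M ∣ i - i'`).  `T = S ∪ {θ}`.
CLAIM: if `u, u' ∈ H ∩ geo` and `u φ^i = u' φ^{i'}` on `T` then `Ψ u * e^i = Ψ u' * e^{i'}`.  Say `i' ≤ i`;
`u, u'` fix constants, so `φ^i θ = φ^{i'} θ` and `i - i' = k M`, `e^i = e^{i'}`.  For `s ∈ S`: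
`φ^i s = φ^{i'} s`, so `v = u'⁻¹ u` fixes `φ^{i'} s`, and `φ^{-i'} v φ^{i'}` fixes `S`, so `Ψ(φ^{-i'} v φ^{i'}) = 1`,
i.e. `e^{-i'} Ψ(v) e^{i'} = 1` (hypothesis on `e` iterated), `Ψ v = 1`.
DEFINITION: `ρ''(γ) = Ψ u * e^i` for any `u, i` with `γ = u φ^i` on `T` (`DGc`).  Multiplicative: given `γ₁, γ₂`,
choose `(u₂, i₂)` for `γ₂` on `T` and `(u₁, i₁)` for `γ₁` on `T ∪ u₂ φ^{i₂} T` (image as a finset): then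
`γ₁ γ₂ = u₁ φ^{i₁} u₂ φ^{i₂} = u₁ (φ^{i₁} u₂ φ^{-i₁}) φ^{i₁+i₂}` on `T` and
`Ψ(u₁) Ψ(φ^{i₁} u₂ φ^{-i₁}) e^{i₁+i₂} = Ψ(u₁) e^{i₁} Ψ(u₂) e^{i₂}`.  Finite level: if `γ` fixes `T` then
`ρ'' γ = Ψ 1 * e^0 = 1`.  `ρ'' u = Ψ u` (`i = 0`), `ρ'' φ = e` (`u = 1, i = 1`).
*Uses*: Cst, Frb. -/
def CStmtBExt : Prop :=
  ∀ (p : ℕ) [Fact p.Prime] (Ω : Type) [Field Ω] [Algebra (ZMod p) Ω] (x : Ω), IsStage p x →
    ∀ H : Subgroup (Ω ≃ₐ[ZMod p] Ω), H ≤ Gx p x →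
    ∀ (φ : Ω ≃ₐ[ZMod p] Ω) (a : ℕ), 0 < a → (∀ c ∈ Cst p Ω, φ c = c ^ (p ^ a)) → DGc H φ →
    ∀ (P' : Type) [Group P'] [Finite P']
      (Ψ : (H ⊓ geo p Ω : Subgroup (Ω ≃ₐ[ZMod p] Ω)) →* P'), FinLevel Ψ → ∀ e : P',
      (∀ (u : Ω ≃ₐ[ZMod p] Ω) (hu : u ∈ H ⊓ geo p Ω) (hu' : φ * u * φ⁻¹ ∈ H ⊓ geo p Ω),
        Ψ ⟨φ * u * φ⁻¹, hu'⟩ = e * Ψ ⟨u, hu⟩ * e⁻¹) →
      ∃ ρ : H →* P', FinLevel ρ ∧
        (∀ (u : Ω ≃ₐ[ZMod p] Ω) (hu : u ∈ H ⊓ geo p Ω), ρ ⟨u, hu.1⟩ = Ψ ⟨u, hu⟩) ∧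
        ∀ hφ : φ ∈ H, ρ ⟨φ, hφ⟩ = e

/-- **Rot.** (180 lines)  Adjunction of an `ℓ`-th root of `x`: neutrality is preserved, and the elements
of `gker ρ` rotate the root.

*Proof.*  `NHom p ℓ x' (H ⊓ Gx x') (rst ρ x')`: `stage` and the implication `BadV ℓ x' V → BadV ℓ x V` are in
*BC* (`n = ℓ`); `opn`: `S`; `mu`; `zero`: `V.valuation x < 1` and `γ ∈ Gx x`, and `γ ^ a` fixes `x'`; `fin`:
the same `S`; `neu` from `neu`.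
Second claim.  `K = adjoin 𝔽 {x}`, a level, `v` its place with `0 < v.ord x` (`exists_ord_pos` with `c = 0`,
or `exists_place_zero`), `v.pord x = 1` (`sum_zeros`: the sum of the orders of `x` at its zeros is
`[K : 𝔽(x)] = 1`).  `V` above `v` (*Abv*), so `V.valuation x < 1` (*Bel*) and `V` is `ℓ`-bad.  *KumR* with
`z = x`, `Z = x'`, `ζ`: there is `γ₀ ∈ Γ_K ∩ D_V` with `γ₀ x' = ζ x'`; it is in `Gx x` and in `Inert p V`.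
`zero` gives `a` prime to `ℓ` with `γ₀ ^ a ∈ H`; choose `b` with `a b ≡ 1` modulo `ℓ`: `u = γ₀ ^ (a b) ∈ H`,
`u x' = ζ ^ (a b) x' = ζ x'` (`γ₀` fixes the constant `ζ`), `ρ u = 1` by `neu`.
*Uses*: Cst, Lvl, Bel, Abv, KumR, BC. -/
def CStmtRot : Prop :=
  ∀ (p : ℕ) [Fact p.Prime] (ℓ : ℕ), ℓ.Prime → ℓ ≠ p →
  ∀ (Ω : Type) [Field Ω] [Algebra (ZMod p) Ω] (x : Ω) (H : Subgroup (Ω ≃ₐ[ZMod p] Ω))
    (P : Type) [Group P] (ρ : H →* P), NHom p ℓ x H ρ → ∀ x' : Ω, x' ^ ℓ = x →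
    NHom p ℓ x' (H ⊓ Gx p x') (rst ρ x') ∧ ∀ ζ : Ω, ζ ^ ℓ = 1 → ∃ u ∈ gker ρ, u x' = ζ * x'

/-- **Tow.** (120 lines)  Adjunction of a root of order `ℓ ^ j`.

*Proof.*  Induction on `j`.  `j = 0`: `x' = x`, `u = 1` (`NHom` for `H ⊓ Gx x`: equal to `H` as a set; check the
fields directly).  Step: `x₁` for `j`, with `N₁ = NHom p ℓ x₁ (H ⊓ Gx x₁) (rst ρ x₁)`; choose `x'` with
`x' ^ ℓ = x₁` (`Ω` is separably closed and `ℓ ≠ 0` in `Ω`: `IsSepClosed.exists_pow_nat_eq`).  *Rot* for `N₁` and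
`x'`: `NHom p ℓ x' ((H ⊓ Gx x₁) ⊓ Gx x') _`, and `Gx x' ≤ Gx x₁` gives the same statement for `H ⊓ Gx x'`
(the two groups have the same elements; check the fields of `NHom` one by one rather than rewriting).
The elements of `gker (rst ρ x₁)` are elements of `gker ρ` which fix `x₁`.  For `ζ` use *Rot* directly.  For
`γ ∈ H`: `u₁ ∈ gker ρ` with `u₁ γ ∈ Gx x₁`; `(u₁ γ x')^ℓ = x₁`, so `u₁ γ x' = ε x'` with `ε ^ ℓ = 1`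
(`x' ≠ 0`), `u₂ ∈ gker (rst ρ x₁)` with `u₂ x' = ε⁻¹ x'`; then `u₂ u₁ γ x' = u₂ (ε x') = ε ε⁻¹ x' = x'`
(`ε` is a constant, fixed by `u₂ ∈ geo`).
*Uses*: Rot. -/
def CStmtTow : Prop :=
  ∀ (p : ℕ) [Fact p.Prime] (ℓ : ℕ), ℓ.Prime → ℓ ≠ p →
  ∀ (Ω : Type) [Field Ω] [Algebra (ZMod p) Ω] (x : Ω) (H : Subgroup (Ω ≃ₐ[ZMod p] Ω))
    (P : Type) [Group P] (ρ : H →* P), NHom p ℓ x H ρ → ∀ j : ℕ,
    ∃ x' : Ω, x' ^ (ℓ ^ j) = x ∧ NHom p ℓ x' (H ⊓ Gx p x') (rst ρ x') ∧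
      (∀ γ ∈ H, ∃ u ∈ gker ρ, u * γ ∈ Gx p x') ∧
      (0 < j → ∀ ζ : Ω, ζ ^ ℓ = 1 → ∃ u ∈ gker ρ, u x' = ζ * x')

/-- **PB.** (180 lines)  Prescribed orders modulo `ℓ` by an element fixed by an open subgroup (`PStmt` for
subgroups of `Gx`).

*Proof.*  `H' = H ⊓ Gx x'`.  *Rot*: `NHom p ℓ x' H' (rst ρ x')`, and for a primitive `ℓ`-th root of unity
`ζ ∈ 𝔽` (`𝔽` is algebraically closed, `ℓ ≠ p`) there is `δ ∈ gker ρ ≤ H ⊓ geo` with `δ x' = ζ x'`.  *Den* for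
`H'` (`opn` of the new `NHom`): `φ ∈ H'`, `a`, `DGc H' φ`.  `φ` normalizes `H' ⊓ geo`, so it preserves `K` (`hK2`,
as in the last claim of *Gal*), and *FrbK* gives the restriction `φK`, `IsFrob 𝔽 (p ^ a) φK`.  `δ` normalizes
`H' ⊓ geo`: for `h ∈ H' ⊓ geo`, `δ h δ⁻¹ ∈ H ⊓ geo` and `δ h δ⁻¹ x' = δ h (ζ⁻¹ x') = δ (ζ⁻¹ x') = x'`.  So `δ`
preserves `K`; let `σ : K ≃ₐ[𝔽] K` be the restriction.  `σ` and `φK` commute: `c = δ φ δ⁻¹ φ⁻¹` is in `H`, it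
fixes the constants (`δ` does), and `c x' = δ φ (ζ⁻¹ x') = δ (ζ⁻¹ x') = x'` (`φ ζ = ζ` by `mu`), so
`c ∈ H' ⊓ geo` fixes `K`: `δ φ f = φ δ f` for `f ∈ K` (apply `c` to `φ δ f ∈ K`).  `ζ ^ (p ^ a) = φ ζ = ζ`.
`D (v.comap φK) = D v` by hypothesis.  `PStmt` gives `y ∈ K` with `φ y = y`; `y` is fixed by `H' ⊓ geo` (which
fixes `K`) and by `φ`, so by `DGc` (with `S = {y}`) it is fixed by `H'`.
*Uses*: PStmt (interface), Cst, Lvl, FrbK, Rot, Den. -/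
def CStmtPB : Prop :=
  ∀ (p : ℕ) [Fact p.Prime] (ℓ : ℕ), ℓ.Prime → ℓ ≠ p →
  ∀ (Ω : Type) [Field Ω] [Algebra (ZMod p) Ω] [IsAlgClosed (Cst p Ω)] (x : Ω)
    (H : Subgroup (Ω ≃ₐ[ZMod p] Ω)) (P : Type) [Group P] (ρ : H →* P), NHom p ℓ x H ρ →
    ∀ x' : Ω, x' ^ ℓ = x →
    ∀ (K : IntermediateField (Cst p Ω) Ω) (hK : IsLevel p x' K),
    Fx p (K : Set Ω) = H ⊓ Gx p x' ⊓ geo p Ω →
    (∀ f, f ∈ K ↔ ∀ γ ∈ H ⊓ Gx p x' ⊓ geo p Ω, γ f = f) →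
    ∀ T : Set (Place (Cst p Ω) K), T.Finite → ∀ D : Place (Cst p Ω) K → ℤ, {v | D v ≠ 0}.Finite →
    (∀ τ : K ≃+* K, (∃ γ ∈ H ⊓ Gx p x', ∀ f : K, ((τ f : K) : Ω) = γ (f : Ω)) →
      ∀ v : Place (Cst p Ω) K, D (v.comap τ) = D v) →
    ∃ y : K, y ≠ 0 ∧ (∀ γ ∈ H ⊓ Gx p x', γ (y : Ω) = y) ∧
      ∀ v : Place (Cst p Ω) K, v ∈ T ∨ Bad ℓ (⟨x', hK.mem⟩ : K) v → (ℓ : ℤ) ∣ v.pord y - D v

/-- **Lev.** (300 lines)  The data of the field part at the level `x'`.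

*Proof.*  `U' = gker ρ ⊓ Gx x'`, `H' = H ⊓ Gx x'`.  *Gal* for `x'`, `U'` and `S = S₁ ∪ S₂` (`S₁` from `opn`, `S₂`
from `fin` of `N'`): `U' ≤ Fx (insert x' 𝔽)`, and an element fixing `𝔽`, `x'`, `S` is in `H'` and killed by
`ρ`.  This gives the level `E` with `Fx p E = U'`.  Every `γ ∈ H'` normalizes `U'` (`gker ρ` is normal in `H`:
`ρ` is a homomorphism, `geo` is normal in the group of all automorphisms as they preserve `𝔽`), so it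
preserves `E` (last claim of *Gal*).  `act`: for `s ∈ Q` there is `γ ∈ H ∩ geo` with `ρ γ = s` (`hQ`), and
after multiplication with an element of `gker ρ` (`hs`) `γ ∈ H' ∩ geo`; `act s` = the restriction of `γ` to
`E`.  Two elements of `H' ∩ geo` with the same image `s` differ by an element of `U'`, so this is well
defined, a homomorphism, and `𝔽`-linear.  `φE` = the restriction of `φ`.
`inj`: if `act s = 1` then `γ ∈ Fx p E = U'`, `s = ρ γ = 1`.  `pgp`: a subgroup of `P`.  `frob`: *FrbK* for `x'`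
(`φ ∈ Gx x'`).  `comm`: `φ γ = (φ γ φ⁻¹) φ`, `ρ (φ γ φ⁻¹) = ρ φ * s * (ρ φ)⁻¹ = cj s`.  `tr, sep`: *Lvl*.
`actX, frobX`: clear.  `mu`: `ζ ^ ℓ = 1`: `φ ζ = ζ` (`NHom.mu`) and `φ ζ = ζ ^ (p ^ a)`.
`neu`: let `v` be `ℓ`-bad, `v.comap (act s) = v`, `V` above `v` (*Abv*); `BadV ℓ x' V` by the third claim of
*Bel*.  `γ ∈ H' ∩ geo` with `ρ γ = s`.  For `f ∈ E`: `γ f ∈ V ↔ 0 ≤ v.ord (act s f) ↔ 0 ≤ v.ord f ↔ f ∈ V`.  Let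
`V' = V.comap γ` (`f ∈ V' ↔ γ f ∈ V`).  *Conj* for `x'`, `E`, `V`, `V'`: there is `δ ∈ Fx p E = U'` with
`δ f ∈ V' ↔ f ∈ V`, that is `γ δ ∈ D_V`; `γ δ ∈ H' ∩ geo ∩ D_V`, and `NHom.neu` for `x'` gives
`1 = ρ (γ δ) = s`.
`rot`: `ζ ∈ 𝔽`, `ζ ^ ℓ = 1`: `σ ∈ gker ρ` with `σ x' = ζ x'` (`hr`).  For `u ∈ U'`, `σ u σ⁻¹ x' = σ u (ζ⁻¹ x') =
σ (ζ⁻¹ x') = x'`, so `σ` normalizes `U'` and preserves `E`; let `σE` be the restriction.  For `γ ∈ H' ∩ geo`: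
`σ γ σ⁻¹ γ⁻¹ ∈ gker ρ` (normality) and it fixes `x'`, so it is in `U'`: `σ γ f = γ σ f` for `f ∈ E` (apply the
commutator to the element `γ σ f ∈ E`).  The same for `φ`: `σ φ σ⁻¹ φ⁻¹ ∈ gker ρ`, and it maps `x'` to
`σ φ (ζ⁻¹ x') = σ (ζ^{-p^a} x') = σ (ζ⁻¹ x') = x'` (`ζ ^ (p ^ a) = ζ`).
*Uses*: Cst, Lvl, Bel, Abv, Conj, FrbK, Gal. -/
def CStmtLev : Prop :=
  ∀ (p : ℕ) [Fact p.Prime] (ℓ : ℕ), ℓ.Prime → ℓ ≠ p →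
  ∀ (Ω : Type) [Field Ω] [Algebra (ZMod p) Ω] [IsAlgClosed (Cst p Ω)] (x : Ω)
    (H : Subgroup (Ω ≃ₐ[ZMod p] Ω)) (P : Type) [Group P] [Finite P] (ρ : H →* P),
    IsPGroup ℓ P → NHom p ℓ x H ρ → ∀ x' : Ω, NHom p ℓ x' (H ⊓ Gx p x') (rst ρ x') →
    (∀ γ ∈ H, ∃ u ∈ gker ρ, u * γ ∈ Gx p x') →
    (∀ ζ : Ω, ζ ^ ℓ = 1 → ∃ u ∈ gker ρ, u x' = ζ * x') →
    ∀ (φ : Ω ≃ₐ[ZMod p] Ω) (a : ℕ) (hφ : φ ∈ H), φ ∈ Gx p x' → 0 < a →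
    (∀ c ∈ Cst p Ω, φ c = c ^ (p ^ a)) →
    ∀ (Q : Subgroup P) (hQ : ∀ s, s ∈ Q ↔ ∃ (γ : Ω ≃ₐ[ZMod p] Ω) (h : γ ∈ H), γ ∈ geo p Ω ∧
      ρ ⟨γ, h⟩ = s) (cj : Q ≃* Q),
    (∀ s : Q, (cj s : P) = ρ ⟨φ, hφ⟩ * s * (ρ ⟨φ, hφ⟩)⁻¹) →
    ∃ (E : IntermediateField (Cst p Ω) Ω) (hE : IsLevel p x' E)
      (act : Q →* (E ≃ₐ[Cst p Ω] E)) (φE : E ≃+* E),
      Fx p (E : Set Ω) = gker ρ ⊓ Gx p x' ∧
      (∀ f, f ∈ E ↔ ∀ γ ∈ gker ρ ⊓ Gx p x', γ f = f) ∧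
      (∀ (γ : Ω ≃ₐ[ZMod p] Ω) (hγ : γ ∈ H) (_ : γ ∈ Gx p x') (hg : γ ∈ geo p Ω) (f : E),
        ((act ⟨ρ ⟨γ, hγ⟩, (hQ _).2 ⟨γ, hγ, hg, rfl⟩⟩ f : E) : Ω) = γ (f : Ω)) ∧
      (∀ f : E, ((φE f : E) : Ω) = φ (f : Ω)) ∧
      CSD (Cst p Ω) E ℓ (p ^ a) act cj φE ⟨x', hE.mem⟩

/-- **Back.** (300 lines)  From the field part to a homomorphism.

*Proof.*  `y ∈ Ω` with `y ^ ℓ = z` (`Ω` is separably closed, `ℓ ≠ p`), `y ≠ 0`.  `(φ y / y)^ℓ = φ z / z = w ^ ℓ`, so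
`φ y = ε w y` with `ε ^ ℓ = 1`; put `w' = ε w`: `φ y = w' y`, and `h4` holds for `w'` (`φ γ φ⁻¹ ∈ geo` fixes the
constant `ε`).
DEFINITION of `Ψ` on `H ∩ geo`: for `γ ∈ H ∩ geo` choose `g₀` with `f g₀ = ρ γ`: `(γ y / y) ^ ℓ = γ z / z =
t g₀ ^ ℓ`, so `γ y = c * t g₀ * y` with `c ^ ℓ = 1`; `c = t a₀` for some `a₀ ∈ ker f` (`h2`); put `Ψ γ = g₀ a₀`:
`t (g₀ a₀) = t g₀ * γ (t a₀) = t g₀ * t a₀` (`h1`, `γ` fixes constants; `t a₀` is a constant because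
`(t a₀)^ℓ = 1`).  So `f (Ψ γ) = ρ γ` and `t (Ψ γ) * y = γ y`; and `Ψ γ` is the only element with these two
properties: if `f g = f g'`, `t g = t g'`, then `g' = g a`, `a ∈ ker f`, `t g' = t g * t a`, `t a = 1`, `a = 1`.
`Ψ` is a homomorphism: `t (Ψ γ * Ψ γ') y = t (Ψ γ) γ (t (Ψ γ')) y = γ (t (Ψ γ')) γ y = γ (t (Ψ γ') y) = γ γ' y`.
Finite level: if `γ ∈ H ∩ geo` fixes `y` and the set of `fin` for `ρ`, then `ρ γ = 1` and `t 1 = 1`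
(`t (1 * 1) = t 1 * t 1`), so `Ψ γ = 1`.
`Ψ (φ u φ⁻¹) = e * Ψ u * e⁻¹` for `u ∈ H ∩ geo`: both are over `ρ (φ u φ⁻¹)` (`f e = ρ φ`).  With
`γ' = φ u φ⁻¹`, `g = Ψ u`: `φ⁻¹ y = y / φ⁻¹ w'`, so
`γ' y = φ u (φ⁻¹ y) = φ (u y) / γ' w' = φ (t g * y) / γ' w' = φ (t g) * w' * y / γ' w'`, and
by `h4` `t (e g e⁻¹) = φ (t g) * w' / γ' w'`.  So `t (e g e⁻¹) y = γ' y`.
*BExt* gives `ρ'' : H → P'`.  `f (ρ'' γ) = ρ γ`: given `γ ∈ H` let `T` be a finite set such that `ρ` and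
`ρ''` kill the elements fixing `T`; `γ = u φ^i` on `T` (`DGc`), so `γ⁻¹ u φ^i` fixes `T`, and
`f (ρ'' γ) = f (ρ'' (u φ^i)) = f (Ψ u) * f e ^ i = ρ u * ρ φ ^ i = ρ γ`.
`NHom`: all fields except `fin` (*BExt*) and `neu` are those of `ρ`.  `neu`: `V` `ℓ`-bad, `γ ∈ H ∩ Inert p V`:
`γ ∈ geo`, `ρ γ = 1`, so `γ ∈ gker ρ = Fx p E`.  `v` = the place of `E` below `V` (*Bel*); it is `ℓ`-bad, so
`ℓ ∣ v.pord z` (`h6`), and *KumU* (`n = ℓ`, `Z = y`): `γ y = y`.  So `t (Ψ γ) = 1`, `f (Ψ γ) = 1`: `Ψ γ = 1`.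
*Uses*: Cst, Lvl, Bel, Res, KumU, BExt. -/
def CStmtBack : Prop :=
  ∀ (p : ℕ) [Fact p.Prime] (ℓ : ℕ), ℓ.Prime → ℓ ≠ p →
  ∀ (Ω : Type) [Field Ω] [Algebra (ZMod p) Ω] [IsAlgClosed (Cst p Ω)] (x : Ω)
    (H : Subgroup (Ω ≃ₐ[ZMod p] Ω)) (P : Type) [Group P] (ρ : H →* P), NHom p ℓ x H ρ →
    ∀ (φ : Ω ≃ₐ[ZMod p] Ω) (a : ℕ) (hφ : φ ∈ H), 0 < a →
    (∀ c ∈ Cst p Ω, φ c = c ^ (p ^ a)) → DGc H φ →
    ∀ (E : IntermediateField (Cst p Ω) Ω) (hE : IsLevel p x E), Fx p (E : Set Ω) = gker ρ →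
    ∀ (P' : Type) [Group P'] [Finite P'] (f : P' →* P), Function.Surjective f →
    ∀ e : P', f e = ρ ⟨φ, hφ⟩ → ∀ (t : P' → Ω) (z : E) (w : Ω), z ≠ 0 → w ≠ 0 →
    -- h1
    (∀ (γ : Ω ≃ₐ[ZMod p] Ω) (hγ : γ ∈ H), γ ∈ geo p Ω → ∀ g h : P', f g = ρ ⟨γ, hγ⟩ →
      (∃ (γ' : Ω ≃ₐ[ZMod p] Ω) (hγ' : γ' ∈ H), γ' ∈ geo p Ω ∧ f h = ρ ⟨γ', hγ'⟩) →
      t (g * h) = t g * γ (t h)) →
    -- h0
    (∀ (γ : Ω ≃ₐ[ZMod p] Ω) (hγ : γ ∈ H), γ ∈ geo p Ω → ∀ g : P', f g = ρ ⟨γ, hγ⟩ → t g ≠ 0) →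
    -- h2
    (∀ b ∈ f.ker, t b ^ ℓ = 1 ∧ (t b = 1 → b = 1)) →
    (∀ c : Ω, c ^ ℓ = 1 → ∃ b ∈ f.ker, t b = c) →
    -- h3
    (∀ (γ : Ω ≃ₐ[ZMod p] Ω) (hγ : γ ∈ H), γ ∈ geo p Ω → ∀ g : P', f g = ρ ⟨γ, hγ⟩ →
      γ (z : Ω) = t g ^ ℓ * (z : Ω)) →
    -- h4
    (∀ (γ : Ω ≃ₐ[ZMod p] Ω) (hγ : γ ∈ H), γ ∈ geo p Ω → ∀ g : P', f g = ρ ⟨γ, hγ⟩ →
      φ (t g) * w = t (e * g * e⁻¹) * (φ * γ * φ⁻¹) w) →
    -- h5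
    φ (z : Ω) = w ^ ℓ * (z : Ω) →
    -- h6
    (∀ v : Place (Cst p Ω) E, Bad ℓ (⟨x, hE.mem⟩ : E) v → (ℓ : ℤ) ∣ v.pord z) →
    ∃ ρ' : H →* P', (∀ γ : H, f (ρ' γ) = ρ γ) ∧ NHom p ℓ x H ρ'

/-- **CS.** (350 lines)  The central step.

*Proof.*  `𝔽` is algebraically closed (*Cst*).  *Den* for `H`: `φ₀`, `a`.  *Tow* with `j = 1`: `x₁`,
`N₁ : NHom p ℓ x₁ H₁ ρ₁`, `H₁ = H ⊓ Gx x₁`, `ρ₁ = rst ρ x₁`; `u₁ ∈ gker ρ` with `φ₁ = u₁ φ₀ ∈ Gx x₁`;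
`DGc H₁ φ₁` (`DGc.mono`), `φ₁ = φ₀` on `𝔽`, `ρ φ₁ = ρ φ₀ =: c₀`.  `Q` = image of `H ∩ geo` under `ρ` (a subgroup of
`P`), `cj` = conjugation by `c₀` on `Q` (`φ₁` normalizes `H ∩ geo`).  *Lev* for `(x, H, ρ)` and `x₁`: `E`, `act`,
`φE`.  `E` is a curve field (*Lvl*).
`Q' = Q.comap f`, `fQ : Q' → Q` the restriction of `f`, surjective, kernel `≅ f.ker`, central, of order `ℓ`.
Choose a primitive `ℓ`-th root of unity `ζ ∈ 𝔽` and a generator of the cyclic group `f.ker` of prime order: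
this gives `jj : fQ.ker → 𝔽ˣ` injective with image all `ℓ`-th roots of unity (a group of prime order `ℓ` is
isomorphic to `rootsOfUnity ℓ 𝔽`, also cyclic of order `ℓ`; `mulEquivOfPrimeCardEq`).  Choose `e ∈ P'` with
`f e = c₀`, `cj'` = conjugation by `e` on `Q'` (it fixes the central subgroup `ker`).
*FP* for these data: `t : Q' → E`, `j₀`.  Put `j = j₀ + 1`.  *Tow* for `(x₁, H₁, ρ₁)` and `j`: `x'`,
`x' ^ (ℓ ^ j) = x₁`, `N'`, `hs'`, `hr'`; `u' ∈ gker ρ₁` with `φ' = u' φ₁ ∈ Gx x'`.  *Lev* for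
`(x₁, H₁, ρ₁)`, `x'`, `φ'`, the same `Q` (the image of `H₁ ∩ geo` under `ρ₁` is `Q`: every `γ ∈ H ∩ geo` can be
multiplied by an element of `gker ρ` to get into `Gx x₁`), the same `cj` (`ρ φ' = c₀`): `E'`, `act'`, `φE'`.
`E ≤ E'` (by the characterization of the elements: `gker ρ₁ ⊓ Gx x' ≤ gker ρ ⊓ Gx x₁`).  `Algebra E E'` by
`IntermediateField.inclusion`; `E'` is finite over `E` (finitely generated and algebraic, or: finite over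
`𝔽(x')`, hence over `𝔽(x₁)` as `x'` is algebraic over it; e.g. `E'` is finite over `𝔽(x₁)` by `finite_adjoin`
since `x₁ ∈ E'` is transcendental).  `φE'` extends `φE` (`u'` fixes `E`: `gker ρ₁ ≤ gker ρ ⊓ Gx x₁ = Fx E`),
`act'` extends `act` (both are restrictions of the same `γ ∈ H₁ ⊓ Gx x' ∩ geo`).  *FP* gives `z, w ∈ E'`.
*Back* for `(x', H₁ ⊓ Gx x', rst ρ₁ x')`, `φ'`, `E'` (`gker (rst ρ₁ x') = gker ρ₁ ⊓ Gx x'`), `e`,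
`t g := t ⟨g, _⟩` if `g ∈ Q'` and `1` otherwise: translate the statements (`h1`: `f g, f h ∈ Q`;
`h4`: `act' (cj (f g)) w = (φ' γ φ'⁻¹) w`).  This gives `ρ'` on `H₁ ⊓ Gx x'`, which has the same elements as
`H ⊓ Gx x'` (`x'^(ℓ^j) = x₁`): transport along the equality of subgroups.  `x' ^ (ℓ ^ (j+1)) = x₁ ^ ℓ = x`.
*Uses*: Cst, Lvl, Den, Tow, Lev, FP, Back. -/
def CStmtCS : Prop := ∀ (p : ℕ) [Fact p.Prime], CStep p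

end MP7Z
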