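import Pool.Agent.Lib.MP_7f581e_Z.CS.SpecB
import Pool.Agent.Lib.MP_7f581e_Z.BR.LevAux

/-!
# CS/CS: assembly of the central step
-/

set_option autoImplicit false

namespace MP7Z

open Finset

namespace CS_

/-- Conjugation by `c` on a subgroup stable under it. -/
theorem exists_cj {P : Type} [Group P] (Q : Subgroup P) (c : P)
    (h : ∀ s, s ∈ Q ↔ c * s * c⁻¹ ∈ Q) : ∃ cj : Q ≃* Q, ∀ s : Q, (cj s : P) = c * s * c⁻¹ := by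
  refine ⟨{ toFun := fun s => ⟨c * s * c⁻¹, (h s).1 s.2⟩
            invFun := fun s => ⟨c⁻¹ * s * c, ?_⟩
            left_inv := ?_
            right_inv := ?_
            map_mul' := ?_ }, fun s => rfl⟩
  · rw [h]
    have h1 : c * (c⁻¹ * (s : P) * c) * c⁻¹ = s := by group
    rw [h1]
    exact s.2
  · intro s
    apply Subtype.ext
    change c⁻¹ * (c * (s : P) * c⁻¹) * c = s
    group
  · intro s
    apply Subtype.ext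
    change c * (c⁻¹ * (s : P) * c) * c⁻¹ = s
    group
  · intro s t
    apply Subtype.ext
    change c * ((s : P) * (t : P)) * c⁻¹ = (c * s * c⁻¹) * (c * t * c⁻¹)
    group

section

variable {p : ℕ} [Fact p.Prime] {Ω : Type} [Field Ω] [Algebra (ZMod p) Ω]

/-- Transport of a homomorphism along an equality of subgroups. -/
theorem transport {ℓ : ℕ} {x' : Ω} {H₂ H₃ : Subgroup (Ω ≃ₐ[ZMod p] Ω)} (heq : H₂ = H₃)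
    {P : Type} [Group P] (ρ : H₂ →* P) (hN : NHom p ℓ x' H₂ ρ) :
    ∃ ρ' : H₃ →* P, NHom p ℓ x' H₃ ρ' ∧
      ∀ (γ : Ω ≃ₐ[ZMod p] Ω) (h2 : γ ∈ H₂) (h3 : γ ∈ H₃), ρ' ⟨γ, h3⟩ = ρ ⟨γ, h2⟩ := by
  subst heq
  exact ⟨ρ, hN, fun _ _ _ => rfl⟩

theorem geo_conj {φ : Ω ≃ₐ[ZMod p] Ω} {v : Ω ≃ₐ[ZMod p] Ω} (hv : v ∈ geo p Ω) :
    φ * v * φ⁻¹ ∈ geo p Ω := by
  intro c hc
  have hc' : c ∈ Cst p Ω := hc
  have h1 : φ⁻¹ c ∈ Cst p Ω := by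
    rw [mem_algebraicClosure_iff] at hc' ⊢
    exact IsAlgebraic.algHom (φ⁻¹ : Ω ≃ₐ[ZMod p] Ω).toAlgHom hc'
  change φ (v (φ⁻¹ c)) = c
  rw [hv _ h1]
  exact φ.apply_symm_apply c

theorem geo_conj' {φ : Ω ≃ₐ[ZMod p] Ω} {v : Ω ≃ₐ[ZMod p] Ω} (hv : v ∈ geo p Ω) :
    φ⁻¹ * v * φ ∈ geo p Ω := by
  have h := geo_conj (φ := φ⁻¹) hv
  rwa [inv_inv] at h

/-- The image of the geometric part. -/
def img {H : Subgroup (Ω ≃ₐ[ZMod p] Ω)} {P : Type} [Group P] (ρ : H →* P) : Subgroup P :=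
  ((geo p Ω).comap H.subtype).map ρ

theorem mem_img {H : Subgroup (Ω ≃ₐ[ZMod p] Ω)} {P : Type} [Group P] {ρ : H →* P} {s : P} :
    s ∈ img ρ ↔ ∃ (γ : Ω ≃ₐ[ZMod p] Ω) (h : γ ∈ H), γ ∈ geo p Ω ∧ ρ ⟨γ, h⟩ = s := by
  unfold img
  rw [Subgroup.mem_map]
  constructor
  · rintro ⟨⟨γ, h⟩, h1, h2⟩
    exact ⟨γ, h, h1, h2⟩
  · rintro ⟨γ, h, h1, h2⟩
    exact ⟨⟨γ, h⟩, h1, h2⟩

/-- An element of `Ω` some power of which is `1` is a constant. -/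
theorem mem_cst_of_pow {c : Ω} {n : ℕ} (hn : 0 < n) (hc : c ^ n = 1) : c ∈ Cst p Ω := by
  rw [mem_algebraicClosure_iff]
  refine ⟨Polynomial.X ^ n - 1, ?_, ?_⟩
  · exact (Polynomial.monic_X_pow_sub_C (1 : ZMod p) hn.ne').ne_zero
  · simp [hc]

end

end CS_

open CS_ LevAux in
/-- **CS.** The central step. -/
theorem ctCS (hCst : CstStmt) (hLvl : LvlStmt) (hDen : CStmtDen) (hTow : CStmtTow)
    (hLev : CStmtLev) (hFP : CStmtFP) (hBack : CStmtBack) : CStmtCS := by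
  intro p _ ℓ hℓ hℓp Ω _ _ x H P _ _ ρ hP hN P' _ _ f hf hcen hcard
  have : IsAlgClosed (Cst p Ω) := hCst p Ω x hN.stage
  have hℓF : Fact ℓ.Prime := ⟨hℓ⟩
  obtain ⟨φ₀, a, ha, hφ₀c, hDG₀⟩ := hDen p Ω x hN.stage H hN.le hN.opn
  -- first root
  obtain ⟨x₁, hx₁, hN₁, hs₁, hr₁⟩ := hTow p ℓ hℓ hℓp Ω x H P ρ hN 1
  obtain ⟨u₁, hu₁, hu₁x⟩ := hs₁ φ₀ hDG₀.1
  have hu₁' := hu₁
  obtain ⟨hu₁g, hu₁H, hu₁ρ⟩ := hu₁'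
  have hDG₁ : DGc (H ⊓ Gx p x₁) (u₁ * φ₀) := hDG₀.mono hu₁H hu₁g hφ₀c hu₁x
  obtain ⟨φ₁, hφ₁⟩ : ∃ φ₁, φ₁ = u₁ * φ₀ := ⟨_, rfl⟩
  rw [← hφ₁] at hDG₁ hu₁x
  have hφ₁c : ∀ c ∈ Cst p Ω, φ₁ c = c ^ (p ^ a) := by
    intro c hc
    rw [hφ₁]
    change u₁ (φ₀ c) = _
    rw [hφ₀c c hc]
    exact hu₁g _ (pow_mem hc _)
  have hφ₁H : φ₁ ∈ H := hDG₁.1.1
  obtain ⟨c₀, hc₀⟩ : ∃ c₀, c₀ = ρ ⟨φ₁, hφ₁H⟩ := ⟨_, rfl⟩
  -- the group `Q`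
  obtain ⟨Q, hQdef⟩ : ∃ Q : Subgroup P, Q = img ρ := ⟨_, rfl⟩
  have hQ : ∀ s, s ∈ Q ↔ ∃ (γ : Ω ≃ₐ[ZMod p] Ω) (h : γ ∈ H), γ ∈ geo p Ω ∧ ρ ⟨γ, h⟩ = s := by
    intro s
    rw [hQdef]
    exact mem_img
  have hQc : ∀ s, s ∈ Q ↔ c₀ * s * c₀⁻¹ ∈ Q := by
    intro s
    constructor
    · intro hs
      obtain ⟨γ, h, hg, rfl⟩ := (hQ s).1 hs
      refine (hQ _).2 ⟨φ₁ * γ * φ₁⁻¹, mul_mem (mul_mem hφ₁H h) (inv_mem hφ₁H), geo_conj hg, ?_⟩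
      rw [hc₀]
      rw [← map_mul, ← map_inv, ← map_mul]
      rfl
    · intro hs
      obtain ⟨γ, h, hg, h2⟩ := (hQ _).1 hs
      refine (hQ _).2 ⟨φ₁⁻¹ * γ * φ₁, mul_mem (mul_mem (inv_mem hφ₁H) h) hφ₁H, geo_conj' hg, ?_⟩
      have h3 : (⟨φ₁⁻¹ * γ * φ₁, mul_mem (mul_mem (inv_mem hφ₁H) h) hφ₁H⟩ : H) =
        (⟨φ₁, hφ₁H⟩ : H)⁻¹ * ⟨γ, h⟩ * ⟨φ₁, hφ₁H⟩ := rfl
      rw [h3, map_mul, map_mul, h2, map_inv, ← hc₀]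
      group
  obtain ⟨cj, hcj⟩ := exists_cj Q c₀ hQc
  have hcj1 : ∀ s : Q, (cj s : P) = ρ ⟨φ₁, hφ₁H⟩ * s * (ρ ⟨φ₁, hφ₁H⟩)⁻¹ := by
    intro s
    rw [hcj, hc₀]
  obtain ⟨E, hE, act, φE, hE1, hE2, hact, hφE, hCSD⟩ := hLev p ℓ hℓ hℓp Ω x H P ρ hP hN x₁ hN₁ hs₁
    (hr₁ one_pos) φ₁ a hφ₁H hu₁x ha hφ₁c Q hQ cj hcj1
  have hEc : IsCurveField (Cst p Ω) E := ((hLvl p Ω x₁ hN₁.stage).1 E hE).1
  have : Finite Q := inferInstance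
  -- the extension
  obtain ⟨Q', hQ'⟩ : ∃ Q' : Subgroup P', Q' = Q.comap f := ⟨_, rfl⟩
  have hmQ' : ∀ g, g ∈ Q' ↔ f g ∈ Q := by
    intro g
    rw [hQ']
    exact Iff.rfl
  obtain ⟨fQ, hfQ⟩ : ∃ fQ : Q' →* Q, ∀ g : Q', (fQ g : P) = f g :=
    ⟨(f.comp Q'.subtype).codRestrict Q (fun g => (hmQ' g).1 g.2), fun g => rfl⟩
  have hfQs : Function.Surjective fQ := by
    intro s
    obtain ⟨g, hg⟩ := hf (s : P)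
    refine ⟨⟨g, (hmQ' g).2 (hg ▸ s.2)⟩, Subtype.ext ?_⟩
    rw [hfQ]
    exact hg
  have hker : ∀ g : Q', g ∈ fQ.ker ↔ (g : P') ∈ f.ker := by
    intro g
    rw [MonoidHom.mem_ker, MonoidHom.mem_ker, ← hfQ]
    exact ⟨fun h => by rw [h]; rfl, fun h => Subtype.ext h⟩
  -- the roots of unity
  have hℓ0 : (ℓ : Cst p Ω) ≠ 0 := by
    have : CharP (Cst p Ω) p := charP_of_injective_algebraMap
      (algebraMap (ZMod p) (Cst p Ω)).injective p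
    intro h0
    rw [CharP.cast_eq_zero_iff (Cst p Ω) p] at h0
    exact hℓp ((Nat.prime_dvd_prime_iff_eq Fact.out hℓ).1 h0).symm
  have : NeZero ((ℓ : ℕ) : Cst p Ω) := ⟨hℓ0⟩
  have : NeZero ℓ := ⟨hℓ.ne_zero⟩
  have hcardr : Nat.card (rootsOfUnity ℓ (Cst p Ω)) = ℓ :=
    HasEnoughRootsOfUnity.natCard_rootsOfUnity (Cst p Ω) ℓ
  let jf : f.ker ≃* rootsOfUnity ℓ (Cst p Ω) := mulEquivOfPrimeCardEq hcard hcardr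
  obtain ⟨jj, hjj⟩ : ∃ jj : fQ.ker →* (Cst p Ω)ˣ, ∀ (b : fQ.ker),
      jj b = ((jf ⟨(b : Q'), (hker b).1 b.2⟩ : rootsOfUnity ℓ (Cst p Ω)) : (Cst p Ω)ˣ) := by
    refine ⟨{ toFun := fun b => ((jf ⟨((b : Q') : P'), (hker b).1 b.2⟩ :
                rootsOfUnity ℓ (Cst p Ω)) : (Cst p Ω)ˣ)
              map_one' := ?_
              map_mul' := ?_ }, fun b => rfl⟩
    · have h1 : (⟨((1 : fQ.ker) : Q'), (hker _).1 (1 : fQ.ker).2⟩ : f.ker) = 1 := rfl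
      rw [h1, map_one]
      rfl
    · intro b b'
      have h1 : (⟨(((b * b' : fQ.ker) : Q') : P'), (hker _).1 (b * b' : fQ.ker).2⟩ : f.ker) =
        ⟨((b : Q') : P'), (hker b).1 b.2⟩ * ⟨((b' : Q') : P'), (hker b').1 b'.2⟩ := rfl
      rw [h1, map_mul]
      rfl
  have hjjℓ : ∀ b, jj b ^ ℓ = 1 := by
    intro b
    rw [hjj]
    exact (mem_rootsOfUnity _ _).1 (jf _).2
  obtain ⟨e, he⟩ := hf c₀
  obtain ⟨cj', hcj'⟩ := exists_cj Q' e (by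
    intro g
    rw [hmQ', hmQ', hQc, map_mul, map_mul, map_inv, he])
  have hcenQ : ∀ b ∈ fQ.ker, ∀ g : Q', b * g = g * b := by
    intro b hb g
    exact Subtype.ext (hcen b ((hker b).1 hb) g)
  have hcjc : ∀ g, fQ (cj' g) = cj (fQ g) := by
    intro g
    apply Subtype.ext
    rw [hfQ, hcj', hcj, hfQ, map_mul, map_mul, map_inv, he]
  have hcjk : ∀ b ∈ fQ.ker, cj' b = b := by
    intro b hb
    apply Subtype.ext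
    rw [hcj', ← hcen b ((hker b).1 hb) e, mul_inv_cancel_right]
  obtain ⟨t, ht0, htm, htj, j₀, hmain⟩ := hFP (Cst p Ω) E Q Q' ℓ (p ^ a) act cj φE ⟨x₁, hE.mem⟩ hℓ
    hℓ0 hCSD fQ cj' hfQs hcenQ hcjc hcjk jj hjjℓ
  -- the second root
  obtain ⟨x', hx', hN', hs', hr'⟩ := hTow p ℓ hℓ hℓp Ω x₁ (H ⊓ Gx p x₁) P (rst ρ x₁) hN₁ (j₀ + 1)
  obtain ⟨u', hu', hu'x⟩ := hs' φ₁ hDG₁.1
  have hu'' := hu'
  obtain ⟨hu'g, hu'H, hu'ρ⟩ := hu''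
  have hDG' : DGc (H ⊓ Gx p x₁ ⊓ Gx p x') (u' * φ₁) := hDG₁.mono hu'H hu'g hφ₁c hu'x
  obtain ⟨φ', hφ'⟩ : ∃ φ', φ' = u' * φ₁ := ⟨_, rfl⟩
  rw [← hφ'] at hDG' hu'x
  have hφ'c : ∀ c ∈ Cst p Ω, φ' c = c ^ (p ^ a) := by
    intro c hc
    rw [hφ']
    change u' (φ₁ c) = _
    rw [hφ₁c c hc]
    exact hu'g _ (pow_mem hc _)
  have hφ'H : φ' ∈ H ⊓ Gx p x₁ := hDG'.1.1
  have hc₀' : rst ρ x₁ ⟨φ', hφ'H⟩ = c₀ := by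
    have h1 : (⟨φ', hφ'H⟩ : (H ⊓ Gx p x₁ : Subgroup (Ω ≃ₐ[ZMod p] Ω))) =
      ⟨u', hu'H⟩ * ⟨φ₁, hDG₁.1⟩ := Subtype.ext hφ'
    rw [h1, map_mul, hu'ρ, one_mul, hc₀]
    rfl
  have hQ₁ : ∀ s, s ∈ Q ↔ ∃ (γ : Ω ≃ₐ[ZMod p] Ω) (h : γ ∈ H ⊓ Gx p x₁), γ ∈ geo p Ω ∧
      rst ρ x₁ ⟨γ, h⟩ = s := by
    intro s
    rw [hQ]
    constructor
    · rintro ⟨γ, h, hg, h2⟩
      obtain ⟨u, ⟨hug, huH, huρ⟩, hux⟩ := hs₁ γ h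
      refine ⟨u * γ, ⟨mul_mem huH h, hux⟩, mul_mem hug hg, ?_⟩
      change ρ ⟨u * γ, mul_mem huH h⟩ = s
      have h3 : (⟨u * γ, mul_mem huH h⟩ : H) = ⟨u, huH⟩ * ⟨γ, h⟩ := rfl
      rw [h3, map_mul, huρ, one_mul, h2]
    · rintro ⟨γ, h, hg, h2⟩
      exact ⟨γ, h.1, hg, h2⟩
  have hcj2 : ∀ s : Q, (cj s : P) = rst ρ x₁ ⟨φ', hφ'H⟩ * s * (rst ρ x₁ ⟨φ', hφ'H⟩)⁻¹ := by
    intro s
    rw [hcj, hc₀']
  obtain ⟨E', hE', act', φE', hE'1, hE'2, hact', hφE', hCSD'⟩ := hLev p ℓ hℓ hℓp Ω x₁ (H ⊓ Gx p x₁) P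
    (rst ρ x₁) hP hN₁ x' hN' hs' (hr' (Nat.succ_pos _)) φ' a hφ'H hu'x ha hφ'c Q hQ₁ cj hcj2
  have hEc' : IsCurveField (Cst p Ω) E' := ((hLvl p Ω x' hN'.stage).1 E' hE').1
  have hgk : ∀ γ, γ ∈ gker (rst ρ x₁) → γ ∈ gker ρ ⊓ Gx p x₁ := by
    rintro γ ⟨hg, hH, hρ⟩
    exact ⟨⟨hg, hH.1, hρ⟩, hH.2⟩
  have hEE : E ≤ E' := by
    intro g hg
    rw [hE'2]
    intro γ hγ
    exact (hE2 g).1 hg γ (hgk γ hγ.1)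
  -- elements of `Q` come from automorphisms which fix `x'`
  have hQ₂ : ∀ s : Q, ∃ (γ : Ω ≃ₐ[ZMod p] Ω) (h : γ ∈ H ⊓ Gx p x₁), γ ∈ Gx p x' ∧ γ ∈ geo p Ω ∧
      rst ρ x₁ ⟨γ, h⟩ = s := by
    intro s
    obtain ⟨γ, h, hg, h2⟩ := (hQ₁ s).1 s.2
    obtain ⟨u, ⟨hug, huH, huρ⟩, hux⟩ := hs' γ h
    refine ⟨u * γ, mul_mem huH h, hux, mul_mem hug hg, ?_⟩
    have h3 : (⟨u * γ, mul_mem huH h⟩ : (H ⊓ Gx p x₁ : Subgroup (Ω ≃ₐ[ZMod p] Ω))) =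
      ⟨u, huH⟩ * ⟨γ, h⟩ := rfl
    rw [h3, map_mul, huρ, one_mul, h2]
  have hactE : ∀ (s : Q) (γ : Ω ≃ₐ[ZMod p] Ω) (h : γ ∈ H ⊓ Gx p x₁), γ ∈ geo p Ω →
      rst ρ x₁ ⟨γ, h⟩ = s → ∀ g : E, ((act s g : E) : Ω) = γ (g : Ω) := by
    intro s γ h hg h2 g
    have h3 := hact γ h.1 h.2 hg g
    have h4 : (⟨ρ ⟨γ, h.1⟩, (hQ _).2 ⟨γ, h.1, hg, rfl⟩⟩ : Q) = s := Subtype.ext h2
    rw [h4] at h3
    exact h3
  have hactE' : ∀ (s : Q) (γ : Ω ≃ₐ[ZMod p] Ω) (h : γ ∈ H ⊓ Gx p x₁), γ ∈ Gx p x' → γ ∈ geo p Ω →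
      rst ρ x₁ ⟨γ, h⟩ = s → ∀ g : E', ((act' s g : E') : Ω) = γ (g : Ω) := by
    intro s γ h hx hg h2 g
    have h3 := hact' γ h hx hg g
    have h4 : (⟨rst ρ x₁ ⟨γ, h⟩, (hQ₁ _).2 ⟨γ, h, hg, rfl⟩⟩ : Q) = s := Subtype.ext h2
    rw [h4] at h3
    exact h3
  let aEE := incAlg hEE
  have tEE := tower_inc hEE
  have fEE := finite_of_level hN₁.stage hE ⟨hEE hE.mem, hE'.fg⟩ hEE
  obtain ⟨z, w, hz0, hw0, hz, hw, hφz, hbad⟩ := @hmain (j₀ + 1) (Nat.le_succ _) E' _ _ hEc'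
    aEE tEE fEE act' φE'
    ⟨x', hE'.mem⟩ hCSD' (Subtype.ext hx') (by
      intro g
      apply Subtype.ext
      have h1 : φ' (g : Ω) = φ₁ (g : Ω) := by
        rw [hφ']
        change u' (φ₁ (g : Ω)) = φ₁ (g : Ω)
        have h2 : (φ₁ (g : Ω)) ∈ E := by
          rw [← hφE g]
          exact (φE g).2
        exact (hE2 _).1 h2 u' (hgk u' hu')
      rw [hφE', incAlg_apply, incAlg_apply, h1, hφE]) (by
      intro s g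
      apply Subtype.ext
      obtain ⟨γ, h, hx, hg, h2⟩ := hQ₂ s
      rw [hactE' s γ h hx hg h2, incAlg_apply, incAlg_apply, hactE s γ h hg h2])
  -- back to homomorphisms
  have hFx : Fx p (E' : Set Ω) = gker (rst (rst ρ x₁) x') := by
    rw [hE'1]
    ext γ
    constructor
    · rintro ⟨⟨hg, hH, hρ⟩, hx⟩
      exact ⟨hg, ⟨hH, hx⟩, hρ⟩
    · rintro ⟨hg, hH, hρ⟩
      exact ⟨⟨hg, hH.1, hρ⟩, hH.2⟩
  obtain ⟨t', ht'⟩ : ∃ t' : P' → Ω, ∀ (g : P') (h : g ∈ Q'), t' g = ((t ⟨g, h⟩ : E) : Ω) := by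
    classical
    refine ⟨fun g => if h : g ∈ Q' then ((t ⟨g, h⟩ : E) : Ω) else 1, fun g h => ?_⟩
    exact dif_pos h
  have hgQ : ∀ (γ : Ω ≃ₐ[ZMod p] Ω) (hγ : γ ∈ H ⊓ Gx p x₁ ⊓ Gx p x'), γ ∈ geo p Ω → ∀ g : P',
      f g = rst (rst ρ x₁) x' ⟨γ, hγ⟩ → g ∈ Q' := by
    intro γ hγ hg g h
    rw [hmQ', h]
    exact (hQ₁ _).2 ⟨γ, hγ.1, hg, rfl⟩
  obtain ⟨ρ', hρ'f, hρ'N⟩ := hBack p ℓ hℓ hℓp Ω x' (H ⊓ Gx p x₁ ⊓ Gx p x') P (rst (rst ρ x₁) x') hN'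
    φ' a hDG'.1 ha hφ'c hDG' E' hE' hFx P' f hf e (he.trans hc₀'.symm) t' z (w : Ω) hz0
    (fun h => hw0 (Subtype.ext h))
    (by
      intro γ hγ hg g h hfg hfh
      obtain ⟨γ', hγ', hg', hfh'⟩ := hfh
      have hgm := hgQ γ hγ hg g hfg
      have hhm := hgQ γ' hγ' hg' h hfh'
      rw [ht' (g * h) (mul_mem hgm hhm), ht' g hgm, ht' h hhm]
      have h1 := htm ⟨g, hgm⟩ ⟨h, hhm⟩
      have h2 : (⟨g, hgm⟩ * ⟨h, hhm⟩ : Q') = ⟨g * h, mul_mem hgm hhm⟩ := rfl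
      rw [h2] at h1
      rw [h1]
      have h3 := hactE (fQ ⟨g, hgm⟩) γ hγ.1 hg (by rw [hfQ]; exact hfg.symm) (t ⟨h, hhm⟩)
      change ((t ⟨g, hgm⟩ : E) : Ω) * ((act (fQ ⟨g, hgm⟩) (t ⟨h, hhm⟩) : E) : Ω) = _
      rw [h3])
    (by
      intro γ hγ hg g hfg
      rw [ht' g (hgQ γ hγ hg g hfg)]
      exact fun h => ht0 _ (Subtype.ext h))
    (by
      intro b hb
      have hbm : b ∈ Q' := by
        rw [hmQ', MonoidHom.mem_ker.1 hb]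
        exact one_mem _
      have hbk : (⟨b, hbm⟩ : Q') ∈ fQ.ker := (hker _).2 hb
      have h1 := htj ⟨⟨b, hbm⟩, hbk⟩
      rw [ht' b hbm]
      constructor
      · have h2 : (t ⟨b, hbm⟩) ^ ℓ = 1 := by
          have h3 : t ⟨b, hbm⟩ = algebraMap (Cst p Ω) E (jj ⟨⟨b, hbm⟩, hbk⟩) := h1
          rw [h3, ← map_pow, ← Units.val_pow_eq_pow_val, hjjℓ, Units.val_one, map_one]
        have h4 := congrArg (fun g : E => (g : Ω)) h2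
        exact h4
      · intro h2
        have h3 : t ⟨b, hbm⟩ = 1 := Subtype.ext h2
        have h4 : algebraMap (Cst p Ω) E (jj ⟨⟨b, hbm⟩, hbk⟩) = 1 := by rw [← h1]; exact h3
        have h5 : ((jj ⟨⟨b, hbm⟩, hbk⟩ : (Cst p Ω)ˣ) : Cst p Ω) = 1 :=
          (algebraMap (Cst p Ω) E).injective (by rw [h4, map_one])
        have h6 : jj ⟨⟨b, hbm⟩, hbk⟩ = 1 := Units.ext h5
        rw [hjj] at h6
        have h7 : jf ⟨b, hb⟩ = 1 := Subtype.ext h6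
        rw [map_eq_one_iff jf jf.injective] at h7
        exact congrArg Subtype.val h7)
    (by
      intro c hc
      have hcm : c ∈ Cst p Ω := mem_cst_of_pow hℓ.pos hc
      have hc0 : c ≠ 0 := by
        rintro rfl
        rw [zero_pow hℓ.ne_zero] at hc
        exact zero_ne_one hc
      have h1 : (⟨c, hcm⟩ : Cst p Ω) ≠ 0 := fun h => hc0 (congrArg Subtype.val h)
      have h2 : Units.mk0 (⟨c, hcm⟩ : Cst p Ω) h1 ∈ rootsOfUnity ℓ (Cst p Ω) := by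
        rw [mem_rootsOfUnity]
        apply Units.ext
        apply Subtype.ext
        exact hc
      obtain ⟨b, hb⟩ := jf.surjective ⟨_, h2⟩
      have hbm : (b : P') ∈ Q' := by
        rw [hmQ', MonoidHom.mem_ker.1 b.2]
        exact one_mem _
      have hbk : (⟨(b : P'), hbm⟩ : Q') ∈ fQ.ker := (hker _).2 b.2
      refine ⟨b, b.2, ?_⟩
      rw [ht' b hbm]
      have h3 := htj ⟨⟨b, hbm⟩, hbk⟩
      have h4 : t ⟨b, hbm⟩ = algebraMap (Cst p Ω) E (jj ⟨⟨b, hbm⟩, hbk⟩) := h3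
      rw [h4, hjj]
      have h5 : (⟨((⟨(b : P'), hbm⟩ : Q') : P'), (hker _).1 hbk⟩ : f.ker) = b := rfl
      rw [h5, hb]
      rfl)
    (by
      intro γ hγ hg g hfg
      have hgm := hgQ γ hγ hg g hfg
      have h1 := hz ⟨g, hgm⟩
      have h2 := hactE' (fQ ⟨g, hgm⟩) γ hγ.1 hγ.2 hg (by rw [hfQ]; exact hfg.symm) z
      rw [h1] at h2
      rw [ht' g hgm, ← h2]
      rfl)
    (by
      intro γ hγ hg g hfg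
      have hgm := hgQ γ hγ hg g hfg
      have h1 := hw ⟨g, hgm⟩
      have hγ' : φ' * γ * φ'⁻¹ ∈ H ⊓ Gx p x₁ ⊓ Gx p x' :=
        mul_mem (mul_mem hDG'.1 hγ) (inv_mem hDG'.1)
      have hegm : e * g * e⁻¹ ∈ Q' := by
        rw [hmQ', map_mul, map_mul, map_inv, he, ← hQc]
        exact (hmQ' g).1 hgm
      have h2 := hactE' (cj (fQ ⟨g, hgm⟩)) (φ' * γ * φ'⁻¹) hγ'.1 hγ'.2 (geo_conj hg) (by
        rw [hcj2, hfQ]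
        have h3 : (⟨φ' * γ * φ'⁻¹, hγ'.1⟩ : (H ⊓ Gx p x₁ : Subgroup (Ω ≃ₐ[ZMod p] Ω))) =
          ⟨φ', hφ'H⟩ * ⟨γ, hγ.1⟩ * (⟨φ', hφ'H⟩)⁻¹ := rfl
        rw [h3, map_mul, map_mul, map_inv]
        change _ = _ * f g * _
        rw [hfg]
        rfl) w
      rw [ht' g hgm, ht' (e * g * e⁻¹) hegm, ← h2]
      have h4 : cj' ⟨g, hgm⟩ = ⟨e * g * e⁻¹, hegm⟩ := Subtype.ext (hcj' _)
      rw [h4] at h1
      have h5 := congrArg (fun g : E' => (g : Ω)) h1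
      have h6 := hφE' (algebraMap E E' (t ⟨g, hgm⟩))
      rw [incAlg_apply] at h6
      rw [← h6]
      exact h5)
    (by
      rw [← hφE' z, hφz]
      rfl)
    hbad
  -- transport
  have heq : H ⊓ Gx p x₁ ⊓ Gx p x' = H ⊓ Gx p x' := by
    apply le_antisymm
    · rintro γ ⟨⟨h1, h2⟩, h3⟩
      exact ⟨h1, h3⟩
    · rintro γ ⟨h1, h3⟩
      refine ⟨⟨h1, ?_⟩, h3⟩
      change γ ∈ Gx p x₁
      rw [mem_Gx, ← hx', map_pow, mem_Gx.1 h3]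
  obtain ⟨ρ'', hρ''N, hρ''⟩ := transport heq ρ' hρ'N
  refine ⟨x', j₀ + 1 + 1, ?_, ρ'', hρ''N, ?_⟩
  · rw [pow_succ, pow_mul, hx']
    rw [pow_one] at hx₁
    exact hx₁
  · intro γ h
    have h2 : γ ∈ H ⊓ Gx p x₁ ⊓ Gx p x' := by
      rw [heq]
      exact h
    rw [hρ'' γ h2 h, hρ'f]
    rfl

end MP7Z
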