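import Pool.Agent.Lib.MP_7f581e_Z.CS.SpecB

/-!
# Package CS: the data of the field part at a level
-/

set_option autoImplicit false

namespace MP7Z

section

variable {p : ℕ} [Fact p.Prime] {Ω : Type} [Field Ω] [Algebra (ZMod p) Ω]

theorem Lev_cst (τ : Ω ≃ₐ[ZMod p] Ω) {c : Ω} (hc : c ∈ Cst p Ω) : τ c ∈ Cst p Ω := by
  rw [mem_algebraicClosure_iff] at hc ⊢
  exact IsAlgebraic.algHom τ.toAlgHom hc

theorem Lev_geo (τ : Ω ≃ₐ[ZMod p] Ω) {v : Ω ≃ₐ[ZMod p] Ω} (hv : v ∈ geo p Ω) :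
    τ * v * τ⁻¹ ∈ geo p Ω := by
  intro c hc
  have h1 : τ⁻¹ c ∈ Cst p Ω := Lev_cst _ hc
  change τ (v (τ⁻¹ c)) = c
  rw [hv _ h1]
  exact τ.apply_symm_apply c

theorem Lev_gker {H : Subgroup (Ω ≃ₐ[ZMod p] Ω)} {P : Type} [Group P] (ρ : H →* P)
    {τ v : Ω ≃ₐ[ZMod p] Ω} (hτ : τ ∈ H) (hv : v ∈ gker ρ) : τ * v * τ⁻¹ ∈ gker ρ := by
  obtain ⟨h1, h2, h3⟩ := hv
  refine ⟨Lev_geo τ h1, mul_mem (mul_mem hτ h2) (inv_mem hτ), ?_⟩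
  have h : (⟨τ * v * τ⁻¹, mul_mem (mul_mem hτ h2) (inv_mem hτ)⟩ : H) =
      ⟨τ, hτ⟩ * ⟨v, h2⟩ * (⟨τ, hτ⟩ : H)⁻¹ := rfl
  rw [h, map_mul, map_mul, h3, mul_one, ← map_mul, mul_inv_cancel, map_one]

theorem Lev_root {ℓ : ℕ} (hℓ : 0 < ℓ) {c : Ω} (hc : c ^ ℓ = 1) : c ∈ Cst p Ω := by
  rw [mem_algebraicClosure_iff]
  exact IsAlgebraic.of_pow hℓ (by rw [hc]; exact isAlgebraic_one)

/-- The restriction of an automorphism to a level which it preserves. -/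
def Lev_res {E : IntermediateField (Cst p Ω) Ω} (τ : Ω ≃ₐ[ZMod p] Ω)
    (h : ∀ f, f ∈ E ↔ τ f ∈ E) : E ≃+* E where
  toFun f := ⟨τ f, (h _).1 f.2⟩
  invFun f := ⟨τ⁻¹ f, (h _).2 (by
    have h' : τ (τ⁻¹ (f : Ω)) = f := τ.apply_symm_apply _
    rw [h']
    exact f.2)⟩
  left_inv f := Subtype.ext (τ.symm_apply_apply (f : Ω))
  right_inv f := Subtype.ext (τ.apply_symm_apply (f : Ω))
  map_mul' a b := Subtype.ext (map_mul τ (a : Ω) b)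
  map_add' a b := Subtype.ext (map_add τ (a : Ω) b)

theorem Lev_res_apply {E : IntermediateField (Cst p Ω) Ω} (τ : Ω ≃ₐ[ZMod p] Ω)
    (h : ∀ f, f ∈ E ↔ τ f ∈ E) (f : E) : ((Lev_res τ h f : E) : Ω) = τ (f : Ω) := rfl

/-- The restriction of a geometric automorphism to a level which it preserves. -/
def Lev_resA {E : IntermediateField (Cst p Ω) Ω} (τ : Ω ≃ₐ[ZMod p] Ω)
    (h : ∀ f, f ∈ E ↔ τ f ∈ E) (hg : τ ∈ geo p Ω) : E ≃ₐ[Cst p Ω] E :=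
  { Lev_res τ h with commutes' := fun c => Subtype.ext (hg c c.2) }

theorem Lev_resA_apply {E : IntermediateField (Cst p Ω) Ω} (τ : Ω ≃ₐ[ZMod p] Ω)
    (h : ∀ f, f ∈ E ↔ τ f ∈ E) (hg : τ ∈ geo p Ω) (f : E) :
    ((Lev_resA τ h hg f : E) : Ω) = τ (f : Ω) := rfl

end

theorem ctLev (_hCst : CstStmt) (hLvl : LvlStmt) (hBel : BelStmt) (hAbv : AbvStmt)
    (hConj : ConjStmt) (hFrbK : FrbKStmt) (hGal : GalStmt) : CStmtLev := by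
  classical
  intro p _ ℓ hℓ hℓp Ω _ _ _ x H P _ _ ρ hP N x' N' hs hr φ a hφ hφx ha hfr Q hQ cj hcj
  obtain ⟨S₁, hS₁⟩ := N'.opn
  obtain ⟨S₂, hS₂⟩ := N'.fin
  have hℓ0 : 0 < ℓ := hℓ.pos
  obtain ⟨E, hE, hFx, hmem, hnorm⟩ := hGal p Ω x' N'.stage (gker ρ ⊓ Gx p x') (S₁ ∪ S₂) (by
      rintro γ ⟨h1, h2⟩
      rw [mem_Fx]
      intro c hc
      rcases Set.mem_insert_iff.1 hc with rfl | hc
      · exact mem_Gx.1 h2
      · exact h1.1 c hc) (by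
      intro γ hγ
      rw [mem_Fx] at hγ
      have h1 : γ ∈ Gx p x' := mem_Gx.2 (hγ _ (Or.inl (Set.mem_insert _ _)))
      have h2 : γ ∈ geo p Ω := fun c hc => hγ c (Or.inl (Set.mem_insert_of_mem _ hc))
      have h3 : γ ∈ H ⊓ Gx p x' := hS₁ γ h1 fun s hs =>
        hγ s (Or.inr (Finset.mem_coe.2 (Finset.mem_union_left _ hs)))
      have h4 := hS₂ ⟨γ, h3⟩ fun s hs =>
        hγ s (Or.inr (Finset.mem_coe.2 (Finset.mem_union_right _ hs)))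
      rw [rst_apply] at h4
      exact ⟨⟨h2, h3.1, h4⟩, h1⟩)
  -- elements of `H ⊓ Gx x'` preserve `E`
  have hpres : ∀ τ ∈ H, τ ∈ Gx p x' → ∀ f, f ∈ E ↔ τ f ∈ E := by
    intro τ hτ hτx
    apply hnorm
    have key : ∀ τ' ∈ H, τ' ∈ Gx p x' → ∀ h, h ∈ gker ρ ⊓ Gx p x' →
        τ' * h * τ'⁻¹ ∈ gker ρ ⊓ Gx p x' := fun τ' h1 h2 h hh =>
      Subgroup.mem_inf.2 ⟨Lev_gker ρ h1 hh.1, mul_mem (mul_mem h2 hh.2) (inv_mem h2)⟩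
    intro h
    refine ⟨key τ hτ hτx h, fun hh => ?_⟩
    have h1 := key τ⁻¹ (inv_mem hτ) (inv_mem hτx) _ hh
    have h2 : τ⁻¹ * (τ * h * τ⁻¹) * τ⁻¹⁻¹ = h := by group
    rwa [h2] at h1
  -- the key lemma: the action depends only on the image
  have hfixE : ∀ c ∈ gker ρ ⊓ Gx p x', ∀ f ∈ E, c f = f := fun c hc f hf => (hmem f).1 hf c hc
  have hkey : ∀ (γ γ' : Ω ≃ₐ[ZMod p] Ω) (hγ : γ ∈ H) (_ : γ ∈ Gx p x') (_ : γ ∈ geo p Ω)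
      (hγ' : γ' ∈ H) (_ : γ' ∈ Gx p x') (_ : γ' ∈ geo p Ω), ρ ⟨γ, hγ⟩ = ρ ⟨γ', hγ'⟩ →
      ∀ f ∈ E, γ f = γ' f := by
    intro γ γ' h1 h2 h3 h1' h2' h3' heq f hf
    have h4 : γ'⁻¹ * γ ∈ gker ρ ⊓ Gx p x' := by
      refine Subgroup.mem_inf.2 ⟨⟨mul_mem (inv_mem h3') h3, mul_mem (inv_mem h1') h1, ?_⟩,
        mul_mem (inv_mem h2') h2⟩
      have e : (⟨γ'⁻¹ * γ, mul_mem (inv_mem h1') h1⟩ : H) = (⟨γ', h1'⟩ : H)⁻¹ * ⟨γ, h1⟩ := rfl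
      rw [e, map_mul, map_inv, heq, inv_mul_cancel]
    have h5 : γ'⁻¹ (γ f) = f := hfixE _ h4 f hf
    have h6 : γ' (γ'⁻¹ (γ f)) = γ f := γ'.apply_symm_apply _
    rw [← h6, h5]
  -- commutators
  have hcomm : ∀ (τ₁ τ₂ : Ω ≃ₐ[ZMod p] Ω), (∀ f, f ∈ E ↔ τ₁ f ∈ E) → (∀ f, f ∈ E ↔ τ₂ f ∈ E) →
      τ₁ * τ₂ * τ₁⁻¹ * τ₂⁻¹ ∈ gker ρ ⊓ Gx p x' → ∀ f ∈ E, τ₁ (τ₂ f) = τ₂ (τ₁ f) := by
    intro τ₁ τ₂ h1 h2 h3 f hf
    have h4 : τ₂ (τ₁ f) ∈ E := (h2 _).1 ((h1 _).1 hf)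
    have h5 := hfixE _ h3 _ h4
    rw [← h5]
    have h6 : τ₂⁻¹ (τ₂ (τ₁ f)) = τ₁ f := τ₂.symm_apply_apply _
    have h7 : τ₁⁻¹ (τ₁ f) = f := τ₁.symm_apply_apply _
    change τ₁ (τ₂ f) = τ₁ (τ₂ (τ₁⁻¹ (τ₂⁻¹ (τ₂ (τ₁ f)))))
    rw [h6, h7]
  -- representatives
  have hrep : ∀ s : Q, ∃ (γ : Ω ≃ₐ[ZMod p] Ω) (h : γ ∈ H), γ ∈ Gx p x' ∧ γ ∈ geo p Ω ∧
      ρ ⟨γ, h⟩ = s := by
    intro s
    obtain ⟨γ, hγ, hγg, hγs⟩ := (hQ s).1 s.2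
    obtain ⟨u, ⟨hu1, hu2, hu3⟩, hux⟩ := hs γ hγ
    refine ⟨u * γ, mul_mem hu2 hγ, hux, mul_mem hu1 hγg, ?_⟩
    have e : (⟨u * γ, mul_mem hu2 hγ⟩ : H) = ⟨u, hu2⟩ * ⟨γ, hγ⟩ := rfl
    rw [e, map_mul, hu3, one_mul, hγs]
  choose g gH gx gg gs using hrep
  let act : Q →* (E ≃ₐ[Cst p Ω] E) :=
    { toFun := fun s => Lev_resA (g s) (hpres (g s) (gH s) (gx s)) (gg s)
      map_one' := by
        ext f
        change g 1 (f : Ω) = f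
        have h := hkey (g 1) 1 (gH 1) (gx 1) (gg 1) (one_mem _) (one_mem _) (one_mem _) (by
          rw [gs]
          exact (map_one ρ).symm) f f.2
        rw [h]
        rfl
      map_mul' := by
        intro s r
        ext f
        change g (s * r) (f : Ω) = g s (g r (f : Ω))
        have h := hkey (g (s * r)) (g s * g r) (gH _) (gx _) (gg _) (mul_mem (gH s) (gH r))
          (mul_mem (gx s) (gx r)) (mul_mem (gg s) (gg r)) (by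
          have e : (⟨g s * g r, mul_mem (gH s) (gH r)⟩ : H) = ⟨g s, gH s⟩ * ⟨g r, gH r⟩ := rfl
          rw [gs, e, map_mul, gs, gs]
          rfl) f f.2
        rw [h]
        rfl }
  have hact : ∀ (s : Q) (f : E), ((act s f : E) : Ω) = g s (f : Ω) := fun s f => rfl
  have hact' : ∀ (γ : Ω ≃ₐ[ZMod p] Ω) (hγ : γ ∈ H) (_ : γ ∈ Gx p x') (_ : γ ∈ geo p Ω) (s : Q)
      (_ : ρ ⟨γ, hγ⟩ = s) (f : E), ((act s f : E) : Ω) = γ (f : Ω) := by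
    intro γ h1 h2 h3 s h4 f
    rw [hact]
    exact hkey _ _ (gH s) (gx s) (gg s) h1 h2 h3 (by rw [gs, h4]) f f.2
  obtain ⟨φE, hφE, hfrob⟩ := hFrbK p Ω x' N'.stage E hE a ha φ hφx hfr
    (fun f hf => (hpres φ hφ hφx f).1 hf)
    (fun f hf => (hpres φ⁻¹ (inv_mem hφ) (inv_mem hφx) f).1 hf)
  have hmu : ∀ ζ : Ω, ζ ^ ℓ = 1 → φ ζ = ζ := fun ζ hζ => N.mu ζ hζ φ hφ
  obtain ⟨-, htr, hsep⟩ := (hLvl p Ω x' N'.stage).1 E hE
  refine ⟨E, hE, act, φE, hFx, hmem, ?_, hφE, ?_⟩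
  · intro γ hγ hγx hγg f
    exact hact' γ hγ hγx hγg _ rfl f
  refine
    { inj := ?_
      pgp := hP.to_subgroup Q
      frob := hfrob
      comm := ?_
      tr := htr
      sep := hsep
      actX := ?_
      frobX := ?_
      mu := ?_
      neu := ?_
      rot := ?_ }
  · -- the action is faithful
    rw [injective_iff_map_eq_one]
    intro s hs1
    have h1 : g s ∈ Fx p (E : Set Ω) := by
      rw [mem_Fx]
      intro f hf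
      have h2 := hact s ⟨f, hf⟩
      rw [hs1] at h2
      exact h2.symm
    rw [hFx] at h1
    obtain ⟨⟨_, h3, h4⟩, _⟩ := h1
    have h5 : ρ ⟨g s, h3⟩ = s := gs s
    rw [h4] at h5
    exact Subtype.ext h5.symm
  · -- compatibility with `φ`
    intro s f
    apply Subtype.ext
    rw [hφE, hact]
    have h1 : φ * g s * φ⁻¹ ∈ H := mul_mem (mul_mem hφ (gH s)) (inv_mem hφ)
    have h2 := hact' (φ * g s * φ⁻¹) h1 (mul_mem (mul_mem hφx (gx s)) (inv_mem hφx))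
      (Lev_geo φ (gg s)) (cj s) (by
        have e : (⟨φ * g s * φ⁻¹, h1⟩ : H) = ⟨φ, hφ⟩ * ⟨g s, gH s⟩ * (⟨φ, hφ⟩ : H)⁻¹ := rfl
        rw [e, map_mul, map_mul, map_inv, gs, hcj]) (φE f)
    rw [h2, hφE]
    have h3 : (φ⁻¹ : Ω ≃ₐ[ZMod p] Ω) (φ (f : Ω)) = f := φ.symm_apply_apply _
    change φ (g s (f : Ω)) = φ (g s ((φ⁻¹ : Ω ≃ₐ[ZMod p] Ω) (φ (f : Ω))))
    rw [h3]
  · intro s
    apply Subtype.ext
    rw [hact]
    exact mem_Gx.1 (gx s)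
  · apply Subtype.ext
    rw [hφE]
    exact mem_Gx.1 hφx
  · intro ζ hζ
    have h1 : ((ζ : Cst p Ω) : Ω) ^ ℓ = 1 := by
      rw [← SubmonoidClass.coe_pow, hζ]
      rfl
    have h2 := hmu _ h1
    rw [hfr _ ζ.2] at h2
    exact Subtype.ext h2
  · -- no inertia at the bad places
    intro v hv s hvs
    obtain ⟨V, hV, hVv⟩ := hAbv p Ω x' N'.stage E hE v
    obtain ⟨v₁, hv₁, hv₁', hv₁''⟩ := hBel p Ω x' N'.stage E hE V hV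
    have hvv : v = v₁ := hv₁' v hVv
    subst hvv
    have hBadV : BadV ℓ x' V := by
      rcases hv with hB | ⟨m, hm, hmℓ, hB⟩
      · exact Or.inl ((hv₁'' _).1 hB)
      · exact Or.inr ⟨m, hm, hmℓ, (hv₁'' _).1 hB⟩
    -- `V' = V.comap (g s)`
    let V' : ValuationSubring Ω := V.comap ((g s : Ω ≃ₐ[ZMod p] Ω) : Ω →+* Ω)
    have hV'mem : ∀ f : Ω, f ∈ V' ↔ g s f ∈ V := fun f => Iff.rfl
    have hV' : V' ≠ ⊤ := by
      intro h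
      apply hV
      rw [eq_top_iff]
      intro f _
      have h1 : (g s)⁻¹ f ∈ V' := by rw [h]; trivial
      rw [hV'mem] at h1
      have h2 : g s ((g s)⁻¹ f) = f := (g s).apply_symm_apply f
      rwa [h2] at h1
    obtain ⟨δ, hδ, hδV⟩ := hConj p Ω x' N'.stage E hE V V' hV hV' (by
      intro f hf
      rw [hV'mem]
      have h1 := hVv ⟨f, hf⟩
      have h2 := hVv (act s ⟨f, hf⟩)
      rw [hact] at h2
      change 0 ≤ v.ord ⟨f, hf⟩ ↔ f ∈ V at h1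
      change 0 ≤ v.ord (act s ⟨f, hf⟩) ↔ g s f ∈ V at h2
      rw [← h1, ← h2]
      have h3 : (v.comap ((act s : E ≃ₐ[Cst p Ω] E) : E ≃+* E)).ord ⟨f, hf⟩ =
          v.ord (act s ⟨f, hf⟩) := rfl
      rw [← h3, hvs])
    rw [hFx] at hδ
    have hδ' := hδ
    obtain ⟨⟨hδg, hδH, hδρ⟩, hδx⟩ := hδ'
    have h1 : g s * δ ∈ H ⊓ Gx p x' := ⟨mul_mem (gH s) hδH, mul_mem (gx s) hδx⟩
    have h2 : g s * δ ∈ Inert p V := by
      refine ⟨mul_mem (gg s) hδg, ?_⟩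
      intro f
      exact hδV f
    have h3 := N'.neu V hV hBadV ⟨g s * δ, h1⟩ h2
    rw [rst_apply] at h3
    have e : (⟨g s * δ, h1.1⟩ : H) = ⟨g s, gH s⟩ * ⟨δ, hδH⟩ := rfl
    rw [e, map_mul, gs, hδρ, mul_one] at h3
    exact Subtype.ext h3
  · -- rotations
    intro ζ hζ
    have hζ' : ((ζ : Cst p Ω) : Ω) ^ ℓ = 1 := by
      rw [← SubmonoidClass.coe_pow, hζ]
      rfl
    have hζ0 : ((ζ : Cst p Ω) : Ω) ≠ 0 := by
      intro h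
      rw [h, zero_pow hℓ0.ne'] at hζ'
      exact zero_ne_one hζ'
    obtain ⟨σ, ⟨hσg, hσH, hσρ⟩, hσx⟩ := hr _ hζ'
    have hσx' : σ⁻¹ x' = ((ζ : Cst p Ω) : Ω)⁻¹ * x' := by
      have h1 : σ (((ζ : Cst p Ω) : Ω)⁻¹ * x') = x' := by
        rw [map_mul, map_inv₀, hσg _ ζ.2, hσx, inv_mul_cancel_left₀ hζ0]
      have h2 : σ⁻¹ (σ (((ζ : Cst p Ω) : Ω)⁻¹ * x')) = ((ζ : Cst p Ω) : Ω)⁻¹ * x' :=
        σ.symm_apply_apply _
      rw [h1] at h2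
      exact h2
    have hσi : σ⁻¹ ∈ geo p Ω := inv_mem hσg
    -- commutators of `σ` with elements fixing `x'` and `ζ`
    have hcx : ∀ τ : Ω ≃ₐ[ZMod p] Ω, τ ∈ Gx p x' → τ ((ζ : Cst p Ω) : Ω) = ζ →
        (σ * τ * σ⁻¹) x' = x' := by
      intro τ h1 h2
      change σ (τ (σ⁻¹ x')) = x'
      rw [hσx', map_mul, map_inv₀, h2, mem_Gx.1 h1, ← hσx']
      exact σ.apply_symm_apply x'
    have hgeoζ : ∀ τ ∈ geo p Ω, τ ((ζ : Cst p Ω) : Ω) = ζ := fun τ h => h _ ζ.2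
    -- `σ` preserves `E`
    have hσE : ∀ f, f ∈ E ↔ σ f ∈ E := by
      apply hnorm
      intro h
      constructor
      · intro hh
        refine Subgroup.mem_inf.2 ⟨Lev_gker ρ hσH hh.1, ?_⟩
        rw [mem_Gx]
        exact hcx h hh.2 (hgeoζ h hh.1.1)
      · intro hh
        have h1 : σ⁻¹ * (σ * h * σ⁻¹) * σ⁻¹⁻¹ ∈ gker ρ := Lev_gker ρ (inv_mem hσH) hh.1
        have h2 : σ⁻¹ * (σ * h * σ⁻¹) * σ⁻¹⁻¹ = h := by group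
        rw [h2] at h1
        refine Subgroup.mem_inf.2 ⟨h1, ?_⟩
        rw [mem_Gx]
        have h3 : (σ * h * σ⁻¹) x' = x' := mem_Gx.1 hh.2
        change σ (h (σ⁻¹ x')) = x' at h3
        rw [hσx', map_mul, map_inv₀, hgeoζ h h1.1, map_mul, map_inv₀, hgeoζ σ hσg] at h3
        have h4 : σ (h x') = ((ζ : Cst p Ω) : Ω) * x' :=
          calc σ (h x') = ((ζ : Cst p Ω) : Ω) * (((ζ : Cst p Ω) : Ω)⁻¹ * σ (h x')) :=
                (mul_inv_cancel_left₀ hζ0 _).symm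
            _ = ((ζ : Cst p Ω) : Ω) * x' := by rw [h3]
        rw [← hσx] at h4
        exact σ.injective h4
    -- the commutator is in the kernel
    have hck : ∀ τ : Ω ≃ₐ[ZMod p] Ω, τ ∈ H → τ ∈ Gx p x' → τ ((ζ : Cst p Ω) : Ω) = ζ →
        σ * τ * σ⁻¹ * τ⁻¹ ∈ gker ρ ⊓ Gx p x' := by
      intro τ h1 h2 h3
      refine Subgroup.mem_inf.2 ⟨?_, ?_⟩
      · have h4 : σ * τ * σ⁻¹ * τ⁻¹ = σ * (τ * σ⁻¹ * τ⁻¹) := by group
        rw [h4]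
        exact mul_mem ⟨hσg, hσH, hσρ⟩ (Lev_gker ρ h1 (inv_mem ⟨hσg, hσH, hσρ⟩))
      · exact mul_mem (mem_Gx.2 (hcx τ h2 h3)) (inv_mem h2)
    refine ⟨Lev_resA σ hσE hσg, ?_, ?_, ?_⟩
    · apply Subtype.ext
      exact hσx
    · intro s f
      apply Subtype.ext
      rw [hact]
      change σ (g s (f : Ω)) = g s (σ (f : Ω))
      exact hcomm σ (g s) hσE (hpres _ (gH s) (gx s)) (hck _ (gH s) (gx s) (hgeoζ _ (gg s))) f f.2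
    · intro f
      apply Subtype.ext
      rw [hφE]
      change σ ((φE f : E) : Ω) = φ (σ (f : Ω))
      rw [hφE]
      exact hcomm σ φ hσE (hpres φ hφ hφx) (hck φ hφ hφx (hmu _ hζ')) f f.2

end MP7Z
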