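import Pool.Agent.Lib.MP_7f581e_Z.CS.Spec

/-!
# NE: the norm step
-/

set_option autoImplicit false

namespace MP7Z

section

variable {𝕜 E Q : Type} [Field 𝕜] [Field E] [Algebra 𝕜 E] [Group Q]

theorem NE_sep {x : E} (hs : Algebra.IsSeparable (IntermediateField.adjoin 𝕜 {x}) E)
    (K : IntermediateField 𝕜 E) (hK : x ∈ K) :
    Algebra.IsSeparable (IntermediateField.adjoin 𝕜 {(⟨x, hK⟩ : K)}) K := by
  set L := IntermediateField.adjoin 𝕜 {(⟨x, hK⟩ : K)} with hL
  let φ : L →ₐ[𝕜] E := K.val.comp L.val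
  have hle : IntermediateField.adjoin 𝕜 {x} ≤ φ.fieldRange := by
    rw [IntermediateField.adjoin_le_iff, Set.singleton_subset_iff]
    exact ⟨⟨⟨x, hK⟩, IntermediateField.mem_adjoin_simple_self _ _⟩, rfl⟩
  let j : IntermediateField.adjoin 𝕜 {x} →ₐ[𝕜] L :=
    (AlgEquiv.ofInjectiveField φ).symm.toAlgHom.comp (IntermediateField.inclusion hle)
  have hj : ∀ z, φ (j z) = (z : E) := by
    intro z
    have h1 : AlgEquiv.ofInjectiveField φ ((AlgEquiv.ofInjectiveField φ).symm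
      (IntermediateField.inclusion hle z)) = IntermediateField.inclusion hle z :=
      AlgEquiv.apply_symm_apply _ _
    exact congrArg Subtype.val h1
  let i1 : Algebra (IntermediateField.adjoin 𝕜 {x}) L := j.toRingHom.toAlgebra
  have h1 : IsScalarTower (IntermediateField.adjoin 𝕜 {x}) L E :=
    IsScalarTower.of_algebraMap_eq fun z => (hj z).symm
  have h2 : IsScalarTower L K E := IsScalarTower.of_algebraMap_eq fun z => rfl
  have h3 : Algebra.IsSeparable L E :=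
    Algebra.isSeparable_tower_top_of_isSeparable (IntermediateField.adjoin 𝕜 {x}) L E
  exact Algebra.isSeparable_tower_bot_of_isSeparable L K E

/-- The restriction of `φ` to the fixed field. -/
noncomputable def NE_res (act : Q →* (E ≃ₐ[𝕜] E)) (cj : Q ≃* Q) (φ : E ≃+* E)
    (h : ∀ s f, φ (act s f) = act (cj s) (φ f)) : fxd act ≃+* fxd act where
  toFun f := ⟨φ (f : E), mem_fxd.2 fun s => by
    have h1 := h (cj.symm s) (f : E)
    rw [mem_fxd.1 f.2, MulEquiv.apply_symm_apply] at h1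
    exact h1.symm⟩
  invFun f := ⟨φ.symm (f : E), mem_fxd.2 fun s => by
    apply φ.injective
    rw [h, RingEquiv.apply_symm_apply]
    exact mem_fxd.1 f.2 _⟩
  left_inv f := Subtype.ext (φ.symm_apply_apply _)
  right_inv f := Subtype.ext (φ.apply_symm_apply _)
  map_mul' a b := Subtype.ext (map_mul φ _ _)
  map_add' a b := Subtype.ext (map_add φ _ _)

theorem NE_res_apply (act : Q →* (E ≃ₐ[𝕜] E)) (cj : Q ≃* Q) (φ : E ≃+* E)
    (h : ∀ s f, φ (act s f) = act (cj s) (φ f)) (f : fxd act) :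
    ((NE_res act cj φ h f : fxd act) : E) = φ f := rfl

theorem NE_res_pow (act : Q →* (E ≃ₐ[𝕜] E)) (cj : Q ≃* Q) (φ : E ≃+* E)
    (h : ∀ s f, φ (act s f) = act (cj s) (φ f)) (n : ℕ) (f : fxd act) :
    (((NE_res act cj φ h ^ n) f : fxd act) : E) = (φ ^ n) (f : E) := by
  induction n generalizing f with
  | zero => rfl
  | succ n ih =>
    rw [pow_succ, pow_succ, RingAut.mul_apply, RingAut.mul_apply, ih, NE_res_apply]

theorem NE_tr {X : E} (K : IntermediateField 𝕜 E) (hK : X ∈ K) (h : Transcendental 𝕜 X) :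
    Transcendental 𝕜 (⟨X, hK⟩ : K) := fun h1 => h (h1.algebraMap (A := E))

theorem NE_frob [IsAlgClosed 𝕜] {ℓ q : ℕ} {act : Q →* (E ≃ₐ[𝕜] E)} {cj : Q ≃* Q}
    {φ : E ≃+* E} {X : E} (H : CSD 𝕜 E ℓ q act cj φ X) :
    IsFrob 𝕜 q (NE_res act cj φ H.comm) where
  primePow := H.frob.primePow
  card := H.frob.card
  frob c := Subtype.ext (H.frob.frob c)
  fin f := by
    obtain ⟨n, hn, h⟩ := H.frob.fin (f : E)
    exact ⟨n, hn, Subtype.ext (by rw [NE_res_pow, h])⟩
  sep := ⟨⟨X, mem_fxd.2 H.actX⟩, Subtype.ext H.frobX, NE_tr _ _ H.tr, NE_sep H.sep _ _⟩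

end

theorem NE_pow_apply {F : Type} [Field F] (ψ : F ≃+* F) (a b : ℕ) (x : F) :
    (ψ ^ (a + b)) x = (ψ ^ a) ((ψ ^ b) x) := by
  rw [pow_add, RingAut.mul_apply]

theorem NE_prod_fix {F : Type} [Field F] (ψ : F ≃+* F) (m : ℕ) {x : F} (hx : x ≠ 0)
    (h : (ψ ^ m) x = x) :
    ψ (∏ i ∈ Finset.range m, (ψ ^ i) x) = ∏ i ∈ Finset.range m, (ψ ^ i) x := by
  have h1 := Finset.prod_range_succ' (fun i => (ψ ^ i) x) m
  have h2 := Finset.prod_range_succ (fun i => (ψ ^ i) x) m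
  rw [h1, h] at h2
  have h3 : (ψ ^ 0) x = x := rfl
  rw [h3] at h2
  have h4 := mul_right_cancel₀ hx h2
  rw [map_prod, ← h4]
  exact Finset.prod_congr rfl fun k _ => by rw [pow_succ', RingAut.mul_apply]

theorem NE_pow_mul {F : Type} [Field F] (ψ : F ≃+* F) (m n : ℕ) {x : F}
    (h : (ψ ^ m) x = x) : (ψ ^ (m * n)) x = x := by
  induction n with
  | zero => rfl
  | succ n ih => rw [Nat.mul_succ, NE_pow_apply, h, ih]

theorem NE_prod_mul {F : Type} [Field F] (ψ : F ≃+* F) (m n : ℕ) {x : F}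
    (h : (ψ ^ m) x = x) :
    ∏ i ∈ Finset.range (m * n), (ψ ^ i) x = (∏ i ∈ Finset.range m, (ψ ^ i) x) ^ n := by
  induction n with
  | zero => simp
  | succ n ih =>
    rw [Nat.mul_succ, Finset.prod_range_add, ih, pow_succ]
    congr 1
    exact Finset.prod_congr rfl fun k _ => by rw [add_comm, NE_pow_apply, NE_pow_mul ψ m n h]

theorem NE_bad {𝕜 E Q : Type} [Field 𝕜] [IsAlgClosed 𝕜] [Field E] [Algebra 𝕜 E]
    [IsCurveField 𝕜 E] [Group Q] {act : Q →* (E ≃ₐ[𝕜] E)} [IsCurveField 𝕜 (fxd act)]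
    [Module.Finite (fxd act) E] {ℓ : ℕ} {X : fxd act} (w : Place 𝕜 E)
    (h : Bad ℓ X (w.res (fxd act))) : Bad ℓ (X : E) w := by
  have key : ∀ f : fxd act, 0 < (w.res (fxd act)).ord f → 0 < w.ord (f : E) := by
    intro f hf
    have h1 := w.ord_algebraMap_eq (E := fxd act) f
    have h2 : w.ord (f : E) = w.ram (fxd act) • (w.res (fxd act)).ord f := h1
    rw [h2]
    exact nsmul_pos hf (w.ram_pos (E := fxd act)).ne'
  rcases h with h | ⟨m, hm, hmc, h⟩
  · exact Or.inl (key _ h)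
  · exact Or.inr ⟨m, hm, hmc, key _ h⟩

theorem ctNE (hHN : HNStmt) (hNum : CStmtNum) (hH : CStmtH90c) (hFxd : CStmtFxd)
    (hTra : CStmtTra) : CStmtNE := by
  classical
  intro 𝕜 E Q _ _ _ _ _ _ _ ℓ q act cj φ X hℓ hℓ0 H d hd0 hdact hdbad
  obtain ⟨hcK, hfK, -, -, -⟩ := hFxd 𝕜 E Q act H.inj
  let φK : fxd act ≃+* fxd act := NE_res act cj φ H.comm
  let XK : fxd act := ⟨X, mem_fxd.2 H.actX⟩
  let dK : fxd act := ⟨d, mem_fxd.2 hdact⟩
  have hdK0 : dK ≠ 0 := fun h => hd0 (congrArg Subtype.val h)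
  have hFrK : IsFrob 𝕜 q φK := NE_frob H
  obtain ⟨m, hm, hmd⟩ := hFrK.fin dK
  have hq2 : 2 ≤ q := H.frob.primePow.two_le
  have hq : ℓ ∣ q - 1 := by
    have : NeZero (ℓ : 𝕜) := ⟨hℓ0⟩
    obtain ⟨ζ, hζ⟩ := HasEnoughRootsOfUnity.exists_primitiveRoot 𝕜 ℓ
    have h1 := H.mu ζ hζ.pow_eq_one
    apply hζ.dvd_of_pow_eq_one
    have h0 : ζ ≠ 0 := hζ.ne_zero hℓ.ne_zero
    apply mul_left_cancel₀ h0
    rw [← pow_succ', Nat.sub_add_cancel (by omega), h1, mul_one]
  have htrK : Transcendental 𝕜 XK := NE_tr _ _ H.tr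
  have hφXK : φK XK = XK := Subtype.ext H.frobX
  obtain ⟨-, hram, hover⟩ := hTra 𝕜 E Q act H.inj
  have hbadK : ∀ u : Place 𝕜 (fxd act), Bad ℓ XK u → (ℓ : ℤ) ∣ u.pord dK := by
    intro u hu
    obtain ⟨w, rfl⟩ := hover u
    have hw : Bad ℓ X w := NE_bad w hu
    have h1 := hram w (fun s hs => H.neu w hw s hs)
    have h2 := w.pord_algebraMap_eq (E := fxd act) dK
    rw [h1, Nat.cast_one, one_mul] at h2
    rw [← h2]
    exact hdbad w hw
  obtain ⟨j₀, hj₀⟩ := hNum 𝕜 (fxd act) ℓ q φK XK dK m hℓ hq hFrK htrK hφXK hdK0 hm hmd hbadK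
  refine ⟨j₀, fun j hj E' _ _ _ _ _ _ act' φ' X' H' hX' hφ' hact' => ?_⟩
  obtain ⟨hcK', hfK', -, -, -⟩ := hFxd 𝕜 E' Q act' H'.inj
  let φK' : fxd act' ≃+* fxd act' := NE_res act' cj φ' H'.comm
  have hFrK' : IsFrob 𝕜 q φK' := NE_frob H'
  let XK' : fxd act' := ⟨X', mem_fxd.2 H'.actX⟩
  let jK : fxd act →+* fxd act' :=
    { toFun := fun f => ⟨algebraMap E E' (f : E), mem_fxd.2 fun s => by
        rw [hact', mem_fxd.1 f.2]⟩
      map_one' := Subtype.ext (map_one (algebraMap E E'))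
      map_zero' := Subtype.ext (map_zero (algebraMap E E'))
      map_mul' := fun a b => Subtype.ext (map_mul (algebraMap E E') _ _)
      map_add' := fun a b => Subtype.ext (map_add (algebraMap E E') _ _) }
  let iA : Algebra (fxd act) (fxd act') := jK.toAlgebra
  have hjK : ∀ f : fxd act, ((algebraMap (fxd act) (fxd act') f : fxd act') : E') =
      algebraMap E E' (f : E) := fun _ => rfl
  have t1 : IsScalarTower 𝕜 (fxd act) (fxd act') := by
    refine IsScalarTower.of_algebraMap_eq fun c => Subtype.ext ?_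
    rw [hjK]
    exact IsScalarTower.algebraMap_apply 𝕜 E E' c
  have t2 : IsScalarTower (fxd act) E E' := IsScalarTower.of_algebraMap_eq fun c => rfl
  have t3 : IsScalarTower (fxd act) (fxd act') E' := IsScalarTower.of_algebraMap_eq fun c => rfl
  have f1 : Module.Finite (fxd act) E' := Module.Finite.trans E E'
  have f2 : Module.Finite (fxd act) (fxd act') :=
    Module.Finite.of_injective (IsScalarTower.toAlgHom (fxd act) (fxd act') E').toLinearMap
      (algebraMap (fxd act') E').injective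
  have hφφ : ∀ f : fxd act, φK' (algebraMap (fxd act) (fxd act') f) =
      algebraMap (fxd act) (fxd act') (φK f) := fun f => Subtype.ext (hφ' (f : E))
  have hφφn : ∀ (n : ℕ) (f : fxd act), (φK' ^ n) (algebraMap (fxd act) (fxd act') f) =
      algebraMap (fxd act) (fxd act') ((φK ^ n) f) := by
    intro n
    induction n with
    | zero => exact fun f => rfl
    | succ n ih =>
      intro f
      rw [pow_succ, pow_succ, RingAut.mul_apply, RingAut.mul_apply, hφφ, ih]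
  have hloc := hj₀ j hj (fxd act') φK' XK' hφφ hFrK'.frob (Subtype.ext (by
    rw [hjK]
    exact hX')) (Subtype.ext H'.frobX)
  set dK' : fxd act' := algebraMap (fxd act) (fxd act') dK with hdK'
  set N : fxd act' := algebraMap (fxd act) (fxd act') (∏ i ∈ Finset.range m, (φK ^ i) dK) with hN
  have hinjA : Function.Injective (algebraMap (fxd act) (fxd act')) :=
    (algebraMap (fxd act) (fxd act')).injective
  have hdK'0 : dK' ≠ 0 := (map_ne_zero_iff _ hinjA).2 hdK0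
  have hNprod : N = ∏ i ∈ Finset.range m, (φK' ^ i) dK' := by
    rw [hN, map_prod]
    exact Finset.prod_congr rfl fun i _ => (hφφn i dK).symm
  have hdK'm : (φK' ^ m) dK' = dK' := by rw [hdK', hφφn, hmd]
  have hN0 : N ≠ 0 := by
    rw [hNprod]
    exact Finset.prod_ne_zero_iff.2 fun i _ =>
      (map_ne_zero_iff (φK' ^ i) (φK' ^ i).injective).2 hdK'0
  have hφN : φK' N = N := by
    rw [hNprod]
    exact NE_prod_fix φK' m hdK'0 hdK'm
  have hM : 0 < m * ℓ := Nat.mul_pos hm hℓ.pos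
  obtain ⟨t, htM, htN⟩ := hHN 𝕜 (fxd act') q φK' hFrK' (m * ℓ) hM N hN0 hφN hloc
  have ht0 : t ≠ 0 := by
    rintro rfl
    apply hN0
    rw [← htN]
    exact Finset.prod_eq_zero (Finset.mem_range.2 hM) (map_zero _)
  have htl0 : t ^ ℓ ≠ 0 := pow_ne_zero _ ht0
  -- the element `b` of norm one
  have hbM : (φK' ^ (m * ℓ)) (dK' / t ^ ℓ) = dK' / t ^ ℓ := by
    rw [map_div₀, map_pow, htM, NE_pow_mul φK' m ℓ hdK'm]
  have hbprod : ∏ i ∈ Finset.range (m * ℓ), (φK' ^ i) (dK' / t ^ ℓ) = 1 := by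
    have h1 : ∀ i ∈ Finset.range (m * ℓ), (φK' ^ i) (dK' / t ^ ℓ) =
        (φK' ^ i) dK' / ((φK' ^ i) t) ^ ℓ := fun i _ => by rw [map_div₀, map_pow]
    rw [Finset.prod_congr rfl h1, Finset.prod_div_distrib, Finset.prod_pow, htN,
      NE_prod_mul φK' m ℓ hdK'm, ← hNprod]
    exact div_self (pow_ne_zero _ hN0)
  -- the element `θ`
  set R : ℕ := q ^ (m * ℓ) - 1 with hR
  have hqM : 2 ≤ q ^ (m * ℓ) := le_trans hq2 (Nat.le_self_pow hM.ne' q)
  have hR0 : (R : 𝕜) ≠ 0 := by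
    have h1 : (R : 𝕜) + 1 = 0 := by
      have h2 : R + 1 = q ^ (m * ℓ) := by omega
      have h3 : ((R + 1 : ℕ) : 𝕜) = 0 := by
        rw [h2, Nat.cast_pow, H.frob.card, zero_pow hM.ne']
      rw [← h3]
      push_cast
      rfl
    intro h2
    rw [h2, zero_add] at h1
    exact one_ne_zero h1
  obtain ⟨θ, hθ⟩ : ∃ θ : 𝕜, IsPrimitiveRoot θ R := by
    have : NeZero (R : 𝕜) := ⟨hR0⟩
    exact HasEnoughRootsOfUnity.exists_primitiveRoot 𝕜 R
  have hθ0 : θ ≠ 0 := hθ.ne_zero (by omega)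
  have hφθ : ∀ i : ℕ, (φK' ^ i) (algebraMap 𝕜 (fxd act') θ) =
      algebraMap 𝕜 (fxd act') (θ ^ (q ^ i)) := by
    intro i
    induction i with
    | zero => rw [pow_zero, pow_zero, pow_one]; rfl
    | succ i ih =>
      rw [pow_succ', RingAut.mul_apply, ih, hFrK'.frob, ← pow_mul, ← pow_succ]
  obtain ⟨c, hc0, hcM, hc⟩ := hH (fxd act') φK' (m * ℓ) hM (algebraMap 𝕜 (fxd act') θ)
    (by
      rw [hφθ]
      congr 1
      have h1 : q ^ (m * ℓ) = R + 1 := by omega
      rw [h1, pow_succ, hθ.pow_eq_one, one_mul])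
    (by
      intro i hi0 hi h
      rw [hφθ] at h
      have h1 := (algebraMap 𝕜 (fxd act')).injective h
      have hqi : 2 ≤ q ^ i := le_trans hq2 (Nat.le_self_pow hi0.ne' q)
      have h2 : θ ^ (q ^ i - 1) = 1 := by
        apply mul_left_cancel₀ hθ0
        rw [← pow_succ', Nat.sub_add_cancel (by omega), h1, mul_one]
      have h3 := Nat.le_of_dvd (by omega) (hθ.dvd_of_pow_eq_one _ h2)
      have h4 : q ^ i < q ^ (m * ℓ) := Nat.pow_lt_pow_right (by omega) hi
      omega)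
    (dK' / t ^ ℓ) (div_ne_zero hdK'0 htl0) hbM hbprod
  refine ⟨(t : E'), (c : E'), fun h => ht0 (Subtype.ext h), fun h => hc0 (Subtype.ext h),
    mem_fxd.1 t.2, mem_fxd.1 c.2, ?_⟩
  have h5 : dK' * c = t ^ ℓ * φK' c := by
    rw [hc]
    field_simp
  exact congrArg Subtype.val h5

end MP7Z
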