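import Pool.Agent.Lib.MP_7f581e_Z.CS.SpecB

/-!
# Extension of a homomorphism from the geometric part
-/

set_option autoImplicit false

namespace MP7Z

section

variable {p : ℕ} [Fact p.Prime] {Ω : Type} [Field Ω] [Algebra (ZMod p) Ω]

theorem BExt_cst (g : Ω ≃ₐ[ZMod p] Ω) {c : Ω} (hc : c ∈ Cst p Ω) : g c ∈ Cst p Ω := by
  rw [mem_algebraicClosure_iff] at hc ⊢
  exact IsAlgebraic.algHom g.toAlgHom hc

theorem BExt_conj (g : Ω ≃ₐ[ZMod p] Ω) {v : Ω ≃ₐ[ZMod p] Ω} (hv : v ∈ geo p Ω) :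
    g * v * g⁻¹ ∈ geo p Ω := by
  intro c hc
  change g (v (g⁻¹ c)) = c
  rw [hv _ (BExt_cst g⁻¹ hc)]
  exact g.apply_symm_apply c

theorem BExt_frob {φ : Ω ≃ₐ[ZMod p] Ω} {a : ℕ} (h : ∀ c ∈ Cst p Ω, φ c = c ^ (p ^ a)) (i : ℕ) :
    ∀ c ∈ Cst p Ω, (φ ^ i) c = c ^ (p ^ (a * i)) := by
  induction i with
  | zero => intro c _; simp
  | succ i ih =>
    intro c hc
    rw [pow_succ]
    change (φ ^ i) (φ c) = _
    rw [h c hc, map_pow, ih c hc, ← pow_mul, ← pow_add, Nat.mul_succ]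

omit [Fact p.Prime] in
theorem BExt_dvd {a M j : ℕ} (ha : 0 < a) (hp : 1 < p)
    (h : p ^ (a * M) - 1 ∣ p ^ (a * j) - 1) : M ∣ j := by
  have h1 := Nat.gcd_eq_left h
  rw [Nat.pow_sub_one_gcd_pow_sub_one] at h1
  have h2 : p ^ (Nat.gcd (a * M) (a * j)) = p ^ (a * M) := by
    have h3 : 1 ≤ p ^ (Nat.gcd (a * M) (a * j)) := Nat.one_le_pow _ _ (by omega)
    have h4 : 1 ≤ p ^ (a * M) := Nat.one_le_pow _ _ (by omega)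
    omega
  have h3 := Nat.pow_right_injective hp h2
  have h4 : a * M ∣ a * j := by
    rw [← h3]
    exact Nat.gcd_dvd_right _ _
  exact Nat.dvd_of_mul_dvd_mul_left ha h4

variable {K : Subgroup (Ω ≃ₐ[ZMod p] Ω)} {P' : Type} [Group P']

open scoped Classical in
/-- The total version of a homomorphism. -/
noncomputable def BExt_tot (Ψ : K →* P') (u : Ω ≃ₐ[ZMod p] Ω) : P' :=
  if h : u ∈ K then Ψ ⟨u, h⟩ else 1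

theorem BExt_tot_eq (Ψ : K →* P') {u : Ω ≃ₐ[ZMod p] Ω} (h : u ∈ K) :
    BExt_tot Ψ u = Ψ ⟨u, h⟩ := dif_pos h

theorem BExt_tot_one (Ψ : K →* P') : BExt_tot Ψ 1 = 1 := by
  rw [BExt_tot_eq Ψ (one_mem K)]
  exact map_one Ψ

theorem BExt_tot_mul (Ψ : K →* P') {u v : Ω ≃ₐ[ZMod p] Ω} (hu : u ∈ K) (hv : v ∈ K) :
    BExt_tot Ψ (u * v) = BExt_tot Ψ u * BExt_tot Ψ v := by
  rw [BExt_tot_eq Ψ hu, BExt_tot_eq Ψ hv, BExt_tot_eq Ψ (mul_mem hu hv), ← map_mul]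
  rfl

end

section

variable {p : ℕ} [Fact p.Prime] {Ω : Type} [Field Ω] [Algebra (ZMod p) Ω]
variable {H : Subgroup (Ω ≃ₐ[ZMod p] Ω)} {P' : Type} [Group P']

theorem BExt_iter {φ : Ω ≃ₐ[ZMod p] Ω} (hφ : φ ∈ H)
    (Ψ : (H ⊓ geo p Ω : Subgroup (Ω ≃ₐ[ZMod p] Ω)) →* P') (e : P')
    (he : ∀ (u : Ω ≃ₐ[ZMod p] Ω) (hu : u ∈ H ⊓ geo p Ω) (hu' : φ * u * φ⁻¹ ∈ H ⊓ geo p Ω),
        Ψ ⟨φ * u * φ⁻¹, hu'⟩ = e * Ψ ⟨u, hu⟩ * e⁻¹) (k : ℕ) :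
    ∀ u ∈ H ⊓ geo p Ω, φ ^ k * u * (φ ^ k)⁻¹ ∈ H ⊓ geo p Ω ∧
      BExt_tot Ψ (φ ^ k * u * (φ ^ k)⁻¹) = e ^ k * BExt_tot Ψ u * (e ^ k)⁻¹ := by
  induction k with
  | zero =>
    intro u hu
    simpa using hu
  | succ k ih =>
    intro u hu
    obtain ⟨h1, h2⟩ := ih u hu
    have h3 : φ ^ (k + 1) * u * (φ ^ (k + 1))⁻¹ = φ * (φ ^ k * u * (φ ^ k)⁻¹) * φ⁻¹ := by
      rw [pow_succ']
      group
    have h4 : φ * (φ ^ k * u * (φ ^ k)⁻¹) * φ⁻¹ ∈ H ⊓ geo p Ω :=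
      ⟨H.mul_mem (H.mul_mem hφ h1.1) (H.inv_mem hφ), BExt_conj φ h1.2⟩
    rw [h3]
    refine ⟨h4, ?_⟩
    rw [BExt_tot_eq Ψ h4, he _ h1 h4, ← BExt_tot_eq Ψ h1, h2, pow_succ']
    group

theorem BExt_claim {φ : Ω ≃ₐ[ZMod p] Ω} (hφ : φ ∈ H)
    (Ψ : (H ⊓ geo p Ω : Subgroup (Ω ≃ₐ[ZMod p] Ω)) →* P') (e : P')
    (he : ∀ (u : Ω ≃ₐ[ZMod p] Ω) (hu : u ∈ H ⊓ geo p Ω) (hu' : φ * u * φ⁻¹ ∈ H ⊓ geo p Ω),
        Ψ ⟨φ * u * φ⁻¹, hu'⟩ = e * Ψ ⟨u, hu⟩ * e⁻¹) (S : Set Ω)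
    (hS : ∀ u ∈ H ⊓ geo p Ω, (∀ s ∈ S, u s = s) → BExt_tot Ψ u = 1) (M : ℕ)
    (hm : ∀ s ∈ S, ∀ k, M ∣ k → (φ ^ k) s = s) (heM : ∀ k, M ∣ k → e ^ k = 1) (θ : Ω)
    (hθc : θ ∈ Cst p Ω) (hθ : ∀ j, (φ ^ j) θ = θ → M ∣ j) {u u' : Ω ≃ₐ[ZMod p] Ω}
    (hu : u ∈ H ⊓ geo p Ω) (hu' : u' ∈ H ⊓ geo p Ω) {i i' : ℕ} (hii : i' ≤ i)
    (hT : ∀ s ∈ insert θ S, u ((φ ^ i) s) = u' ((φ ^ i') s)) :
    BExt_tot Ψ u * e ^ i = BExt_tot Ψ u' * e ^ i' := by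
  obtain ⟨j, rfl⟩ := Nat.exists_eq_add_of_le hii
  have hsplit : ∀ s : Ω, (φ ^ (i' + j)) s = (φ ^ i') ((φ ^ j) s) := by
    intro s
    rw [pow_add]
    rfl
  have hj : M ∣ j := by
    apply hθ
    have h1 := hT θ (Set.mem_insert _ _)
    rw [hu.2 _ (BExt_cst _ hθc), hu'.2 _ (BExt_cst _ hθc), hsplit] at h1
    exact (φ ^ i').injective h1
  have hS2 : ∀ s ∈ S, u ((φ ^ i') s) = u' ((φ ^ i') s) := by
    intro s hs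
    have h1 := hT s (Set.mem_insert_of_mem _ hs)
    rw [hsplit, hm s hs j hj] at h1
    exact h1
  have hv : u'⁻¹ * u ∈ H ⊓ geo p Ω := mul_mem (inv_mem hu') hu
  have hφi : φ ^ i' ∈ H := pow_mem hφ i'
  have hw : (φ ^ i')⁻¹ * (u'⁻¹ * u) * φ ^ i' ∈ H ⊓ geo p Ω := by
    refine ⟨H.mul_mem (H.mul_mem (H.inv_mem hφi) hv.1) hφi, ?_⟩
    have h1 := BExt_conj (φ ^ i')⁻¹ hv.2
    rwa [inv_inv] at h1
  have hw1 : BExt_tot Ψ ((φ ^ i')⁻¹ * (u'⁻¹ * u) * φ ^ i') = 1 := by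
    apply hS _ hw
    intro s hs
    change (φ ^ i').symm (u'.symm (u ((φ ^ i') s))) = s
    rw [hS2 s hs, AlgEquiv.symm_apply_apply, AlgEquiv.symm_apply_apply]
  have h2 := (BExt_iter hφ Ψ e he i' _ hw).2
  rw [hw1, mul_one, mul_inv_cancel] at h2
  have h3 : φ ^ i' * ((φ ^ i')⁻¹ * (u'⁻¹ * u) * φ ^ i') * (φ ^ i')⁻¹ = u'⁻¹ * u := by group
  rw [h3] at h2
  have h4 : u = u' * (u'⁻¹ * u) := by group
  have h5 : BExt_tot Ψ u = BExt_tot Ψ u' := by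
    conv_lhs => rw [h4]
    rw [BExt_tot_mul Ψ hu' hv, h2, mul_one]
  rw [h5, pow_add, heM j hj, mul_one]

end

/-- **BExt** -/
theorem ctBExt (hCst : CstStmt) (hFrb : FrbStmt) : CStmtBExt := by
  classical
  intro p _ Ω _ _ x hx H hH φ a ha hφa hDG P' _ _ Ψ hΨ e he
  have hp : 1 < p := (Fact.out : p.Prime).one_lt
  obtain ⟨S, hS⟩ := hΨ
  have hφH := hDG.1
  obtain ⟨m₀, hm₀, hm₀S⟩ := (hFrb p Ω x hx).2 φ (hH hφH) S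
  let M := m₀ * Nat.card P'
  have hM : 0 < M := Nat.mul_pos hm₀ Nat.card_pos
  have hM2 : ∀ s ∈ (S : Set Ω), ∀ k, M ∣ k → (φ ^ k) s = s := by
    rintro s hs k ⟨c, rfl⟩
    have h1 : ∀ n : ℕ, (φ ^ (m₀ * n)) s = s := by
      intro n
      induction n with
      | zero => simp
      | succ n ih =>
        rw [Nat.mul_succ, pow_add]
        change (φ ^ (m₀ * n)) ((φ ^ m₀) s) = s
        rw [hm₀S s hs, ih]
    have h2 : M * c = m₀ * (Nat.card P' * c) := by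
      change m₀ * Nat.card P' * c = _
      ring
    rw [h2]
    exact h1 _
  have heM : ∀ k, M ∣ k → e ^ k = 1 := by
    rintro k ⟨c, rfl⟩
    have h2 : M * c = Nat.card P' * (m₀ * c) := by
      change m₀ * Nat.card P' * c = _
      ring
    rw [h2, pow_mul, pow_card_eq_one', one_pow]
  -- the root of unity
  obtain ⟨θ, hθc, hθ⟩ : ∃ θ ∈ Cst p Ω, ∀ j, (φ ^ j) θ = θ → M ∣ j := by
    have := hCst p Ω x hx
    have hcp : CharP (Cst p Ω) p :=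
      charP_of_injective_algebraMap (algebraMap (ZMod p) (Cst p Ω)).injective p
    have h1 : 1 ≤ p ^ (a * M) := Nat.one_le_pow _ _ (by omega)
    have hn : ((p ^ (a * M) - 1 : ℕ) : Cst p Ω) ≠ 0 := by
      rw [Nat.cast_sub h1, Nat.cast_pow, CharP.cast_eq_zero, zero_pow (Nat.mul_pos ha hM).ne',
        zero_sub, Nat.cast_one]
      exact neg_ne_zero.2 one_ne_zero
    have : NeZero ((p ^ (a * M) - 1 : ℕ) : Cst p Ω) := ⟨hn⟩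
    obtain ⟨θ, hθ⟩ := HasEnoughRootsOfUnity.exists_primitiveRoot (Cst p Ω) (p ^ (a * M) - 1)
    refine ⟨θ, θ.2, fun j hj => ?_⟩
    rw [BExt_frob hφa j θ θ.2] at hj
    have h2 : θ ^ (p ^ (a * j)) = θ := Subtype.ext hj
    have hn0 : p ^ (a * M) - 1 ≠ 0 := by
      intro h0
      rw [h0, Nat.cast_zero] at hn
      exact hn rfl
    have hθ0 : θ ≠ 0 := hθ.isUnit hn0 |>.ne_zero
    have h3 : θ ^ (p ^ (a * j) - 1) = 1 := by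
      have h4 : 1 ≤ p ^ (a * j) := Nat.one_le_pow _ _ (by omega)
      apply mul_right_cancel₀ hθ0
      rw [← pow_succ, Nat.sub_add_cancel h4, h2, one_mul]
    exact BExt_dvd ha hp (hθ.dvd_of_pow_eq_one _ h3)
  have hSΨ : ∀ u ∈ H ⊓ geo p Ω, (∀ s ∈ (S : Set Ω), u s = s) → BExt_tot Ψ u = 1 := by
    intro u hu h
    rw [BExt_tot_eq Ψ hu]
    exact hS ⟨u, hu⟩ h
  have hclaim : ∀ (u u' : Ω ≃ₐ[ZMod p] Ω), u ∈ H ⊓ geo p Ω → u' ∈ H ⊓ geo p Ω → ∀ i i' : ℕ,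
      (∀ s ∈ insert θ S, u ((φ ^ i) s) = u' ((φ ^ i') s)) →
      BExt_tot Ψ u * e ^ i = BExt_tot Ψ u' * e ^ i' := by
    intro u u' hu hu' i i' h
    rcases le_total i' i with hii | hii
    · exact BExt_claim hφH Ψ e he S hSΨ M hM2 heM θ hθc hθ hu hu' hii
        (fun s hs => h s (by simpa using hs))
    · exact (BExt_claim hφH Ψ e he S hSΨ M hM2 heM θ hθc hθ hu' hu hii
        (fun s hs => (h s (by simpa using hs)).symm)).symm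
  have hex : ∀ γ : H, ∃ r : P', ∃ u ∈ H ⊓ geo p Ω, ∃ i : ℕ,
      (∀ s ∈ insert θ S, (γ : Ω ≃ₐ[ZMod p] Ω) s = u ((φ ^ i) s)) ∧ r = BExt_tot Ψ u * e ^ i := by
    intro γ
    obtain ⟨u, hu, hu', i, hi⟩ := hDG.2 γ γ.2 (insert θ S)
    exact ⟨_, u, ⟨hu, hu'⟩, i, hi, rfl⟩
  choose R hR using hex
  have hR' : ∀ (γ : H) (u : Ω ≃ₐ[ZMod p] Ω), u ∈ H ⊓ geo p Ω → ∀ i : ℕ,
      (∀ s ∈ insert θ S, (γ : Ω ≃ₐ[ZMod p] Ω) s = u ((φ ^ i) s)) →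
      R γ = BExt_tot Ψ u * e ^ i := by
    intro γ u hu i hi
    obtain ⟨u', hu', i', hi', hr⟩ := hR γ
    rw [hr]
    exact hclaim u' u hu' hu i' i fun s hs => by rw [← hi' s hs, hi s hs]
  have hmul : ∀ γ₁ γ₂ : H, R (γ₁ * γ₂) = R γ₁ * R γ₂ := by
    intro γ₁ γ₂
    obtain ⟨u₂, hu₂, hu₂', i₂, hi₂⟩ := hDG.2 γ₂ γ₂.2 (insert θ S)
    obtain ⟨u₁, hu₁, hu₁', i₁, hi₁⟩ := hDG.2 γ₁ γ₁.2
      (insert θ S ∪ (insert θ S).image fun s => u₂ ((φ ^ i₂) s))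
    have h1 := hR' γ₁ u₁ ⟨hu₁, hu₁'⟩ i₁ fun s hs => hi₁ s (Finset.mem_union_left _ hs)
    have h2 := hR' γ₂ u₂ ⟨hu₂, hu₂'⟩ i₂ hi₂
    obtain ⟨hc, hc'⟩ := BExt_iter hφH Ψ e he i₁ u₂ ⟨hu₂, hu₂'⟩
    have h3 := hR' (γ₁ * γ₂) (u₁ * (φ ^ i₁ * u₂ * (φ ^ i₁)⁻¹)) (mul_mem ⟨hu₁, hu₁'⟩ hc) (i₁ + i₂)
      (by
        intro s hs
        change (γ₁ : Ω ≃ₐ[ZMod p] Ω) ((γ₂ : Ω ≃ₐ[ZMod p] Ω) s) =
          u₁ ((φ ^ i₁) (u₂ ((φ ^ i₁).symm ((φ ^ (i₁ + i₂)) s))))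
        rw [hi₂ s hs, hi₁ _ (Finset.mem_union_right _ (Finset.mem_image_of_mem _ hs)), pow_add]
        change _ = u₁ ((φ ^ i₁) (u₂ ((φ ^ i₁).symm ((φ ^ i₁) ((φ ^ i₂) s)))))
        rw [AlgEquiv.symm_apply_apply])
    rw [h3, h1, h2, BExt_tot_mul Ψ ⟨hu₁, hu₁'⟩ hc, hc', pow_add]
    group
  refine ⟨MonoidHom.mk' R hmul, ⟨insert θ S, ?_⟩, ?_, ?_⟩
  · intro γ hγ
    have h1 := hR' γ 1 (one_mem _) 0 (fun s hs => by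
      rw [hγ s hs, pow_zero]
      rfl)
    change R γ = 1
    rw [h1, BExt_tot_one, pow_zero, mul_one]
  · intro u hu
    have h1 := hR' ⟨u, hu.1⟩ u hu 0 (fun s _ => by
      rw [pow_zero]
      rfl)
    change R ⟨u, hu.1⟩ = _
    rw [h1, pow_zero, mul_one, BExt_tot_eq Ψ hu]
  · intro hφ
    have h1 := hR' ⟨φ, hφ⟩ 1 (one_mem _) 1 (fun s _ => by
      rw [pow_one]
      rfl)
    change R ⟨φ, hφ⟩ = e
    rw [h1, pow_one, BExt_tot_one, one_mul]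

end MP7Z
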