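import Pool.Agent.Lib.MP_7f581e_Z.CS.SpecB

/-!
# An open subgroup of `Gx` is generated by a Frobenius lift and its geometric part
-/

set_option autoImplicit false

namespace MP7Z

section

open Polynomial

variable {p : ℕ} [Fact p.Prime] {Ω : Type} [Field Ω] [Algebra (ZMod p) Ω] {x : Ω}

theorem Den_cst (γ : Ω ≃ₐ[ZMod p] Ω) {c : Ω} (hc : c ∈ Cst p Ω) : γ c ∈ Cst p Ω := by
  rw [mem_algebraicClosure_iff] at hc ⊢
  exact IsAlgebraic.algHom γ.toAlgHom hc

theorem Den_charP : CharP Ω p :=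
  charP_of_injective_algebraMap (algebraMap (ZMod p) Ω).injective p

theorem Den_charP' : CharP (Cst p Ω) p :=
  charP_of_injective_algebraMap (algebraMap (ZMod p) (Cst p Ω)).injective p

theorem Den_trans (hx : IsStage p x) : Transcendental (Cst p Ω) x := fun h =>
  hx.transc (h.restrictScalars (ZMod p))

/-- The image of a polynomial under a Frobenius lift. -/
theorem Den_aeval [CharP (Cst p Ω) p] {φ : Ω ≃ₐ[ZMod p] Ω} (hφx : φ x = x)
    (hφ : ∀ c ∈ Cst p Ω, φ c = c ^ p) (b : (Cst p Ω)[X]) :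
    φ (aeval x b) = aeval x (b.map (frobenius (Cst p Ω) p)) := by
  induction b using Polynomial.induction_on' with
  | add f g hf hg => rw [map_add, map_add, hf, hg, Polynomial.map_add, map_add]
  | monomial n c =>
    rw [aeval_monomial, map_mul, map_pow, hφx, Polynomial.map_monomial, aeval_monomial]
    congr 1
    exact hφ c c.2

/-- A polynomial with Frobenius invariant coefficients has its value in `𝔽_p(x)`. -/
theorem Den_mem [CharP (Cst p Ω) p] {b : (Cst p Ω)[X]}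
    (hb : b.map (frobenius (Cst p Ω) p) = b) :
    aeval x b ∈ IntermediateField.adjoin (ZMod p) {x} := by
  have := Den_charP (p := p) (Ω := Ω)
  rw [aeval_eq_sum_range]
  refine sum_mem fun i _ => ?_
  rw [Algebra.smul_def]
  refine mul_mem ?_ (pow_mem (IntermediateField.subset_adjoin _ _ (Set.mem_singleton x)) _)
  have h1 : (b.coeff i) ^ p = b.coeff i := by
    conv_rhs => rw [← hb]
    rw [coeff_map, frobenius_def]
  have h2 : (algebraMap (Cst p Ω) Ω (b.coeff i)) ^ p = algebraMap (Cst p Ω) Ω (b.coeff i) := by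
    rw [← map_pow, h1]
  have h3 := (Subfield.mem_bot_iff_pow_eq_self Ω p).2 h2
  have h4 : (⊥ : Subfield Ω) ≤ (IntermediateField.adjoin (ZMod p) {x}).toSubfield := bot_le
  exact h4 h3

/-- STEP 0: an element of `𝔽(x)` fixed by a Frobenius lift is in `𝔽_p(x)`. -/
theorem Den_zero (hx : IsStage p x) {φ : Ω ≃ₐ[ZMod p] Ω} (hφx : φ x = x)
    (hφ : ∀ c ∈ Cst p Ω, φ c = c ^ p) {f : Ω}
    (hf : f ∈ IntermediateField.adjoin (Cst p Ω) {x}) (hff : φ f = f) :
    f ∈ IntermediateField.adjoin (ZMod p) {x} := by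
  classical
  have := Den_charP' (p := p) (Ω := Ω)
  have hinj := transcendental_iff_injective.1 (Den_trans hx)
  obtain ⟨r, s, hrs⟩ := (IntermediateField.mem_adjoin_simple_iff (Cst p Ω) f).1 hf
  by_cases hs : s = 0
  · rw [hs, map_zero, div_zero] at hrs
    rw [hrs]
    exact zero_mem _
  have hne : ∀ b : (Cst p Ω)[X], b ≠ 0 → aeval x b ≠ 0 := fun b hb h =>
    hb (hinj (by rw [h, map_zero]))
  have hP : ∃ n, ∃ b a : (Cst p Ω)[X], b ≠ 0 ∧ b.natDegree = n ∧
      f * aeval x b = aeval x a :=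
    ⟨_, s, r, hs, rfl, by rw [hrs]; exact div_mul_cancel₀ _ (hne s hs)⟩
  obtain ⟨b₀, a₀, hb₀, hbn, hba⟩ := Nat.find_spec hP
  have hmin : ∀ b' a' : (Cst p Ω)[X], b' ≠ 0 → f * aeval x b' = aeval x a' →
      b₀.natDegree ≤ b'.natDegree := by
    intro b' a' hb' h'
    rw [hbn]
    exact Nat.find_min' hP ⟨b', a', hb', rfl, h'⟩
  obtain ⟨b, a, hb, hbd, hfb⟩ : ∃ b a : (Cst p Ω)[X], b.Monic ∧ b.natDegree = b₀.natDegree ∧
      f * aeval x b = aeval x a := by
    refine ⟨b₀ * C (b₀.leadingCoeff⁻¹), a₀ * C (b₀.leadingCoeff⁻¹),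
      monic_mul_leadingCoeff_inv hb₀, natDegree_mul_leadingCoeff_inv _ hb₀, ?_⟩
    rw [map_mul, map_mul, ← mul_assoc, hba]
  have hfb' : f * aeval x (b.map (frobenius (Cst p Ω) p)) =
      aeval x (a.map (frobenius (Cst p Ω) p)) := by
    rw [← Den_aeval hφx hφ, ← Den_aeval hφx hφ, ← hfb, map_mul, hff]
  have hbb : b.map (frobenius (Cst p Ω) p) = b := by
    by_contra hcon
    have hd : b - b.map (frobenius (Cst p Ω) p) ≠ 0 := by
      rw [sub_ne_zero]
      exact fun h => hcon h.symm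
    have h1 : (b - b.map (frobenius (Cst p Ω) p)).natDegree < b.natDegree := by
      refine natDegree_lt_natDegree hd (degree_sub_lt_left ?_ hb.ne_zero ?_)
      · exact (hb.degree_map _).symm
      · rw [hb.leadingCoeff, (hb.map _).leadingCoeff]
    have h2 := hmin _ (a - a.map (frobenius (Cst p Ω) p)) hd (by
      rw [map_sub, map_sub, mul_sub, hfb, hfb'])
    omega
  have haa : a.map (frobenius (Cst p Ω) p) = a := by
    apply hinj
    rw [← hfb', hbb, hfb]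
  have h3 : f = aeval x a / aeval x b := by
    rw [← hfb, mul_div_cancel_right₀ _ (hne b hb.ne_zero)]
  rw [h3]
  exact div_mem (Den_mem haa) (Den_mem hbb)

theorem Den_geo_normal : (geo p Ω).Normal := by
  refine ⟨fun n hn g => ?_⟩
  intro c hc
  have h1 : g⁻¹ c ∈ Cst p Ω := Den_cst g⁻¹ hc
  change g (n (g⁻¹ c)) = c
  rw [hn _ h1]
  exact g.apply_symm_apply c

/-- Elements of `Gx` fix `𝔽_p(x)`. -/
theorem Den_fix {γ : Ω ≃ₐ[ZMod p] Ω} (h : γ ∈ Gx p x) :
    ∀ f ∈ IntermediateField.adjoin (ZMod p) {x}, γ f = f := by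
  intro f hf
  induction hf using IntermediateField.adjoin_induction with
  | mem y hy =>
    rw [Set.mem_singleton_iff.1 hy]
    exact mem_Gx.1 h
  | algebraMap c => exact γ.commutes c
  | add a b _ _ ha hb => rw [map_add, ha, hb]
  | inv a _ ha => rw [map_inv₀, ha]
  | mul a b _ _ ha hb => rw [map_mul, ha, hb]

/-- An element of `Gx` as an automorphism over `𝔽_p(x)`. -/
noncomputable def Den_up (γ : Ω ≃ₐ[ZMod p] Ω) (h : γ ∈ Gx p x) :
    Ω ≃ₐ[IntermediateField.adjoin (ZMod p) {x}] Ω :=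
  { γ with commutes' := fun f => Den_fix h f f.2 }

theorem Den_up_apply (γ : Ω ≃ₐ[ZMod p] Ω) (h : γ ∈ Gx p x) (f : Ω) : Den_up γ h f = γ f := rfl

/-- STEP 1, with an integer exponent. -/
theorem Den_dense (hx : IsStage p x) {φ : Ω ≃ₐ[ZMod p] Ω} (hφx : φ ∈ Gx p x)
    (hφ : ∀ c ∈ Cst p Ω, φ c = c ^ p) {γ : Ω ≃ₐ[ZMod p] Ω} (hγ : γ ∈ Gx p x) (S : Finset Ω) :
    ∃ u ∈ Gx p x, u ∈ geo p Ω ∧ ∃ i : ℤ, ∀ s ∈ S, γ s = u ((φ ^ i) s) := by
  classical
  have h1 := hx.sepClosed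
  have h2 := hx.sep
  have : IsSepClosure (IntermediateField.adjoin (ZMod p) {x}) Ω := ⟨h1, h2⟩
  have hgal : IsGalois (IntermediateField.adjoin (ZMod p) {x}) Ω := IsSepClosure.isGalois
  let R : (Ω ≃ₐ[IntermediateField.adjoin (ZMod p) {x}] Ω) →* (Ω ≃ₐ[ZMod p] Ω) :=
    AlgEquiv.restrictScalarsHom (ZMod p)
  have hR : ∀ (σ : Ω ≃ₐ[IntermediateField.adjoin (ZMod p) {x}] Ω) (f : Ω), R σ f = σ f :=
    fun σ f => rfl
  have hgn := Den_geo_normal (p := p) (Ω := Ω)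
  let N : Subgroup (Ω ≃ₐ[IntermediateField.adjoin (ZMod p) {x}] Ω) := (geo p Ω).comap R
  have hN : N.Normal := inferInstance
  let W := N ⊔ Subgroup.zpowers (Den_up φ hφx)
  have hxF : x ∈ IntermediateField.adjoin (ZMod p) {x} :=
    IntermediateField.subset_adjoin _ _ (Set.mem_singleton x)
  have hle : ∀ y ∈ IntermediateField.adjoin (ZMod p) {x},
      y ∈ IntermediateField.adjoin (Cst p Ω) {x} := by
    intro y hy
    have h3 : IntermediateField.adjoin (ZMod p) {x} ≤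
        (IntermediateField.adjoin (Cst p Ω) {x}).restrictScalars (ZMod p) := by
      rw [IntermediateField.adjoin_le_iff, Set.singleton_subset_iff]
      exact IntermediateField.subset_adjoin (Cst p Ω) _ (Set.mem_singleton x)
    exact h3 hy
  -- the fixed field of `W`
  have hfixed : IntermediateField.fixedField W.topologicalClosure = ⊥ := by
    rw [eq_bot_iff]
    intro f hf
    rw [IntermediateField.mem_fixedField_iff] at hf
    have hW : ∀ w ∈ W, w f = f := fun w hw => hf w (W.le_topologicalClosure hw)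
    let L₀ : IntermediateField (IntermediateField.adjoin (ZMod p) {x}) Ω :=
      IntermediateField.adjoin _ (Cst p Ω : Set Ω)
    have h3 : f ∈ L₀ := by
      rw [← InfiniteGalois.fixedField_fixingSubgroup L₀, IntermediateField.mem_fixedField_iff]
      intro σ hσ
      refine hW σ (le_sup_left (a := N) ?_)
      change R σ ∈ geo p Ω
      intro c hc
      exact (IntermediateField.mem_fixingSubgroup_iff L₀ σ).1 hσ c
        (IntermediateField.subset_adjoin _ _ hc)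
    have h4 : f ∈ IntermediateField.adjoin (Cst p Ω) {x} := by
      clear hW hf
      induction h3 using IntermediateField.adjoin_induction with
      | mem y hy => exact (IntermediateField.adjoin (Cst p Ω) {x}).algebraMap_mem ⟨y, hy⟩
      | algebraMap c => exact hle c c.2
      | add a b _ _ ha hb => exact add_mem ha hb
      | inv a _ ha => exact inv_mem ha
      | mul a b _ _ ha hb => exact mul_mem ha hb
    have h5 : φ f = f :=
      hW _ (le_sup_right (a := N) (Subgroup.mem_zpowers (Den_up φ hφx)))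
    have h6 := Den_zero hx (mem_Gx.1 hφx) hφ h4 h5
    rw [IntermediateField.mem_bot]
    exact ⟨⟨f, h6⟩, rfl⟩
  have htop : W.topologicalClosure = ⊤ := by
    have h3 := InfiniteGalois.fixingSubgroup_fixedField
      (⟨W.topologicalClosure, W.isClosed_topologicalClosure⟩ :
        ClosedSubgroup (Ω ≃ₐ[IntermediateField.adjoin (ZMod p) {x}] Ω))
    have h4 : (IntermediateField.fixedField W.topologicalClosure).fixingSubgroup =
      W.topologicalClosure := h3
    rw [← h4, hfixed, IntermediateField.fixingSubgroup_bot]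
  -- density
  let L : IntermediateField (IntermediateField.adjoin (ZMod p) {x}) Ω :=
    IntermediateField.adjoin _ (S : Set Ω)
  have hL : FiniteDimensional (IntermediateField.adjoin (ZMod p) {x}) L :=
    IntermediateField.finiteDimensional_adjoin fun s _ => Algebra.IsIntegral.isIntegral s
  have hopen : IsOpen ((fun σ => (Den_up γ hγ)⁻¹ * σ) ⁻¹'
      (L.fixingSubgroup : Set (Ω ≃ₐ[IntermediateField.adjoin (ZMod p) {x}] Ω))) :=
    (IntermediateField.fixingSubgroup_isOpen L).preimage (continuous_const_mul _)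
  have hmem : Den_up γ hγ ∈ closure (W : Set (Ω ≃ₐ[IntermediateField.adjoin (ZMod p) {x}] Ω)) := by
    have h3 : Den_up γ hγ ∈ W.topologicalClosure := by rw [htop]; exact Subgroup.mem_top _
    exact h3
  obtain ⟨w, hw1, hw2⟩ := mem_closure_iff.1 hmem _ hopen (by
    rw [Set.mem_preimage, inv_mul_cancel]
    exact one_mem _)
  have hw3 : ∀ s ∈ S, w s = γ s := by
    intro s hs
    have h3 := (IntermediateField.mem_fixingSubgroup_iff L _).1 hw1 s
      (IntermediateField.subset_adjoin _ _ hs)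
    have h4 : (Den_up γ hγ) (((Den_up γ hγ)⁻¹ * w) s) = w s :=
      (Den_up γ hγ).apply_symm_apply (w s)
    rw [h3] at h4
    exact h4.symm
  obtain ⟨n, hn, z, hz, hnz⟩ := (Subgroup.mem_sup_of_normal_left (s := N)).1 hw2
  obtain ⟨i, rfl⟩ := Subgroup.mem_zpowers_iff.1 hz
  refine ⟨R n, ?_, hn, i, ?_⟩
  · rw [mem_Gx, hR]
    exact n.commutes (⟨x, hxF⟩ : IntermediateField.adjoin (ZMod p) {x})
  · intro s hs
    rw [← hw3 s hs, ← hnz]
    have h3 : R ((Den_up φ hφx) ^ i) = φ ^ i := by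
      rw [map_zpow]
      rfl
    rw [← h3]
    rfl

/-- STEP 1. -/
theorem Den_dense' (hx : IsStage p x) {φ : Ω ≃ₐ[ZMod p] Ω} (hφx : φ ∈ Gx p x)
    (hφ : ∀ c ∈ Cst p Ω, φ c = c ^ p)
    (hfrb : ∀ S : Finset Ω, ∃ n : ℕ, 0 < n ∧ ∀ s ∈ S, (φ ^ n) s = s)
    {γ : Ω ≃ₐ[ZMod p] Ω} (hγ : γ ∈ Gx p x) (S : Finset Ω) :
    ∃ u ∈ Gx p x, u ∈ geo p Ω ∧ ∃ i : ℕ, ∀ s ∈ S, γ s = u ((φ ^ i) s) := by
  obtain ⟨u, hu, hu', i, hi⟩ := Den_dense hx hφx hφ hγ S
  obtain ⟨n, hn, hnS⟩ := hfrb S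
  refine ⟨u, hu, hu', (i + n * i.natAbs).toNat, fun s hs => ?_⟩
  rw [hi s hs]
  congr 1
  have h1 : (((i + n * i.natAbs).toNat : ℕ) : ℤ) = i + (n : ℤ) * (i.natAbs : ℤ) := by
    refine Int.toNat_of_nonneg ?_
    have h2 : (i.natAbs : ℤ) ≤ (n : ℤ) * (i.natAbs : ℤ) := by
      have h3 : (1 : ℤ) ≤ n := by exact_mod_cast hn
      nlinarith [Int.natCast_nonneg i.natAbs]
    have h4 : -(i.natAbs : ℤ) ≤ i := by omega
    linarith
  have h2 : φ ^ (i + n * i.natAbs).toNat = φ ^ i * (φ ^ n) ^ i.natAbs := by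
    rw [← zpow_natCast, h1, zpow_add, zpow_mul, zpow_natCast, zpow_natCast]
  have h3 : ((φ ^ n) ^ i.natAbs) s = s := by
    have h4 : φ ^ n ∈ Fx p (S : Set Ω) := fun a ha => hnS a ha
    exact mem_Fx.1 (pow_mem h4 i.natAbs) s hs
  rw [h2]
  change (φ ^ i) s = (φ ^ i) (((φ ^ n) ^ i.natAbs) s)
  rw [h3]

theorem Den_pow {φ : Ω ≃ₐ[ZMod p] Ω} {q : ℕ} (hφ : ∀ c ∈ Cst p Ω, φ c = c ^ q) (i : ℕ) :
    ∀ c ∈ Cst p Ω, (φ ^ i) c = c ^ (q ^ i) := by
  induction i with
  | zero =>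
    intro c _
    rw [pow_zero, pow_zero, pow_one]
    rfl
  | succ i ih =>
    intro c hc
    rw [pow_succ']
    change φ ((φ ^ i) c) = _
    rw [ih c hc, map_pow, hφ c hc, ← pow_mul, pow_succ, mul_comm]

end

theorem ctDen (hCst : CstStmt) (_hLvl : LvlStmt) (hFrb : FrbStmt) (_hGal : GalStmt) :
    CStmtDen := by
  classical
  intro p _ Ω _ _ x hx H hH ⟨S₀, hS₀⟩
  have hcl := hCst p Ω x hx
  obtain ⟨⟨φ₀, hφx, hφ⟩, hfrb⟩ := hFrb p Ω x hx
  obtain ⟨N, hN, hNS⟩ := hfrb φ₀ hφx S₀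
  have hex : ∃ a : ℕ, 0 < a ∧ ∃ φ ∈ H, ∀ c ∈ Cst p Ω, φ c = c ^ (p ^ a) :=
    ⟨N, hN, φ₀ ^ N, hS₀ _ (pow_mem hφx N) hNS, Den_pow hφ N⟩
  obtain ⟨ha, φ, hφH, hφc⟩ := Nat.find_spec hex
  have hmin := fun r => Nat.find_min hex (m := r)
  generalize Nat.find hex = a at ha hφc hmin
  refine ⟨φ, a, ha, hφc, hφH, ?_⟩
  intro γ hγ S
  obtain ⟨u₀, hu₀, hu₀g, i, hi⟩ := Den_dense' hx hφx hφ (hfrb φ₀ hφx) (hH hγ) (S ∪ S₀)
  have hwx : u₀ * φ₀ ^ i ∈ Gx p x := mul_mem hu₀ (pow_mem hφx i)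
  have hwH : u₀ * φ₀ ^ i ∈ H := by
    have h1 : γ⁻¹ * (u₀ * φ₀ ^ i) ∈ H := hS₀ _ (mul_mem (inv_mem (hH hγ)) hwx) fun s hs => by
      change γ.symm (u₀ ((φ₀ ^ i) s)) = s
      rw [← hi s (Finset.mem_union_right S hs)]
      exact γ.symm_apply_apply s
    have h2 := mul_mem hγ h1
    rwa [mul_inv_cancel_left] at h2
  have hwc : ∀ c ∈ Cst p Ω, (u₀ * φ₀ ^ i) c = c ^ (p ^ i) := by
    intro c hc
    change u₀ ((φ₀ ^ i) c) = _
    rw [Den_pow hφ i c hc]
    exact hu₀g _ (pow_mem hc _)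
  have hvH : u₀ * φ₀ ^ i * (φ ^ (i / a))⁻¹ ∈ H := mul_mem hwH (inv_mem (pow_mem hφH _))
  have hvc : ∀ c ∈ Cst p Ω, (u₀ * φ₀ ^ i * (φ ^ (i / a))⁻¹) c = c ^ (p ^ (i % a)) := by
    intro c hc
    obtain ⟨c', hc'⟩ := IsAlgClosed.exists_pow_nat_eq (⟨c, hc⟩ : Cst p Ω)
      (n := p ^ (a * (i / a))) (pow_pos (Fact.out : p.Prime).pos _)
    have h1 : (c' : Ω) ^ p ^ (a * (i / a)) = c := congrArg Subtype.val hc'
    have h2 : (φ ^ (i / a)) (c' : Ω) = c := by
      rw [Den_pow hφc _ _ c'.2, ← pow_mul, h1]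
    have h3 : (φ ^ (i / a))⁻¹ c = (c' : Ω) := by
      rw [← h2]
      exact (φ ^ (i / a)).symm_apply_apply _
    change (u₀ * φ₀ ^ i) ((φ ^ (i / a))⁻¹ c) = _
    rw [h3, hwc _ c'.2]
    conv_lhs => rw [← Nat.div_add_mod i a]
    rw [pow_add, pow_mul, h1]
  have hr : i % a = 0 := by
    by_contra hr
    exact hmin (i % a) (Nat.mod_lt _ ha) ⟨Nat.pos_of_ne_zero hr, _, hvH, hvc⟩
  refine ⟨u₀ * φ₀ ^ i * (φ ^ (i / a))⁻¹, hvH, ?_, i / a, ?_⟩
  · intro c hc
    rw [hvc c hc, hr, pow_zero, pow_one]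
  · intro s hs
    rw [hi s (Finset.mem_union_left _ hs)]
    change _ = (u₀ * φ₀ ^ i * (φ ^ (i / a))⁻¹ * φ ^ (i / a)) s
    rw [inv_mul_cancel_right]
    rfl

end MP7Z
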