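import Pool.Agent.Lib.MP_7f581e_Z.CS.Spec

/-!
# Ext: extension of a homomorphism from a normal subgroup with cyclic quotient
-/

set_option autoImplicit false

namespace MP7Z

theorem ctExt : CStmtExt := by
  classical
  intro G Y _ _ N hN g τ y hgen hconj hpow
  -- conjugation by all powers
  have hconj1 : ∀ (n : G) (hn : n ∈ N), y * τ ⟨n, hn⟩ * y⁻¹ = τ ⟨g * n * g⁻¹, hN.conj_mem n hn g⟩ :=
    fun n hn => hconj ⟨n, hn⟩
  have hconjN : ∀ (i : ℕ) (n : G) (hn : n ∈ N),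
      y ^ i * τ ⟨n, hn⟩ * (y ^ i)⁻¹ = τ ⟨g ^ i * n * (g ^ i)⁻¹, hN.conj_mem n hn _⟩ := by
    intro i
    induction i with
    | zero => intro n hn; simp
    | succ i ih =>
      intro n hn
      have e1 : y ^ (i + 1) * τ ⟨n, hn⟩ * (y ^ (i + 1))⁻¹
          = y * (y ^ i * τ ⟨n, hn⟩ * (y ^ i)⁻¹) * y⁻¹ := by
        rw [pow_succ']; group
      rw [e1, ih, hconj1]
      congr 1
      apply Subtype.ext
      change g * (g ^ i * n * (g ^ i)⁻¹) * g⁻¹ = g ^ (i + 1) * n * (g ^ (i + 1))⁻¹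
      rw [pow_succ']; group
  have hconjZ : ∀ (i : ℤ) (n : G) (hn : n ∈ N),
      y ^ i * τ ⟨n, hn⟩ * (y ^ i)⁻¹ = τ ⟨g ^ i * n * (g ^ i)⁻¹, hN.conj_mem n hn _⟩ := by
    intro i n hn
    obtain ⟨k, rfl | rfl⟩ := i.eq_nat_or_neg
    · simp only [zpow_natCast]
      exact hconjN k n hn
    · have h1 := hconjN k (g ^ (-(k : ℤ)) * n * (g ^ (-(k : ℤ)))⁻¹) (hN.conj_mem n hn _)
      have e2 : (⟨g ^ k * (g ^ (-(k : ℤ)) * n * (g ^ (-(k : ℤ)))⁻¹) * (g ^ k)⁻¹,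
          hN.conj_mem _ (hN.conj_mem n hn _) _⟩ : N) = ⟨n, hn⟩ := by
        apply Subtype.ext
        change g ^ k * (g ^ (-(k : ℤ)) * n * (g ^ (-(k : ℤ)))⁻¹) * (g ^ k)⁻¹ = n
        simp only [zpow_neg, zpow_natCast]
        group
      rw [e2] at h1
      rw [← h1]
      simp only [zpow_neg, zpow_natCast]
      group
  -- well defined
  have hwd : ∀ (n n' : G) (hn : n ∈ N) (hn' : n' ∈ N) (i i' : ℤ), n * g ^ i = n' * g ^ i' →
      τ ⟨n, hn⟩ * y ^ i = τ ⟨n', hn'⟩ * y ^ i' := by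
    intro n n' hn hn' i i' h
    have e1 : g ^ (i - i') = n⁻¹ * n' := by
      rw [zpow_sub]
      calc g ^ i * (g ^ i')⁻¹ = n⁻¹ * (n * g ^ i) * (g ^ i')⁻¹ := by group
        _ = n⁻¹ * (n' * g ^ i') * (g ^ i')⁻¹ := by rw [h]
        _ = n⁻¹ * n' := by group
    have hm : g ^ (i - i') ∈ N := by rw [e1]; exact N.mul_mem (N.inv_mem hn) hn'
    have h2 := hpow (i - i') hm
    have e3 : (⟨g ^ (i - i'), hm⟩ : N) = (⟨n, hn⟩ : N)⁻¹ * ⟨n', hn'⟩ := by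
      apply Subtype.ext
      exact e1
    rw [e3, map_mul, map_inv, zpow_sub] at h2
    calc τ ⟨n, hn⟩ * y ^ i = τ ⟨n, hn⟩ * (y ^ i * (y ^ i')⁻¹) * y ^ i' := by group
      _ = τ ⟨n, hn⟩ * ((τ ⟨n, hn⟩)⁻¹ * τ ⟨n', hn'⟩) * y ^ i' := by rw [h2]
      _ = _ := by group
  choose nn hnn ii hii using hgen
  let τ' : G →* Y := MonoidHom.mk' (fun γ => τ ⟨nn γ, hnn γ⟩ * y ^ ii γ) (by
    intro a b
    have h1 : nn (a * b) * g ^ ii (a * b)
        = (nn a * (g ^ ii a * nn b * (g ^ ii a)⁻¹)) * g ^ (ii a + ii b) := by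
      rw [← hii (a * b), zpow_add]
      conv_lhs => rw [hii a, hii b]
      group
    rw [hwd _ _ (hnn (a * b)) (N.mul_mem (hnn a) (hN.conj_mem _ (hnn b) _)) _ _ h1]
    have e2 : (⟨nn a * (g ^ ii a * nn b * (g ^ ii a)⁻¹),
        N.mul_mem (hnn a) (hN.conj_mem _ (hnn b) _)⟩ : N)
        = ⟨nn a, hnn a⟩ * ⟨g ^ ii a * nn b * (g ^ ii a)⁻¹, hN.conj_mem _ (hnn b) _⟩ := rfl
    rw [e2, map_mul, ← hconjZ (ii a) (nn b) (hnn b), zpow_add]
    group)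
  have hτ' : ∀ (n : G) (hn : n ∈ N) (i : ℤ), τ' (n * g ^ i) = τ ⟨n, hn⟩ * y ^ i := by
    intro n hn i
    exact hwd _ _ (hnn _) hn _ _ (hii (n * g ^ i)).symm
  refine ⟨τ', ?_, ?_⟩
  · rintro ⟨n, hn⟩
    have := hτ' n hn 0
    rw [zpow_zero, mul_one, zpow_zero, mul_one] at this
    exact this
  · have := hτ' 1 N.one_mem 1
    rw [zpow_one, one_mul, zpow_one] at this
    rw [this]
    have e : (⟨1, N.one_mem⟩ : N) = 1 := rfl
    rw [e, map_one, one_mul]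

end MP7Z
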