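import Pool.Agent.Lib.MP_7f581e_Z.CS.Spec

/-!
# FP: the field part of the central step (assembly)
-/

set_option autoImplicit false

namespace MP7Z

theorem FPM.finite_pord {𝕜 E : Type} [Field 𝕜] [IsAlgClosed 𝕜] [Field E] [Algebra 𝕜 E]
    [IsCurveField 𝕜 E] {f : E} (hf : f ≠ 0) : {v : Place 𝕜 E | v.pord f ≠ 0}.Finite := by
  refine (finite_ord_ne (𝕜 := 𝕜) hf).subset fun v hv h => hv ?_
  rw [v.ord_eq_pord hf] at h
  exact_mod_cast h

theorem FPM.bad_comap {𝕜 E : Type} [Field 𝕜] [IsAlgClosed 𝕜] [Field E] [Algebra 𝕜 E]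
    {ℓ : ℕ} {X : E} {φ : E ≃+* E} (hX : φ X = X) {v : Place 𝕜 E} (h : Bad ℓ X v) :
    Bad ℓ X (v.comap φ) := by
  rcases h with h | ⟨m, hm, hmc, h⟩
  · left
    rwa [Place.comap_ord, hX]
  · right
    refine ⟨m, hm, hmc, ?_⟩
    rwa [Place.comap_ord, map_sub, map_pow, map_one, hX]

theorem ctFP (h1 : CStmtTL) (h2 : CStmtFr) (h3 : CStmtPE) (h4 : CStmtNE) : CStmtFP := by
  classical
  intro 𝕜 E Q Q' _ _ _ _ _ _ _ _ ℓ q act cj φ X hℓ hℓ0 H f cj' hf hcen hfcj hcj' jj hjj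
  obtain ⟨t, ht0, htmul, htjj⟩ :=
    h1 𝕜 E X H.tr H.sep ℓ hℓ Q H.pgp act H.inj H.actX Q' f hf hcen jj
  have hker : ∀ a ∈ f.ker, t a ^ ℓ = 1 ∧ φ (t a) = t a := by
    intro a ha
    have e : t a = algebraMap 𝕜 E (jj ⟨a, ha⟩) := htjj ⟨a, ha⟩
    have e2 : ((jj ⟨a, ha⟩ : 𝕜ˣ) : 𝕜) ^ ℓ = 1 := by
      have := congrArg Units.val (hjj ⟨a, ha⟩)
      rwa [Units.val_pow_eq_pow_val, Units.val_one] at this
    constructor
    · rw [e, ← map_pow, e2, map_one]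
    · rw [e, H.frob.frob, H.mu _ e2]
  obtain ⟨z₀, w, d₀, hz0, hw0, hd0, hz, hw, hd, hφz⟩ :=
    h2 𝕜 E Q Q' act cj φ f cj' t ℓ H.inj H.comm hf hfcj hcj' ht0 htmul hker
  obtain ⟨k, hk, hkz⟩ := H.frob.fin z₀
  have hact0 : ∀ (s : Q) (x : E), x ≠ 0 → act s x ≠ 0 := fun s x hx =>
    (map_ne_zero_iff (act s) (act s).injective).2 hx
  obtain ⟨y, hy0, hyact, -, hybad⟩ := h3 𝕜 E Q ℓ q act cj φ X hℓ hℓ0 H k hk
    (fun v => v.pord z₀) ((FPM.finite_pord hz0).subset fun v hv => hv.2)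
    (by
      intro v _ s
      obtain ⟨g, rfl⟩ := hf s
      have e1 : (v.comap ((act (f g) : E ≃ₐ[𝕜] E) : E ≃+* E)).pord z₀ = v.pord (act (f g) z₀) :=
        rfl
      rw [e1, hz g, v.pord_mul (pow_ne_zero _ (ht0 g)) hz0, v.pord_pow (ht0 g),
        add_sub_cancel_right]
      exact dvd_mul_right _ _)
    (by
      intro v _
      rw [Place.comap_pord, hkz, sub_self]
      exact dvd_zero _)
  have hφinj : ∀ x : E, x ≠ 0 → φ x ≠ 0 := fun x hx => (map_ne_zero_iff φ φ.injective).2 hx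
  have hφy0 : φ y ≠ 0 := hφinj y hy0
  set z₁ := z₀ / y with hz1
  set d₁ := d₀ * y / φ y with hd1
  have hz10 : z₁ ≠ 0 := div_ne_zero hz0 hy0
  have hd10 : d₁ ≠ 0 := div_ne_zero (mul_ne_zero hd0 hy0) hφy0
  have hφz1 : φ z₁ = d₁ * w ^ ℓ * z₁ := by
    rw [hz1, map_div₀, hφz, hd1]
    field_simp
  have hactz1 : ∀ g, act (f g) z₁ = t g ^ ℓ * z₁ := by
    intro g
    rw [hz1, map_div₀, hz g, hyact]
    ring
  have hd1act : ∀ s, act s d₁ = d₁ := by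
    intro s
    have e1 : act s (φ y) = φ y := by
      have := H.comm (cj.symm s) y
      rw [hyact, MulEquiv.apply_symm_apply] at this
      exact this.symm
    rw [hd1, map_div₀, map_mul, hd, hyact, e1]
  have hz1bad : ∀ v : Place 𝕜 E, Bad ℓ X v → (ℓ : ℤ) ∣ v.pord z₁ := by
    intro v hv
    have := hybad v hv
    rw [hz1, v.pord_div hz0 hy0]
    have e2 : v.pord z₀ - v.pord y = -(v.pord y - v.pord z₀) := by ring
    rw [e2]
    exact (dvd_neg).2 this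
  have hd1bad : ∀ v : Place 𝕜 E, Bad ℓ X v → (ℓ : ℤ) ∣ v.pord d₁ := by
    intro v hv
    have e1 := hz1bad _ (FPM.bad_comap H.frobX hv)
    rw [Place.comap_pord, hφz1, v.pord_mul (mul_ne_zero hd10 (pow_ne_zero _ hw0)) hz10,
      v.pord_mul hd10 (pow_ne_zero _ hw0), v.pord_pow hw0] at e1
    have e2 := hz1bad v hv
    have e3 : v.pord d₁ = (v.pord d₁ + ℓ * v.pord w + v.pord z₁) - ℓ * v.pord w - v.pord z₁ := by
      ring
    rw [e3]
    exact dvd_sub (dvd_sub e1 (dvd_mul_right _ _)) e2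
  obtain ⟨j₀, hj₀⟩ := h4 𝕜 E Q ℓ q act cj φ X hℓ hℓ0 H d₁ hd10 hd1act hd1bad
  refine ⟨t, ht0, htmul, htjj, j₀, ?_⟩
  intro j hj E' _ _ _ _ _ _ act' φ' X' H' hX' hφ' hact'
  obtain ⟨e, c, he0, hc0, hse, hsc, hdc⟩ :=
    hj₀ j hj E' act' φ' X' H' hX' hφ' hact'
  have hinj : ∀ x : E, x ≠ 0 → algebraMap E E' x ≠ 0 := fun x hx => (map_ne_zero _).2 hx
  have hφ'inj : ∀ x : E', x ≠ 0 → φ' x ≠ 0 := fun x hx => (map_ne_zero_iff φ' φ'.injective).2 hx
  have hφ'c0 : φ' c ≠ 0 := hφ'inj c hc0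
  set z₂ := algebraMap E E' z₁ / c with hz2
  set w' := e * algebraMap E E' w with hw'
  have hz20 : z₂ ≠ 0 := div_ne_zero (hinj _ hz10) hc0
  have hw'0 : w' ≠ 0 := mul_ne_zero he0 (hinj _ hw0)
  have hactz2 : ∀ g, act' (f g) z₂ = algebraMap E E' (t g) ^ ℓ * z₂ := by
    intro g
    rw [hz2, map_div₀, hact', hactz1, hsc, map_mul, map_pow]
    ring
  have hφz2 : φ' z₂ = w' ^ ℓ * z₂ := by
    rw [hz2, map_div₀, hφ', hφz1, map_mul, map_mul, map_pow, hw', mul_pow]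
    have e1 : algebraMap E E' d₁ = e ^ ℓ * φ' c / c := by
      rw [eq_div_iff hc0, hdc]
    rw [e1]
    field_simp
  have hφt : ∀ g, φ' (algebraMap E E' (t g)) * w' =
      algebraMap E E' (t (cj' g)) * act' (cj (f g)) w' := by
    intro g
    rw [hw', map_mul, hse, hact', hφ']
    have e1 := congrArg (algebraMap E E') (hw g)
    rw [map_mul, map_mul] at e1
    calc algebraMap E E' (φ (t g)) * (e * algebraMap E E' w)
        = e * (algebraMap E E' (φ (t g)) * algebraMap E E' w) := by ring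
      _ = _ := by rw [e1]; ring
  obtain ⟨y', hy'0, hy'act, hy'φ, hy'bad⟩ := h3 𝕜 E' Q ℓ q act' cj φ' X' hℓ hℓ0 H' 1 one_pos
    (fun v => v.pord z₂) ((FPM.finite_pord hz20).subset fun v hv => hv.2)
    (by
      intro v _ s
      obtain ⟨g, rfl⟩ := hf s
      have e1 : (v.comap ((act' (f g) : E' ≃ₐ[𝕜] E') : E' ≃+* E')).pord z₂
          = v.pord (act' (f g) z₂) := rfl
      rw [e1, hactz2 g, v.pord_mul (pow_ne_zero _ (hinj _ (ht0 g))) hz20,
        v.pord_pow (hinj _ (ht0 g)), add_sub_cancel_right]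
      exact dvd_mul_right _ _)
    (by
      intro v _
      rw [Place.comap_pord, pow_one, hφz2, v.pord_mul (pow_ne_zero _ hw'0) hz20,
        v.pord_pow hw'0, add_sub_cancel_right]
      exact dvd_mul_right _ _)
  rw [pow_one] at hy'φ
  refine ⟨z₂ / y', w', div_ne_zero hz20 hy'0, hw'0, ?_, hφt, ?_, ?_⟩
  · intro g
    rw [map_div₀, hactz2, hy'act]
    ring
  · rw [map_div₀, hφz2, hy'φ]
    ring
  · intro v hv
    rw [v.pord_div hz20 hy'0]
    have e1 := hy'bad v hv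
    have e2 : v.pord z₂ - v.pord y' = -(v.pord y' - v.pord z₂) := by ring
    rw [e2]
    exact (dvd_neg).2 e1

end MP7Z
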