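import Pool.Agent.Lib.MP_7f581e_Z.CS.Spec

/-!
# The elements `z`, `w`, `d` (`CStmtFr`)
-/

set_option autoImplicit false

namespace MP7Z

/-- The action as a homomorphism to the ring automorphisms. -/
def Fr_act {𝕜 E Q : Type} [Field 𝕜] [Field E] [Algebra 𝕜 E] [Group Q]
    (act : Q →* (E ≃ₐ[𝕜] E)) : Q →* (E ≃+* E) where
  toFun s := (act s).toRingEquiv
  map_one' := by
    ext x
    show act 1 x = x
    rw [map_one]
    rfl
  map_mul' r s := by
    ext x
    show act (r * s) x = act r (act s x)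
    rw [map_mul]
    rfl

/-- A crossed homomorphism which is trivial on the kernel is a coboundary. -/
theorem Fr_fac (h90 : CStmtH90f) {𝕜 E Q Q' : Type} [Field 𝕜] [Field E] [Algebra 𝕜 E] [Group Q]
    [Finite Q] [Group Q'] (act : Q →* (E ≃ₐ[𝕜] E)) (f : Q' →* Q) (hinj : Function.Injective act)
    (hf : Function.Surjective f) (u : Q' → E) (hu : ∀ g, u g ≠ 0)
    (hc : ∀ g h, u (g * h) = u g * act (f g) (u h)) (hk : ∀ a ∈ f.ker, u a = 1) :
    ∃ b : E, b ≠ 0 ∧ ∀ g, act (f g) b = u g * b := by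
  have hinj' : Function.Injective (Fr_act act) := by
    intro r s hrs
    apply hinj
    ext x
    exact congrArg (fun e : E ≃+* E => e x) hrs
  have hs : ∀ s, f (Function.surjInv hf s) = s := Function.surjInv_eq hf
  have hug : ∀ g, u g = u (Function.surjInv hf (f g)) := by
    intro g
    have h1 : g = Function.surjInv hf (f g) * ((Function.surjInv hf (f g))⁻¹ * g) := by
      rw [mul_inv_cancel_left]
    have h2 : (Function.surjInv hf (f g))⁻¹ * g ∈ f.ker := by
      rw [MonoidHom.mem_ker, map_mul, map_inv, hs, inv_mul_cancel]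
    conv_lhs => rw [h1, hc, hk _ h2, map_one, mul_one]
  obtain ⟨b, hb, h⟩ := h90 E Q (Fr_act act) hinj' (fun s => u (Function.surjInv hf s))
    (fun s => hu _) (fun r s => by
      show u (Function.surjInv hf (r * s)) =
        u (Function.surjInv hf r) * act r (u (Function.surjInv hf s))
      have h1 := hc (Function.surjInv hf r) (Function.surjInv hf s)
      rw [hs] at h1
      rw [← h1, hug (Function.surjInv hf r * Function.surjInv hf s), map_mul, hs, hs])
  refine ⟨b, hb, fun g => ?_⟩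
  rw [hug g]
  exact h (f g)

theorem ctFr (h90 : CStmtH90f) : CStmtFr := by
  intro 𝕜 E Q Q' _ _ _ _ _ _ act cj φ f cj' t ℓ hinj hφ hf hcj hcjk ht hc hk
  obtain ⟨z, hz, hzt⟩ := Fr_fac h90 act f hinj hf (fun g => t g ^ ℓ)
    (fun g => pow_ne_zero _ (ht g)) (fun g h => by
      show t (g * h) ^ ℓ = t g ^ ℓ * act (f g) (t h ^ ℓ)
      rw [hc, mul_pow, map_pow]) (fun a ha => (hk a ha).1)
  have hcs : ∀ a ∈ f.ker, cj'.symm a = a := by
    intro a ha
    rw [MulEquiv.symm_apply_eq]
    exact (hcjk a ha).symm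
  have hφt : ∀ g, φ (t g) ≠ 0 := fun g => by
    rw [Ne, EmbeddingLike.map_eq_zero_iff]
    exact ht g
  obtain ⟨w, hw, hwt⟩ := Fr_fac h90 act f hinj hf (fun g => φ (t (cj'.symm g)) / t g)
    (fun g => div_ne_zero (hφt _) (ht g)) (fun g h => by
      show φ (t (cj'.symm (g * h))) / t (g * h) =
        φ (t (cj'.symm g)) / t g * act (f g) (φ (t (cj'.symm h)) / t h)
      have h1 : cj (f (cj'.symm g)) = f g := by
        rw [← hcj, MulEquiv.apply_symm_apply]
      rw [map_mul, hc, hc, map_mul, hφ, h1, map_div₀]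
      rw [div_mul_div_comm]) (fun a ha => by
      show φ (t (cj'.symm a)) / t a = 1
      rw [hcs a ha, (hk a ha).2, div_self (ht a)])
  have hwc : ∀ g, φ (t g) * w = t (cj' g) * act (cj (f g)) w := by
    intro g
    have h1 := hwt (cj' g)
    rw [hcj, MulEquiv.symm_apply_apply] at h1
    rw [h1]
    have h2 := ht (cj' g)
    field_simp
  have hφz : φ z ≠ 0 := by
    rw [Ne, EmbeddingLike.map_eq_zero_iff]
    exact hz
  refine ⟨z, w, φ z / (w ^ ℓ * z), hz, hw, div_ne_zero hφz (mul_ne_zero (pow_ne_zero _ hw) hz),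
    hzt, hwc, fun s => ?_, ?_⟩
  · obtain ⟨s', rfl⟩ := cj.surjective s
    obtain ⟨g, rfl⟩ := hf s'
    have h1 : act (cj (f g)) (φ z) = φ (t g) ^ ℓ * φ z := by
      rw [← hφ, hzt, map_mul, map_pow]
    have h2 : act (cj (f g)) w = φ (t g) * w / t (cj' g) := by
      rw [hwc, mul_div_cancel_left₀ _ (ht (cj' g))]
    have h3 : act (cj (f g)) z = t (cj' g) ^ ℓ * z := by
      rw [← hcj, hzt]
    rw [map_div₀, map_mul, map_pow, h1, h2, h3, div_pow, mul_pow]
    have h4 := ht (cj' g)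
    have h5 := hφt g
    have h6 : t (cj' g) ^ ℓ ≠ 0 := pow_ne_zero _ h4
    have h7 : φ (t g) ^ ℓ ≠ 0 := pow_ne_zero _ h5
    have h8 : w ^ ℓ ≠ 0 := pow_ne_zero _ hw
    field_simp
  · rw [mul_assoc, div_mul_cancel₀ _ (mul_ne_zero (pow_ne_zero _ hw) hz)]

end MP7Z
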