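import Pool.Agent.Lib.MP_7f581e_Z.CS.Spec

/-!
# Package CS: the fixed field of a finite group acting faithfully on a curve field
-/

set_option autoImplicit false

namespace MP7Z

theorem ctFxd : CStmtFxd := by
  intro 𝕜 E Q _ _ _ _ _ _ _ act hact
  let _ : MulSemiringAction Q E :=
    MulSemiringAction.compHom E (MulSemiringAction.toRingAut (E ≃ₐ[𝕜] E) E |>.comp act)
  have hsmul : ∀ (s : Q) (f : E), s • f = act s f := fun _ _ => rfl
  have hG : IsGaloisGroup Q (fxd act) E :=
    { faithful := ⟨fun {s t} h => hact (AlgEquiv.ext fun x => h x)⟩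
      commutes := ⟨fun s a f => by
        have ha : act s (a : E) = a := mem_fxd.1 a.2 s
        have h1 : ∀ g : E, a • g = (a : E) * g := fun g => Algebra.smul_def a g
        rw [hsmul, hsmul, h1, h1, map_mul, ha]⟩
      isInvariant := ⟨fun b h => ⟨⟨b, mem_fxd.2 fun s => h s⟩, rfl⟩⟩ }
  have h1 : Module.Finite (fxd act) E := IsGaloisGroup.finiteDimensional Q (fxd act) E
  have h2 : IsGalois (fxd act) E := IsGaloisGroup.isGalois Q (fxd act) E
  refine ⟨isCurveField_sub (E := E) (fxd act), h1, h2,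
    (IsGaloisGroup.card_eq_finrank Q (fxd act) E).symm, fun σ => ?_⟩
  obtain ⟨s, hs⟩ := (IsGaloisGroup.mulEquivAlgEquiv Q (fxd act) E).surjective σ
  refine ⟨s, fun f => ?_⟩
  rw [← hs]
  rfl

end MP7Z
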