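import Pool.Agent.Lib.MP_7f581e_Z.CS.Spec

/-!
# H90c: Hilbert 90 for one automorphism
-/

set_option autoImplicit false

namespace MP7Z

theorem ctH90c : CStmtH90c := by
  classical
  intro E _ φ M hM θ hθ hθi b hb0 hbM hprod
  let F : Subfield E :=
    { carrier := {x | (φ ^ M) x = x}
      mul_mem' := by
        intro x y hx hy
        change (φ ^ M) (x * y) = x * y
        rw [map_mul, show (φ ^ M) x = x from hx, show (φ ^ M) y = y from hy]
      one_mem' := map_one _
      add_mem' := by
        intro x y hx hy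
        change (φ ^ M) (x + y) = x + y
        rw [map_add, show (φ ^ M) x = x from hx, show (φ ^ M) y = y from hy]
      zero_mem' := map_zero _
      neg_mem' := by
        intro x hx
        change (φ ^ M) (-x) = -x
        rw [map_neg, show (φ ^ M) x = x from hx]
      inv_mem' := by
        intro x hx
        change (φ ^ M) (x⁻¹) = x⁻¹
        rw [map_inv₀, show (φ ^ M) x = x from hx] }
  let χ : Fin M → (F →* E) := fun i =>
    (((φ ^ (i : ℕ) : E ≃+* E) : E →+* E).toMonoidHom).comp (F.subtype : F →+* E).toMonoidHom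
  have hχ : ∀ (i : Fin M) (x : F), χ i x = (φ ^ (i : ℕ)) (x : E) := fun _ _ => rfl
  have key : ∀ i j : ℕ, i < j → j < M → (φ ^ i) θ ≠ (φ ^ j) θ := by
    intro i j hij hj h
    have h1 : (φ ^ j) θ = (φ ^ i) ((φ ^ (j - i)) θ) := by
      rw [← RingAut.mul_apply, ← pow_add]
      congr 2
      omega
    rw [h1] at h
    exact hθi (j - i) (by omega) (by omega) ((φ ^ i).injective h).symm
  have hχinj : Function.Injective χ := by
    intro i j h
    have h1 := DFunLike.congr_fun h (⟨θ, hθ⟩ : F)
    rw [hχ, hχ] at h1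
    rcases lt_trichotomy (i : ℕ) (j : ℕ) with h2 | h2 | h2
    · exact absurd h1 (key i j h2 j.2)
    · exact Fin.ext h2
    · exact absurd h1.symm (key j i h2 i.2)
  have hli := (linearIndependent_monoidHom F E).comp χ hχinj
  set B : ℕ → E := fun i => ∏ k ∈ Finset.range i, (φ ^ k) b with hB
  have hB0 : B 0 = 1 := by simp [hB]
  have hBM : B M = 1 := hprod
  have hBs : ∀ i, b * φ (B i) = B (i + 1) := by
    intro i
    have e1 : φ (B i) = ∏ k ∈ Finset.range i, (φ ^ (k + 1)) b := by
      simp only [hB]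
      rw [map_prod]
      exact Finset.prod_congr rfl fun k _ => by rw [pow_succ', RingAut.mul_apply]
    have e2 : B (i + 1) = (∏ k ∈ Finset.range i, (φ ^ (k + 1)) b) * (φ ^ 0) b := by
      simp only [hB]
      rw [Finset.prod_range_succ']
    rw [e1, e2, pow_zero, mul_comm]
    rfl
  have hne : ∃ a : F, ∑ i : Fin M, B i * (φ ^ (i : ℕ)) (a : E) ≠ 0 := by
    by_contra hcon
    push Not at hcon
    have h1 : ∑ i : Fin M, B i • ((fun f : F →* E => (f : F → E)) ∘ χ) i = 0 := by
      funext a
      rw [Finset.sum_apply]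
      exact hcon a
    have h2 := Fintype.linearIndependent_iff.1 hli (fun i => B i) h1 ⟨0, hM⟩
    simp only [hB0] at h2
    exact one_ne_zero h2
  obtain ⟨a, ha⟩ := hne
  have haM : (φ ^ M) (a : E) = a := a.2
  rw [Fin.sum_univ_eq_sum_range (fun i => B i * (φ ^ i) (a : E)) M] at ha
  set s := ∑ i ∈ Finset.range M, B i * (φ ^ i) (a : E) with hs
  have hφs : b * φ s = s := by
    have h1 : b * φ s = ∑ i ∈ Finset.range M, B (i + 1) * (φ ^ (i + 1)) (a : E) := by
      rw [hs, map_sum, Finset.mul_sum]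
      refine Finset.sum_congr rfl fun i _ => ?_
      rw [map_mul, ← mul_assoc, hBs, pow_succ', RingAut.mul_apply]
    have h2 := Finset.sum_range_succ' (fun i => B i * (φ ^ i) (a : E)) M
    have h3 := Finset.sum_range_succ (fun i => B i * (φ ^ i) (a : E)) M
    rw [h3] at h2
    rw [h1]
    have h4 : B M * (φ ^ M) (a : E) = B 0 * (φ ^ 0) (a : E) := by
      rw [hBM, hB0, haM, pow_zero]
      rfl
    rw [h4] at h2
    exact (add_right_cancel h2).symm
  have hφM : (φ ^ M) s = s := by
    have hcomm : ∀ (k : ℕ) (x : E), (φ ^ M) ((φ ^ k) x) = (φ ^ k) ((φ ^ M) x) := by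
      intro k x
      rw [← RingAut.mul_apply, ← RingAut.mul_apply, ← pow_add, ← pow_add, add_comm]
    rw [hs, map_sum]
    refine Finset.sum_congr rfl fun i _ => ?_
    rw [map_mul, hcomm, haM]
    congr 1
    simp only [hB]
    rw [map_prod]
    exact Finset.prod_congr rfl fun k _ => by rw [hcomm, hbM]
  have hφs0 : φ s ≠ 0 := (map_ne_zero_iff φ φ.injective).2 ha
  refine ⟨s⁻¹, inv_ne_zero ha, by rw [map_inv₀, hφM], ?_⟩
  rw [map_inv₀]
  rw [← mul_left_inj' hφs0, inv_mul_cancel₀ hφs0]
  calc (1 : E) = s⁻¹ * s := (inv_mul_cancel₀ ha).symm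
    _ = s⁻¹ * (b * φ s) := by rw [hφs]
    _ = b * s⁻¹ * φ s := by ring

end MP7Z
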