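import Pool.Agent.Lib.MP_7f581e_Z.CS.Spec

/-!
# H90f: Hilbert 90 for a finite group acting on a field
-/

set_option autoImplicit false

namespace MP7Z

theorem ctH90f : CStmtH90f := by
  classical
  intro E Q _ _ _ act hinj c hc0 hc
  haveI : Fintype Q := Fintype.ofFinite Q
  let χ : Q → (E →* E) := fun s => ((act s : E ≃+* E) : E →+* E).toMonoidHom
  have hχinj : Function.Injective χ := by
    intro s r h
    apply hinj
    ext x
    exact DFunLike.congr_fun h x
  have hli := (linearIndependent_monoidHom E E).comp χ hχinj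
  have hne : ∃ a : E, ∑ s, c s * act s a ≠ 0 := by
    by_contra hcon
    push Not at hcon
    have h1 : ∑ s, c s • ((fun f : E →* E => (f : E → E)) ∘ χ) s = 0 := by
      funext a
      rw [Finset.sum_apply]
      exact hcon a
    have h2 := Fintype.linearIndependent_iff.1 hli c h1 1
    exact hc0 1 h2
  obtain ⟨a, ha⟩ := hne
  set b₀ := ∑ s, c s * act s a with hb
  have key : ∀ r, c r * act r b₀ = b₀ := by
    intro r
    rw [hb, map_sum, Finset.mul_sum]
    rw [← Equiv.sum_comp (Equiv.mulLeft r) (fun s => c s * act s a)]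
    refine Finset.sum_congr rfl fun s _ => ?_
    rw [Equiv.coe_mulLeft, hc, map_mul, map_mul, RingAut.mul_apply]
    ring
  refine ⟨b₀⁻¹, inv_ne_zero ha, fun r => ?_⟩
  have h1 : act r b₀ ≠ 0 := (map_ne_zero_iff (act r) (act r).injective).2 ha
  rw [map_inv₀]
  have h2 := key r
  field_simp
  rw [mul_comm] at h2
  rw [mul_comm]
  linear_combination (-1 : E) * h2

end MP7Z
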