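import Pool.Agent.Lib.MP_7f581e_Z.CS.Spec
import Pool.Agent.Lib.MP_7f581e_Z.FF.Tsen

/-!
# Nrm: norms are surjective (Tsen), cyclic of prime degree
-/

set_option autoImplicit false

namespace MP7Z

open IntermediateField in
theorem ctNrm (hFxd : CStmtFxd) : CStmtNrm := by
  classical
  intro 𝕜 E Q _ _ _ _ _ _ _ act hinj X _ _ _ ℓ hℓ R hR hidx g hg n hn0 hn
  obtain ⟨hcurve, hfinite, hgal, hrank, hall⟩ := hFxd 𝕜 E Q act hinj
  haveI := hcurve
  haveI := hfinite
  haveI := hgal
  -- the action as automorphisms over the fixed field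
  let θ : Q →* (E ≃ₐ[fxd act] E) :=
    { toFun := fun s => AlgEquiv.ofRingEquiv (f := ((act s : E ≃ₐ[𝕜] E) : E ≃+* E))
        (fun x => mem_fxd.1 x.2 s)
      map_one' := by
        ext x
        change act 1 x = x
        rw [map_one]; rfl
      map_mul' := by
        intro s t
        ext x
        change act (s * t) x = act s (act t x)
        rw [map_mul]; rfl }
  have hθ : ∀ (s : Q) (x : E), θ s x = act s x := fun _ _ => rfl
  have hθinj : Function.Injective θ := by
    intro s t h
    apply hinj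
    ext x
    exact DFunLike.congr_fun h x
  have hθsurj : Function.Surjective θ := by
    intro σ
    obtain ⟨s, hs⟩ := hall σ
    exact ⟨s, by ext x; rw [hθ, hs]⟩
  set H : Subgroup (E ≃ₐ[fxd act] E) := R.map θ with hH
  have hmemH : ∀ s : Q, θ s ∈ H ↔ s ∈ R := by
    intro s
    rw [hH, Subgroup.mem_map]
    constructor
    · rintro ⟨r, hr, h⟩
      rwa [← hθinj h]
    · intro h
      exact ⟨s, h, rfl⟩
  let F : IntermediateField (fxd act) E := IntermediateField.fixedField H
  have hmemF : ∀ x : E, x ∈ F ↔ ∀ s ∈ R, act s x = x := by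
    intro x
    rw [show (x ∈ F ↔ _) ↔ _ from Iff.rfl, IntermediateField.mem_fixedField_iff]
    constructor
    · intro h s hs
      exact h (θ s) ((hmemH s).2 hs)
    · rintro h f ⟨s, hs, rfl⟩
      exact h s hs
  -- degrees
  have hcardH : Nat.card H = Nat.card R := by
    rw [hH]
    exact Nat.card_congr (R.equivMapOfInjective θ hθinj).toEquiv.symm
  have hEF : Module.finrank F E = Nat.card R := by
    rw [← hcardH]
    exact IntermediateField.finrank_fixedField_eq_card H
  have hQR : Nat.card R * ℓ = Nat.card Q := by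
    rw [← hidx]
    exact R.card_mul_index
  have hFk : Module.finrank (fxd act) F = ℓ := by
    have h1 := Module.finrank_mul_finrank (fxd act) F E
    rw [hrank, hEF, ← hQR, mul_comm (Nat.card R)] at h1
    exact Nat.eq_of_mul_eq_mul_right Nat.card_pos h1
  -- the restriction of g
  have hgF : ∀ x ∈ F, act g x ∈ F := by
    intro x hx
    rw [hmemF] at hx ⊢
    intro s hs
    have h1 : act s (act g x) = act g (act (g⁻¹ * s * g) x) := by
      have e : s * g = g * (g⁻¹ * s * g) := by group
      have e2 := congrArg (fun t => act t x) e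
      simp only [map_mul, AlgEquiv.mul_apply] at e2 ⊢
      exact e2
    rw [h1, hx]
    have := hR.conj_mem s hs g⁻¹
    simpa using this
  have hgF' : ∀ x ∈ F, act g⁻¹ x ∈ F := by
    intro x hx
    rw [hmemF] at hx ⊢
    intro s hs
    have h1 : act s (act g⁻¹ x) = act g⁻¹ (act (g * s * g⁻¹) x) := by
      have e : s * g⁻¹ = g⁻¹ * (g * s * g⁻¹) := by group
      have e2 := congrArg (fun t => act t x) e
      simp only [map_mul, AlgEquiv.mul_apply] at e2 ⊢
      exact e2
    rw [h1, hx]
    exact hR.conj_mem s hs g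
  have hgg : ∀ x : E, act g (act g⁻¹ x) = x := by
    intro x
    rw [← AlgEquiv.mul_apply, ← map_mul, mul_inv_cancel, map_one, AlgEquiv.one_apply]
  have hgg' : ∀ x : E, act g⁻¹ (act g x) = x := by
    intro x
    rw [← AlgEquiv.mul_apply, ← map_mul, inv_mul_cancel, map_one, AlgEquiv.one_apply]
  let τ : F ≃ₐ[fxd act] F :=
    { toFun := fun x => ⟨act g x, hgF x x.2⟩
      invFun := fun x => ⟨act g⁻¹ x, hgF' x x.2⟩
      left_inv := fun x => Subtype.ext (hgg' x)
      right_inv := fun x => Subtype.ext (hgg x)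
      map_mul' := fun x y => Subtype.ext (map_mul (act g) (x : E) y)
      map_add' := fun x y => Subtype.ext (map_add (act g) (x : E) y)
      commutes' := fun c => Subtype.ext (mem_fxd.1 c.2 g) }
  have hτ : ∀ (i : ℕ) (x : F), ((τ ^ i) x : E) = act (g ^ i) (x : E) := by
    intro i
    induction i with
    | zero => intro x; simp
    | succ i ih =>
      intro x
      have e1 : (τ ^ (i + 1)) x = τ ((τ ^ i) x) := by
        rw [pow_succ', AlgEquiv.mul_apply]
      have e2 : act (g ^ (i + 1)) (x : E) = act g (act (g ^ i) (x : E)) := by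
        rw [pow_succ', map_mul, AlgEquiv.mul_apply]
      rw [e1, e2, ← ih]
      rfl
  -- distinct powers
  have hdist : ∀ i j : ℕ, i < j → j < ℓ → τ ^ i ≠ τ ^ j := by
    intro i j hij hj h
    have h1 : τ ^ (j - i) = 1 := by
      have e : τ ^ j = τ ^ i * τ ^ (j - i) := by rw [← pow_add]; congr 1; omega
      rw [e] at h
      exact (mul_eq_left.1 h.symm)
    have h2 : θ (g ^ (j - i)) ∈ F.fixingSubgroup := by
      rw [IntermediateField.mem_fixingSubgroup_iff]
      intro x hx
      rw [hθ]
      have := hτ (j - i) ⟨x, hx⟩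
      rw [h1] at this
      exact this.symm
    rw [IntermediateField.fixingSubgroup_fixedField, hmemH] at h2
    -- g ∈ R
    apply hg
    have h3 : g ^ ℓ ∈ R := by
      rw [← hidx]
      exact R.pow_index_mem g
    have hcop : Nat.Coprime (j - i) ℓ := by
      refine ((Nat.Prime.coprime_iff_not_dvd hℓ).2 fun h => ?_).symm
      have := Nat.le_of_dvd (by omega) h
      omega
    have h4 : (QuotientGroup.mk g : Q ⧸ R) ^ (j - i) = 1 := by
      rw [← QuotientGroup.mk_pow]
      exact (QuotientGroup.eq_one_iff _).2 h2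
    have h5 : (QuotientGroup.mk g : Q ⧸ R) ^ ℓ = 1 := by
      rw [← QuotientGroup.mk_pow]
      exact (QuotientGroup.eq_one_iff _).2 h3
    have h6 : orderOf (QuotientGroup.mk g : Q ⧸ R) ∣ 1 := by
      have := Nat.dvd_gcd (orderOf_dvd_of_pow_eq_one h4) (orderOf_dvd_of_pow_eq_one h5)
      rwa [hcop] at this
    have h7 : (QuotientGroup.mk g : Q ⧸ R) = 1 := by
      rw [← orderOf_eq_one_iff]
      exact Nat.dvd_one.1 h6
    exact (QuotientGroup.eq_one_iff g).1 h7
  let P : Fin ℓ → (F ≃ₐ[fxd act] F) := fun i => τ ^ (i : ℕ)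
  have hPinj : Function.Injective P := by
    intro i j h
    rcases lt_trichotomy (i : ℕ) (j : ℕ) with h2 | h2 | h2
    · exact absurd h (hdist i j h2 j.2)
    · exact Fin.ext h2
    · exact absurd h.symm (hdist j i h2 i.2)
  have hcard : Fintype.card (F ≃ₐ[fxd act] F) = ℓ := by
    apply le_antisymm
    · rw [← hFk]
      exact AlgEquiv.card_le
    · have := Fintype.card_le_of_injective P hPinj
      simpa using this
  haveI : IsGalois (fxd act) F := by
    apply IsGalois.of_card_aut_eq_finrank
    rw [Nat.card_eq_fintype_card, hcard, hFk]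
  have hPbij : Function.Bijective P :=
    (Fintype.bijective_iff_injective_and_card P).2 ⟨hPinj, by rw [Fintype.card_fin, hcard]⟩
  -- Tsen
  have hC1 : Tsen.C1 (fxd act) := Tsen.c1_curve 𝕜 (fxd act)
  have hnmem : n ∈ fxd act := mem_fxd.2 hn
  obtain ⟨m, hm⟩ := hC1.norm_surj (L := F) ⟨n, hnmem⟩
  have hnorm := Algebra.norm_eq_prod_automorphisms (fxd act) m
  rw [hm] at hnorm
  have hprod : ∏ i ∈ Finset.range ℓ, act (g ^ i) (m : E) = n := by
    have e1 : ((∏ σ : F ≃ₐ[fxd act] F, σ m : F) : E) = ∏ i ∈ Finset.range ℓ, act (g ^ i) (m : E) := by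
      rw [← (Equiv.ofBijective P hPbij).prod_comp (fun σ => σ m),
        ← Fin.prod_univ_eq_prod_range (fun i => act (g ^ i) (m : E)) ℓ]
      push_cast
      refine Finset.prod_congr rfl fun i _ => ?_
      exact hτ i m
    rw [← e1, ← hnorm]
    rfl
  refine ⟨(m : E), ?_, (hmemF m).1 m.2, hprod⟩
  intro h0
  rw [h0] at hprod
  have : ∏ i ∈ Finset.range ℓ, act (g ^ i) (0 : E) = 0 :=
    Finset.prod_eq_zero (Finset.mem_range.2 hℓ.pos) (map_zero _)
  rw [this] at hprod
  exact hn0 hprod.symm

end MP7Z
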