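import Pool.Agent.Lib.MP_7f581e_Z.CS.Spec

/-!
# Num: the norm of `d` becomes locally divisible by `m ℓ`
-/

set_option autoImplicit false

namespace MP7Z

namespace NumM

theorem pord_prod {𝕜 E : Type} [Field 𝕜] [IsAlgClosed 𝕜] [Field E] [Algebra 𝕜 E]
    (v : Place 𝕜 E) (s : Finset ℕ) (f : ℕ → E) (hf : ∀ i ∈ s, f i ≠ 0) :
    v.pord (∏ i ∈ s, f i) = ∑ i ∈ s, v.pord (f i) := by
  classical
  induction s using Finset.induction_on with
  | empty => rw [Finset.prod_empty, Finset.sum_empty, v.pord_one]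
  | insert a s ha ih =>
    have h1 : ∀ i ∈ s, f i ≠ 0 := fun i hi => hf i (Finset.mem_insert_of_mem hi)
    rw [Finset.prod_insert ha, Finset.sum_insert ha,
      v.pord_mul (hf a (Finset.mem_insert_self _ _)) (Finset.prod_ne_zero_iff.2 h1), ih h1]

theorem bad_comap {𝕜 E : Type} [Field 𝕜] [IsAlgClosed 𝕜] [Field E] [Algebra 𝕜 E]
    {ℓ : ℕ} {X : E} {φ : E ≃+* E} (hX : φ X = X) {v : Place 𝕜 E} (h : Bad ℓ X v) :
    Bad ℓ X (v.comap φ) := by
  rcases h with h | ⟨m, hm, hmc, h⟩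
  · left
    rwa [Place.comap_ord, hX]
  · right
    refine ⟨m, hm, hmc, ?_⟩
    rwa [Place.comap_ord, map_sub, map_pow, map_one, hX]

theorem pow_fix {E : Type} [Field E] (φ : E ≃+* E) {x : E} (h : φ x = x) (n : ℕ) :
    (φ ^ n) x = x := by
  induction n with
  | zero => simp
  | succ n ih => rw [pow_succ', RingAut.mul_apply, ih, h]

theorem pow_const {𝕜 E : Type} [Field 𝕜] [Field E] [Algebra 𝕜 E] (φ : E ≃+* E) (q : ℕ)
    (h : ∀ c : 𝕜, φ (algebraMap 𝕜 E c) = algebraMap 𝕜 E (c ^ q)) (n : ℕ) (c : 𝕜) :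
    (φ ^ n) (algebraMap 𝕜 E c) = algebraMap 𝕜 E (c ^ (q ^ n)) := by
  induction n with
  | zero => simp
  | succ n ih => rw [pow_succ', RingAut.mul_apply, ih, h, ← pow_mul, pow_succ]

theorem pow_alg {K K' : Type} [Field K] [Field K'] [Algebra K K'] (φ : K ≃+* K) (φ' : K' ≃+* K')
    (h : ∀ f : K, φ' (algebraMap K K' f) = algebraMap K K' (φ f)) (n : ℕ) (f : K) :
    (φ' ^ n) (algebraMap K K' f) = algebraMap K K' ((φ ^ n) f) := by
  induction n with
  | zero => simp
  | succ n ih => rw [pow_succ', RingAut.mul_apply, ih, h, pow_succ', RingAut.mul_apply]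

theorem iterate {𝕜 E : Type} [Field 𝕜] [IsAlgClosed 𝕜] [Field E] [Algebra 𝕜 E] (φ : E ≃+* E)
    (n : ℕ) (w : Place 𝕜 E) : (fun w : Place 𝕜 E => w.comap φ)^[n] w = w.comap (φ ^ n) := by
  induction n generalizing w with
  | zero => simp
  | succ n ih => rw [Function.iterate_succ_apply', ih, pow_succ, Place.comap_mul]

end NumM

theorem ctNum (hA : CStmtNumA) (hB : CStmtNumB) : CStmtNum := by
  classical
  intro 𝕜 K _ _ _ _ _ ℓ q φ X d m hℓ hℓq hφ htr hφX hd hm hdm hbad
  have hq2 : 2 ≤ q := hφ.primePow.one_lt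
  have hX0 : X ≠ 0 := by
    rintro rfl
    exact htr isAlgebraic_zero
  obtain ⟨jA, hjA⟩ := hA ℓ q m hℓ hq2 hℓq hm
  have hfin := finite_ord_ne (𝕜 := 𝕜) hX0
  set N : ℕ := hfin.toFinset.sup (fun v => (v.pord X).natAbs) with hN
  have hNv : ∀ v : Place 𝕜 K, (v.pord X).natAbs ≤ N := by
    intro v
    by_cases h : v.ord X = 0
    · have : v.pord X = 0 := by
        rw [v.pord_eq_iff hX0, h]; rfl
      rw [this]; simp
    · exact Finset.le_sup (f := fun v : Place 𝕜 K => (v.pord X).natAbs)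
        (hfin.mem_toFinset.2 h)
  refine ⟨max jA N, ?_⟩
  intro j hj K' _ _ _ _ _ _ φ' X' hφ' hφ'c hX' hφX' u
  by_cases hr0 : orbLen φ' u = 0
  · rw [hr0]; simp
  set r := orbLen φ' u with hr
  have hrpos : 0 < r := Nat.pos_of_ne_zero hr0
  have hinj : ∀ y : K, y ≠ 0 → algebraMap K K' y ≠ 0 := fun y hy => (map_ne_zero _).2 hy
  have hdi : ∀ i : ℕ, (φ ^ i) d ≠ 0 := fun i =>
    (map_ne_zero_iff (φ ^ i) (φ ^ i).injective).2 hd
  have hur : u.comap (φ' ^ r) = u := by
    rw [← NumM.iterate]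
    exact Function.isPeriodicPt_minimalPeriod (fun w : Place 𝕜 K' => w.comap φ') u
  set a : ℕ → ℤ := fun i => u.pord (algebraMap K K' ((φ ^ i) d)) with ha
  have haram : ∀ i, a i = (u.ram K : ℤ) * (u.res K).pord ((φ ^ i) d) := fun i =>
    u.pord_algebraMap_eq (E := K) _
  have hperm : ∀ i, a (i + m) = a i := by
    intro i
    simp only [ha]
    rw [pow_add, RingAut.mul_apply, hdm]
  have hperr : ∀ i, a (i + r) = a i := by
    intro i
    simp only [ha]
    rw [add_comm, pow_add, RingAut.mul_apply, ← NumM.pow_alg φ φ' hφ', ← Place.comap_pord, hur]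
  have hprod : u.pord (algebraMap K K' (∏ i ∈ Finset.range m, (φ ^ i) d))
      = ∑ i ∈ Finset.range m, a i := by
    rw [map_prod, NumM.pord_prod u _ _ fun i _ => hinj _ (hdi i)]
  rw [hprod, hB a m r hm hrpos hperm hperr]
  push_cast
  refine mul_dvd_mul_left _ ?_
  set v := u.res K with hv
  by_cases hvb : Bad ℓ X v
  · -- bad place
    refine Dvd.dvd.mul_left (Finset.dvd_sum fun i _ => ?_) _
    rw [haram]
    refine Dvd.dvd.mul_left ?_ _
    have h1 := hbad _ (NumM.bad_comap (φ := φ ^ i) (NumM.pow_fix φ hφX i) hvb)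
    exact h1
  by_cases hneg : v.ord X < 0
  · refine Dvd.dvd.mul_left (Finset.dvd_sum fun i _ => ?_) _
    rw [haram]
    refine Dvd.dvd.mul_right ?_ _
    by_contra hcon
    have hneg' : v.pord X < 0 := by
      rw [v.ord_eq_pord hX0] at hneg
      exact_mod_cast hneg
    have hX'0 : X' ≠ 0 := by
      rintro rfl
      rw [zero_pow (pow_pos hℓ.pos j).ne'] at hX'
      exact hinj X hX0 hX'.symm
    have h1 : ((ℓ ^ j : ℕ) : ℤ) * u.pord X' = (u.ram K : ℤ) * v.pord X := by
      rw [← u.pord_pow hX'0, hX', u.pord_algebraMap_eq (E := K)]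
    have h2 : IsCoprime ((ℓ ^ j : ℕ) : ℤ) (u.ram K : ℤ) := by
      rw [Nat.isCoprime_iff_coprime]
      apply Nat.Coprime.pow_left
      rw [Nat.Prime.coprime_iff_not_dvd hℓ]
      intro h
      exact hcon (by exact_mod_cast h)
    have h3 : ((ℓ ^ j : ℕ) : ℤ) ∣ v.pord X := h2.dvd_of_dvd_mul_left ⟨_, h1.symm⟩
    have h4 : ℓ ^ j ≤ (v.pord X).natAbs :=
      Nat.le_of_dvd (by omega) (by exact Int.natCast_dvd.1 h3)
    have h5 : j < ℓ ^ j := Nat.lt_pow_self hℓ.one_lt
    have h6 := hNv v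
    have h7 : N ≤ j := (le_max_right _ _).trans hj
    omega
  · -- finite place, not bad
    refine Dvd.dvd.mul_right ?_ _
    push Not at hneg
    have hX00 : v.ord X = 0 := by
      refine le_antisymm ?_ hneg
      by_contra h
      push Not at h
      exact hvb (Or.inl h)
    have hvX : v.pord X = 0 := by
      rw [v.pord_eq_iff hX0, hX00]; rfl
    have hX'0 : X' ≠ 0 := by
      rintro rfl
      rw [zero_pow (pow_pos hℓ.pos j).ne'] at hX'
      exact hinj X hX0 hX'.symm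
    have h1 : ((ℓ ^ j : ℕ) : ℤ) * u.pord X' = (u.ram K : ℤ) * v.pord X := by
      rw [← u.pord_pow hX'0, hX', u.pord_algebraMap_eq (E := K)]
    rw [hvX, mul_zero] at h1
    have hℓj : ((ℓ ^ j : ℕ) : ℤ) ≠ 0 := by
      exact_mod_cast (pow_pos hℓ.pos j).ne'
    have huX' : u.pord X' = 0 := (mul_eq_zero.1 h1).resolve_left hℓj
    have huX'o : u.ord X' = 0 := by
      rw [u.ord_eq_pord hX'0, huX']; rfl
    set c := u.ev X' with hc
    have hc0 : c ≠ 0 := by
      intro h0
      have := (u.ev_eq_zero_iff huX'o.ge).1 h0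
      rw [huX'o] at this
      exact lt_irrefl _ this
    have hcX : c ^ (ℓ ^ j) = v.ev X := by
      rw [hc, ← u.ev_pow huX'o.ge, hX']
      apply u.ev_unique
      have h2 := v.ev_spec hneg
      rw [IsScalarTower.algebraMap_apply 𝕜 K K', ← map_sub, u.ord_algebraMap_eq (E := K)]
      exact nsmul_pos h2 (u.ram_pos).ne'
    have hcq : c ^ (q ^ r) = c := by
      have h2 := u.ev_comap (φ' ^ r) (NumM.pow_const φ' q hφ'c r) (f := X') (by
        rw [hur]; exact huX'o.ge)
      rw [NumM.pow_fix φ' hφX' r, hur] at h2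
      exact h2.symm
    have hqr : 1 < q ^ r := Nat.one_lt_pow hrpos.ne' (by omega)
    have hc1 : c ^ (q ^ r - 1) = 1 := by
      have h2 : c ^ (q ^ r - 1) * c = c := by
        rw [← pow_succ, Nat.sub_add_cancel hqr.le, hcq]
      exact mul_right_cancel₀ hc0 (by rw [h2, one_mul])
    have ho : orderOf c ∣ q ^ r - 1 := orderOf_dvd_of_pow_eq_one hc1
    have ho0 : 0 < orderOf c := Nat.pos_of_dvd_of_pos ho (by omega)
    obtain ⟨s, o', ho', hos⟩ := Nat.exists_eq_pow_mul_and_not_dvd ho0.ne' ℓ hℓ.one_lt.ne'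
    have hsj : j < s := by
      by_contra hcon
      push Not at hcon
      apply hvb
      right
      have ho'0 : 0 < o' := by
        rcases Nat.eq_zero_or_pos o' with h | h
        · subst h; exact absurd (dvd_zero ℓ) ho'
        · exact h
      refine ⟨o', ho'0, ((Nat.Prime.coprime_iff_not_dvd hℓ).2 ho').symm, ?_⟩
      have h2 : (v.ev X) ^ o' = 1 := by
        rw [← hcX, ← pow_mul]
        apply orderOf_dvd_iff_pow_eq_one.1
        rw [hos]
        exact mul_dvd_mul (pow_dvd_pow ℓ hcon) dvd_rfl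
      have h3 := v.ev_spec (f := X ^ o') (by
        rw [AddValuation.map_pow, hX00, nsmul_zero])
      rw [v.ev_pow hneg, h2, map_one] at h3
      exact h3
    have h2 : ℓ ^ j ∣ q ^ r - 1 := by
      refine dvd_trans ?_ ho
      rw [hos]
      exact Dvd.dvd.mul_right (pow_dvd_pow ℓ hsj.le) _
    have h3 := hjA j ((le_max_left _ _).trans hj) r hrpos h2
    exact_mod_cast h3

end MP7Z
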