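import Pool.Agent.Lib.MP_7f581e_Z.CS.Spec

/-!
# NumA: order of `q` modulo powers of `ℓ`
-/

set_option autoImplicit false

namespace MP7Z

theorem ctNumA : CStmtNumA := by
  intro ℓ q m hℓ hq hℓq hm
  set b := m.factorization ℓ with hb
  refine ⟨q ^ (ℓ ^ b), fun j hj r hr hdiv => ?_⟩
  by_contra hcon
  set g := Nat.gcd m r with hg
  have hg0 : 0 < g := Nat.gcd_pos_of_pos_left _ hm
  have hgr : g ∣ r := Nat.gcd_dvd_right _ _
  have hgm : g ∣ m := Nat.gcd_dvd_left _ _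
  obtain ⟨c, hc⟩ := hgr
  have hc0 : 0 < c := by
    rcases Nat.eq_zero_or_pos c with h | h
    · subst h; omega
    · exact h
  have hrg : r / g = c := by rw [hc, Nat.mul_div_cancel_left _ hg0]
  rw [hrg] at hcon
  -- r = ℓ^s * r'
  obtain ⟨s, r', hr', hrs⟩ := Nat.exists_eq_pow_mul_and_not_dvd hr.ne' ℓ hℓ.one_lt.ne'
  have hsb : s ≤ b := by
    have h1 : ℓ ^ s ∣ g * c := by rw [← hc, hrs]; exact dvd_mul_right _ _
    have h2 : (ℓ ^ s).Coprime c := Nat.Coprime.pow_left _ ((Nat.Prime.coprime_iff_not_dvd hℓ).2 hcon)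
    have h3 : ℓ ^ s ∣ g := h2.dvd_of_dvd_mul_right h1
    exact (hℓ.pow_dvd_iff_le_factorization hm.ne').1 (h3.trans hgm)
  set Q := q ^ (ℓ ^ s) with hQ
  have hQ1 : 1 ≤ Q := Nat.one_le_pow _ _ (by omega)
  have hqmod : q ≡ 1 [MOD ℓ] := by
    exact (Nat.modEq_iff_dvd' (by omega)).2 hℓq |>.symm
  have hQmod : Q ≡ 1 [MOD ℓ] := by
    have := hqmod.pow (ℓ ^ s)
    rwa [one_pow] at this
  have hgeom : (∑ i ∈ Finset.range r', Q ^ i) * (Q - 1) = Q ^ r' - 1 := by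
    obtain ⟨k, hk⟩ : ∃ k, Q = k + 1 := ⟨Q - 1, by omega⟩
    have h0 : ∀ n : ℕ, (∑ i ∈ Finset.range n, (k + 1) ^ i) * k + 1 = (k + 1) ^ n := by
      intro n
      induction n with
      | zero => simp
      | succ n ih =>
        rw [Finset.sum_range_succ, pow_succ, ← ih]
        have e := ih
        nlinarith [e]
    have h1 := h0 r'
    rw [hk, Nat.add_sub_cancel]
    omega
  have hsum : (∑ i ∈ Finset.range r', Q ^ i) ≡ r' [MOD ℓ] := by
    have h1 : (∑ i ∈ Finset.range r', Q ^ i) ≡ ∑ i ∈ Finset.range r', 1 [MOD ℓ] := by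
      apply Nat.ModEq.sum
      intro i _
      have := hQmod.pow i
      rwa [one_pow] at this
    simpa using h1
  have hcop : (ℓ ^ j).Coprime (∑ i ∈ Finset.range r', Q ^ i) := by
    apply Nat.Coprime.pow_left
    rw [Nat.Prime.coprime_iff_not_dvd hℓ]
    intro h
    exact hr' ((Nat.ModEq.dvd_iff hsum dvd_rfl).1 h)
  have hqr : q ^ r = Q ^ r' := by rw [hrs, pow_mul]
  rw [hqr, ← hgeom] at hdiv
  have h1 : ℓ ^ j ∣ Q - 1 := hcop.dvd_of_dvd_mul_left hdiv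
  have hQ2 : 2 ≤ Q := by
    have : ℓ ^ s ≠ 0 := (pow_pos hℓ.pos s).ne'
    calc 2 ≤ q := hq
      _ = q ^ 1 := (pow_one q).symm
      _ ≤ Q := Nat.pow_le_pow_right (by omega) (Nat.one_le_iff_ne_zero.2 this)
  have h2 : ℓ ^ j ≤ Q - 1 := Nat.le_of_dvd (by omega) h1
  have h3 : Q ≤ q ^ (ℓ ^ b) :=
    Nat.pow_le_pow_right (by omega) (Nat.pow_le_pow_right hℓ.pos hsb)
  have h4 : j < ℓ ^ j := Nat.lt_pow_self hℓ.one_lt
  omega

end MP7Z
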