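import Pool.Agent.Lib.MP_7f581e_Z.CS.Spec

/-!
# NumB: sum of a function with two periods
-/

set_option autoImplicit false

namespace MP7Z

theorem NumBM.period_mul (a : ℕ → ℤ) (m : ℕ) (h : ∀ i, a (i + m) = a i) (k i : ℕ) :
    a (i + k * m) = a i := by
  induction k with
  | zero => simp
  | succ k ih =>
    have e : i + (k + 1) * m = (i + k * m) + m := by ring
    rw [e, h, ih]

theorem NumBM.period_gcd (a : ℕ → ℤ) : ∀ (m r : ℕ), (∀ i, a (i + m) = a i) →
    (∀ i, a (i + r) = a i) → ∀ i, a (i + Nat.gcd m r) = a i := by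
  intro m r
  induction m, r using Nat.gcd.induction with
  | H0 n => intro _ h2 i; rw [Nat.gcd_zero_left]; exact h2 i
  | H1 m n hm ih =>
    intro h1 h2 i
    rw [Nat.gcd_rec]
    apply ih ?_ h1
    intro i
    have h3 := NumBM.period_mul a m h1 (n / m) (i + n % m)
    have e : i + n % m + n / m * m = i + n := by
      have := Nat.mod_add_div n m
      nlinarith
    rw [e, h2] at h3
    exact h3.symm

theorem NumBM.sum_blocks (a : ℕ → ℤ) (g : ℕ) (h : ∀ i, a (i + g) = a i) (k : ℕ) :
    ∑ i ∈ Finset.range (k * g), a i = k * ∑ i ∈ Finset.range g, a i := by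
  induction k with
  | zero => simp
  | succ k ih =>
    have e : (k + 1) * g = k * g + g := by ring
    rw [e, Finset.sum_range_add, ih]
    have h2 : ∑ i ∈ Finset.range g, a (k * g + i) = ∑ i ∈ Finset.range g, a i := by
      refine Finset.sum_congr rfl fun i _ => ?_
      rw [add_comm]
      exact NumBM.period_mul a g h k i
    rw [h2]
    push_cast
    ring

theorem ctNumB : CStmtNumB := by
  intro a m r hm hr h1 h2
  have hg0 : 0 < Nat.gcd m r := Nat.gcd_pos_of_pos_left _ hm
  obtain ⟨c, hc⟩ := Nat.gcd_dvd_left m r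
  obtain ⟨d, hd⟩ := Nat.gcd_dvd_right m r
  have hrd : r / Nat.gcd m r = d := Nat.div_eq_of_eq_mul_right hg0 hd
  have hper := NumBM.period_gcd a m r h1 h2
  have hsum : ∑ i ∈ Finset.range m, a i = c * ∑ i ∈ Finset.range (Nat.gcd m r), a i := by
    have h3 := NumBM.sum_blocks a (Nat.gcd m r) hper c
    have e : c * Nat.gcd m r = m := by rw [mul_comm]; exact hc.symm
    rw [e] at h3
    exact h3
  rw [hrd, hsum]
  have hr' : (r : ℤ) = (Nat.gcd m r : ℤ) * d := by exact_mod_cast hd
  have hm' : (m : ℤ) = (Nat.gcd m r : ℤ) * c := by exact_mod_cast hc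
  calc (r : ℤ) * (c * ∑ i ∈ Finset.range (Nat.gcd m r), a i)
      = ((Nat.gcd m r : ℤ) * d) * (c * ∑ i ∈ Finset.range (Nat.gcd m r), a i) := by rw [← hr']
    _ = ((Nat.gcd m r : ℤ) * c) * (d * ∑ i ∈ Finset.range (Nat.gcd m r), a i) := by ring
    _ = _ := by rw [← hm']

end MP7Z
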