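import Pool.Agent.Lib.MP_7f581e_Z.CS.SpecB

/-!
# Prescribed orders for open subgroups of `Gx`
-/

set_option autoImplicit false

namespace MP7Z

variable {p : ℕ} [Fact p.Prime] {Ω : Type} [Field Ω] [Algebra (ZMod p) Ω]

theorem PB_cst (τ : Ω ≃ₐ[ZMod p] Ω) {c : Ω} (hc : c ∈ Cst p Ω) : τ c ∈ Cst p Ω := by
  have hc' : c ∈ algebraicClosure (ZMod p) Ω := hc
  change τ c ∈ algebraicClosure (ZMod p) Ω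
  rw [mem_algebraicClosure_iff] at hc' ⊢
  exact IsAlgebraic.algHom (τ : Ω ≃ₐ[ZMod p] Ω).toAlgHom hc'

theorem PB_inv_apply (τ : Ω ≃ₐ[ZMod p] Ω) (f : Ω) : τ⁻¹ (τ f) = f := τ.symm_apply_apply f

theorem PB_apply_inv (τ : Ω ≃ₐ[ZMod p] Ω) (f : Ω) : τ (τ⁻¹ f) = f := τ.apply_symm_apply f

theorem PB_geo (τ : Ω ≃ₐ[ZMod p] Ω) {v : Ω ≃ₐ[ZMod p] Ω} (hv : v ∈ geo p Ω) :
    τ * v * τ⁻¹ ∈ geo p Ω := by
  intro c hc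
  change τ (v (τ⁻¹ c)) = c
  rw [hv _ (PB_cst τ⁻¹ hc), PB_apply_inv]

theorem PB_norm {H : Subgroup (Ω ≃ₐ[ZMod p] Ω)} {τ : Ω ≃ₐ[ZMod p] Ω} (hτ : τ ∈ H) {x' c : Ω}
    (hc : c ∈ Cst p Ω) (hx : τ⁻¹ x' = c * x') {h : Ω ≃ₐ[ZMod p] Ω}
    (hh : h ∈ H ⊓ Gx p x' ⊓ geo p Ω) : τ * h * τ⁻¹ ∈ H ⊓ Gx p x' ⊓ geo p Ω := by
  obtain ⟨⟨h1, h2⟩, h3⟩ := hh
  refine ⟨⟨H.mul_mem (H.mul_mem hτ h1) (H.inv_mem hτ), ?_⟩, PB_geo τ h3⟩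
  change τ * h * τ⁻¹ ∈ Gx p x'
  rw [mem_Gx]
  change τ (h (τ⁻¹ x')) = x'
  rw [hx, map_mul, h3 c hc, mem_Gx.1 h2, ← hx, PB_apply_inv]

/-- An automorphism normalizing the group preserves the fixed field. -/
theorem PB_pres {U : Subgroup (Ω ≃ₐ[ZMod p] Ω)} {K : IntermediateField (Cst p Ω) Ω}
    (hK : ∀ f, f ∈ K ↔ ∀ γ ∈ U, γ f = f) {τ : Ω ≃ₐ[ZMod p] Ω}
    (hτ : ∀ h ∈ U, τ⁻¹ * h * τ ∈ U) {f : Ω} (hf : f ∈ K) : τ f ∈ K := by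
  rw [hK] at hf ⊢
  intro γ hγ
  have h1 := hf _ (hτ γ hγ)
  change τ⁻¹ (γ (τ f)) = f at h1
  have h2 := congrArg τ h1
  rwa [PB_apply_inv] at h2

theorem ctPB (hP : PStmt) (hCst : CstStmt) (hLvl : LvlStmt) (hFrb : FrbKStmt) (hRot : CStmtRot)
    (hDen : CStmtDen) : CStmtPB := by
  intro p _ ℓ hℓ hne Ω _ _ _ x H P _ ρ N x' hx' K hK hK1 hK2 T hT D hD hDinv
  have hp : p.Prime := Fact.out
  obtain ⟨N', hr⟩ := hRot p ℓ hℓ hne Ω x H P ρ N x' hx'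
  obtain ⟨hcf, htr, -⟩ := (hLvl p Ω x' N'.stage).1 K hK
  haveI := hcf
  haveI hch : CharP (Cst p Ω) p := (Algebra.charP_iff (ZMod p) (Cst p Ω) p).1 inferInstance
  have hℓ0 : (ℓ : Cst p Ω) ≠ 0 := by
    intro h
    rw [CharP.cast_eq_zero_iff (Cst p Ω) p ℓ] at h
    exact hne ((Nat.prime_dvd_prime_iff_eq hp hℓ).1 h).symm
  haveI : NeZero (ℓ : Cst p Ω) := ⟨hℓ0⟩
  obtain ⟨ζ, hζ⟩ := HasEnoughRootsOfUnity.exists_primitiveRoot (Cst p Ω) ℓ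
  have hζ1 : (ζ : Ω) ^ ℓ = 1 := by
    rw [← SubmonoidClass.coe_pow, hζ.pow_eq_one]
    rfl
  have hζ0 : (ζ : Ω) ≠ 0 := by
    intro h
    rw [h, zero_pow hℓ.ne_zero] at hζ1
    exact zero_ne_one hζ1
  obtain ⟨δ, ⟨hδg, hδH, -⟩, hδx⟩ := hr (ζ : Ω) hζ1
  obtain ⟨φ, a, ha, hφc, hDG⟩ := hDen p Ω x' N'.stage (H ⊓ Gx p x') N'.le N'.opn
  have hφH : φ ∈ H := hDG.1.1
  have hφx : φ x' = x' := mem_Gx.1 hDG.1.2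
  have hφx' : φ⁻¹ x' = x' := by
    conv_lhs => rw [← hφx]
    exact PB_inv_apply φ x'
  have hδζ : δ (ζ : Ω) = ζ := hδg _ ζ.2
  have hδx' : δ⁻¹ x' = (ζ : Ω)⁻¹ * x' := by
    have h1 : δ ((ζ : Ω)⁻¹ * x') = x' := by
      rw [map_mul, map_inv₀, hδζ, hδx, inv_mul_cancel_left₀ hζ0]
    conv_lhs => rw [← h1]
    exact PB_inv_apply δ _
  have hζi : (ζ : Ω)⁻¹ ∈ Cst p Ω := inv_mem ζ.2
  -- the automorphisms normalize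
  have hφn : ∀ h ∈ H ⊓ Gx p x' ⊓ geo p Ω, φ⁻¹ * h * φ ∈ H ⊓ Gx p x' ⊓ geo p Ω := by
    intro h hh
    have h1 := PB_norm (τ := φ⁻¹) (inv_mem hφH) (c := 1) (one_mem _)
      (by rw [inv_inv, hφx, one_mul]) hh
    rwa [inv_inv] at h1
  have hφn' : ∀ h ∈ H ⊓ Gx p x' ⊓ geo p Ω, (φ⁻¹)⁻¹ * h * φ⁻¹ ∈ H ⊓ Gx p x' ⊓ geo p Ω := by
    intro h hh
    have h1 := PB_norm (τ := φ) hφH (c := 1) (one_mem _) (by rw [hφx', one_mul]) hh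
    rwa [inv_inv]
  have hδn : ∀ h ∈ H ⊓ Gx p x' ⊓ geo p Ω, δ⁻¹ * h * δ ∈ H ⊓ Gx p x' ⊓ geo p Ω := by
    intro h hh
    have h1 := PB_norm (τ := δ⁻¹) (inv_mem hδH) (c := (ζ : Ω)) ζ.2
      (by rw [inv_inv, hδx]) hh
    rwa [inv_inv] at h1
  have hδn' : ∀ h ∈ H ⊓ Gx p x' ⊓ geo p Ω, (δ⁻¹)⁻¹ * h * δ⁻¹ ∈ H ⊓ Gx p x' ⊓ geo p Ω := by
    intro h hh
    have h1 := PB_norm (τ := δ) hδH hζi hδx' hh
    rwa [inv_inv]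
  have hφK : ∀ f ∈ K, φ f ∈ K := fun f hf => PB_pres hK2 hφn hf
  have hφK' : ∀ f ∈ K, φ⁻¹ f ∈ K := fun f hf => PB_pres hK2 hφn' hf
  have hδK : ∀ f ∈ K, δ f ∈ K := fun f hf => PB_pres hK2 hδn hf
  have hδK' : ∀ f ∈ K, δ⁻¹ f ∈ K := fun f hf => PB_pres hK2 hδn' hf
  obtain ⟨φK, hφKe, hfrob⟩ := hFrb p Ω x' N'.stage K hK a ha φ hDG.1.2 hφc hφK hφK'
  let σ : K ≃ₐ[Cst p Ω] K :=
    { toFun := fun f => ⟨δ (f : Ω), hδK f f.2⟩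
      invFun := fun f => ⟨δ⁻¹ (f : Ω), hδK' f f.2⟩
      left_inv := fun f => Subtype.ext (PB_inv_apply δ f)
      right_inv := fun f => Subtype.ext (PB_apply_inv δ f)
      map_mul' := fun f g => Subtype.ext (map_mul δ (f : Ω) (g : Ω))
      map_add' := fun f g => Subtype.ext (map_add δ (f : Ω) (g : Ω))
      commutes' := fun c => Subtype.ext (hδg (c : Ω) c.2) }
  have hσ : ∀ f : K, ((σ f : K) : Ω) = δ (f : Ω) := fun f => rfl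
  have hφζ : φ (ζ : Ω) = ζ := N.mu _ hζ1 φ hφH
  -- the commutator
  have hc : δ * φ * δ⁻¹ * φ⁻¹ ∈ Fx p (K : Set Ω) := by
    rw [hK1]
    refine ⟨⟨H.mul_mem (H.mul_mem (H.mul_mem hδH hφH) (H.inv_mem hδH)) (H.inv_mem hφH), ?_⟩, ?_⟩
    · change δ * φ * δ⁻¹ * φ⁻¹ ∈ Gx p x'
      rw [mem_Gx]
      change δ (φ (δ⁻¹ (φ⁻¹ x'))) = x'
      rw [hφx', hδx', map_mul φ, map_inv₀ φ, hφζ, hφx, ← hδx', PB_apply_inv]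
    · intro c hc
      change δ (φ (δ⁻¹ (φ⁻¹ c))) = c
      have h1 : φ⁻¹ c ∈ Cst p Ω := PB_cst φ⁻¹ hc
      have h2 : δ⁻¹ (φ⁻¹ c) = φ⁻¹ c := (inv_mem hδg : δ⁻¹ ∈ geo p Ω) _ h1
      rw [h2, PB_apply_inv, hδg c hc]
  have hcomm : ∀ f : K, σ (φK f) = φK (σ f) := by
    intro f
    apply Subtype.ext
    rw [hσ, hφKe, hφKe, hσ]
    have h1 := hc (φ (δ (f : Ω))) (hφK _ (hδK _ f.2))
    change δ (φ (δ⁻¹ (φ⁻¹ (φ (δ (f : Ω)))))) = φ (δ (f : Ω)) at h1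
    rwa [PB_inv_apply, PB_inv_apply] at h1
  have hζq : ζ ^ (p ^ a) = ζ := by
    apply Subtype.ext
    rw [SubmonoidClass.coe_pow, ← hφc _ ζ.2, hφζ]
  obtain ⟨y, hy0, hyφ, hy⟩ := hP (Cst p Ω) K (p ^ a) φK hfrob ℓ hℓ hℓ0 ζ hζ hζq ⟨x', hK.mem⟩ htr
    (Subtype.ext (by rw [hφKe, hφx])) σ hcomm (Subtype.ext (by rw [hσ]; exact hδx)) T hT D
    (hDinv φK ⟨φ, hDG.1, hφKe⟩) hD
  refine ⟨y, hy0, ?_, hy⟩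
  intro γ hγ
  obtain ⟨u, hu, hug, i, hi⟩ := hDG.2 γ hγ {(y : Ω)}
  rw [hi _ (Finset.mem_singleton_self _)]
  have h1 : ∀ i : ℕ, (φ ^ i) (y : Ω) = y := by
    intro i
    induction i with
    | zero => rfl
    | succ i ih =>
      rw [pow_succ']
      change φ ((φ ^ i) (y : Ω)) = y
      rw [ih, ← hφKe, hyφ]
  rw [h1]
  exact (hK2 _).1 y.2 u ⟨hu, hug⟩

end MP7Z
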