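import Pool.Agent.Lib.MP_7f581e_Z.CS.Spec
import Pool.Agent.Lib.MP_7f581e_Z.FF.Pow

/-!
# PE: prescribed orders modulo `ℓ` by an invariant element
-/

set_option autoImplicit false

namespace MP7Z

namespace PEM

/-- restriction of a ring automorphism to a stable intermediate field -/
def resEq {𝕜 E : Type} [Field 𝕜] [Field E] [Algebra 𝕜 E] (K : IntermediateField 𝕜 E)
    (φ : E ≃+* E) (h : ∀ x ∈ K, φ x ∈ K) (h' : ∀ x ∈ K, φ.symm x ∈ K) : K ≃+* K where
  toFun x := ⟨φ x, h x x.2⟩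
  invFun x := ⟨φ.symm x, h' x x.2⟩
  left_inv x := Subtype.ext (φ.symm_apply_apply x)
  right_inv x := Subtype.ext (φ.apply_symm_apply x)
  map_mul' x y := Subtype.ext (map_mul φ (x : E) y)
  map_add' x y := Subtype.ext (map_add φ (x : E) y)

theorem resEq_pow {𝕜 E : Type} [Field 𝕜] [Field E] [Algebra 𝕜 E] (K : IntermediateField 𝕜 E)
    (φ : E ≃+* E) (h : ∀ x ∈ K, φ x ∈ K) (h' : ∀ x ∈ K, φ.symm x ∈ K) (n : ℕ) (x : K) :
    (((resEq K φ h h') ^ n) x : E) = (φ ^ n) (x : E) := by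
  induction n with
  | zero => simp
  | succ n ih =>
    rw [pow_succ', pow_succ', RingAut.mul_apply, RingAut.mul_apply, ← ih]
    rfl

theorem sep_res {𝕜 E : Type} [Field 𝕜] [Field E] [Algebra 𝕜 E] (K : IntermediateField 𝕜 E)
    (x : K) (h : Algebra.IsSeparable (IntermediateField.adjoin 𝕜 {(x : E)}) E) :
    Algebra.IsSeparable (IntermediateField.adjoin 𝕜 {x}) K := by
  have hl : IntermediateField.lift (IntermediateField.adjoin 𝕜 {x})
      = IntermediateField.adjoin 𝕜 {(x : E)} := IntermediateField.lift_adjoin_simple _ _ _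
  rw [← hl] at h
  have h1 : Algebra.IsSeparable (IntermediateField.adjoin 𝕜 {x}) E := by
    refine Algebra.IsSeparable.of_equiv_equiv
      (A₁ := IntermediateField.lift (IntermediateField.adjoin 𝕜 {x})) (B₁ := E)
      ((IntermediateField.liftAlgEquiv (IntermediateField.adjoin 𝕜 {x})).symm.toRingEquiv)
      (RingEquiv.refl E) ?_
    ext y
    obtain ⟨z, rfl⟩ := (IntermediateField.liftAlgEquiv (IntermediateField.adjoin 𝕜 {x})).surjective y
    simp
    rfl
  exact Algebra.isSeparable_tower_bot_of_isSeparable (IntermediateField.adjoin 𝕜 {x}) K E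

theorem pos_iff {𝕜 E K : Type} [Field 𝕜] [IsAlgClosed 𝕜] [Field E] [Algebra 𝕜 E]
    [Field K] [Algebra 𝕜 K] [IsCurveField 𝕜 K] [Algebra K E] [IsScalarTower 𝕜 K E]
    [Module.Finite K E] (w : Place 𝕜 E) (y : K) :
    0 < w.ord (algebraMap K E y) ↔ 0 < (w.res K).ord y := by
  by_cases hy : y = 0
  · subst hy
    rw [map_zero, AddValuation.map_zero, AddValuation.map_zero]
  · rw [w.ord_eq_pord ((map_ne_zero _).2 hy), (w.res K).ord_eq_pord hy,
      w.pord_algebraMap_eq (E := K)]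
    have hr : (0 : ℤ) < w.ram K := by exact_mod_cast w.ram_pos
    constructor
    · intro h
      have h1 : 0 < (w.ram K : ℤ) * (w.res K).pord y := by exact_mod_cast h
      have h2 : 0 < (w.res K).pord y := by
        by_contra h3
        push Not at h3
        nlinarith
      exact_mod_cast h2
    · intro h
      have h1 : 0 < (w.res K).pord y := by exact_mod_cast h
      have h2 : 0 < (w.ram K : ℤ) * (w.res K).pord y := mul_pos hr h1
      exact_mod_cast h2

theorem bad_iff {𝕜 E K : Type} [Field 𝕜] [IsAlgClosed 𝕜] [Field E] [Algebra 𝕜 E]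
    [Field K] [Algebra 𝕜 K] [IsCurveField 𝕜 K] [Algebra K E] [IsScalarTower 𝕜 K E]
    [Module.Finite K E] (w : Place 𝕜 E) (ℓ : ℕ) (X : K) :
    Bad ℓ (algebraMap K E X) w ↔ Bad ℓ X (w.res K) := by
  unfold Bad
  rw [pos_iff w X]
  refine or_congr Iff.rfl (exists_congr fun m => ?_)
  refine and_congr Iff.rfl (and_congr Iff.rfl ?_)
  have e : algebraMap K E (X ^ m - 1) = (algebraMap K E X) ^ m - 1 := by
    rw [map_sub, map_pow, map_one]
  rw [← e]
  exact pos_iff w _

theorem bad_comap {𝕜 E : Type} [Field 𝕜] [IsAlgClosed 𝕜] [Field E] [Algebra 𝕜 E]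
    {ℓ : ℕ} {X : E} {φ : E ≃+* E} (hX : φ X = X) (v : Place 𝕜 E) :
    Bad ℓ X (v.comap φ) ↔ Bad ℓ X v := by
  unfold Bad
  rw [Place.comap_ord, hX]
  refine or_congr Iff.rfl (exists_congr fun m => ?_)
  refine and_congr Iff.rfl (and_congr Iff.rfl ?_)
  rw [Place.comap_ord, map_sub, map_pow, map_one, hX]

theorem pow_fix {E : Type} [Field E] (φ : E ≃+* E) {x : E} (h : φ x = x) (n : ℕ) :
    (φ ^ n) x = x := by
  induction n with
  | zero => simp
  | succ n ih => rw [pow_succ', RingAut.mul_apply, ih, h]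

end PEM

open Polynomial in
theorem ctPE (hP : PStmt) (hFxd : CStmtFxd) (hTra : CStmtTra) : CStmtPE := by
  classical
  intro 𝕜 E Q _ _ _ _ _ _ _ ℓ q act cj φ X hℓ hℓ0 H k hk D hfin hDact hDφ
  obtain ⟨hcurve, hfinite, -, -, -⟩ := hFxd 𝕜 E Q act H.inj
  haveI := hcurve
  haveI := hfinite
  obtain ⟨hconj, hram, hover⟩ := hTra 𝕜 E Q act H.inj
  set K := fxd act with hK
  have hφK : ∀ x ∈ K, φ x ∈ K := by
    intro x hx
    rw [hK, mem_fxd] at hx ⊢
    intro s
    have h1 := H.comm (cj.symm s) x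
    rw [hx, MulEquiv.apply_symm_apply] at h1
    exact h1.symm
  have hφK' : ∀ x ∈ K, φ.symm x ∈ K := by
    intro x hx
    rw [hK, mem_fxd] at hx ⊢
    intro s
    apply φ.injective
    rw [H.comm, RingEquiv.apply_symm_apply, hx]
  set φK := PEM.resEq K φ hφK hφK' with hφKdef
  have hφKp : ∀ (n : ℕ) (x : K), ((φK ^ n) x : E) = (φ ^ n) (x : E) :=
    PEM.resEq_pow K φ hφK hφK'
  have hφK1 : ∀ x : K, (φK x : E) = φ (x : E) := fun _ => rfl
  have hXmem : X ∈ K := by
    rw [hK, mem_fxd]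
    exact H.actX
  set XK : K := ⟨X, hXmem⟩ with hXK
  have hXKcoe : algebraMap K E XK = X := rfl
  have htrK : Transcendental 𝕜 XK := by
    intro h
    apply H.tr
    exact h.algebraMap (A := E)
  have hφXK : φK XK = XK := Subtype.ext H.frobX
  -- Frobenius on K
  have hfrob : IsFrob 𝕜 q φK := by
    refine ⟨H.frob.primePow, H.frob.card, ?_, ?_, ?_⟩
    · intro c
      apply Subtype.ext
      exact H.frob.frob c
    · intro f
      obtain ⟨n, hn, h⟩ := H.frob.fin (f : E)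
      refine ⟨n, hn, Subtype.ext ?_⟩
      rw [hφKp, h]
    · exact ⟨XK, hφXK, htrK, PEM.sep_res K XK H.sep⟩
  have hfrobk : IsFrob 𝕜 (q ^ k) (φK ^ k) := tPow 𝕜 K q φK hfrob k hk
  -- root of unity
  obtain ⟨ζ, hζ⟩ : ∃ ζ : 𝕜, IsPrimitiveRoot ζ ℓ := by
    haveI : NeZero (ℓ : 𝕜) := ⟨hℓ0⟩
    have hdeg : (cyclotomic ℓ 𝕜).degree ≠ 0 := by
      rw [degree_cyclotomic]
      exact_mod_cast (Nat.totient_pos.2 hℓ.pos).ne'
    obtain ⟨ζ, hζ⟩ := IsAlgClosed.exists_root (cyclotomic ℓ 𝕜) hdeg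
    exact ⟨ζ, isRoot_cyclotomic_iff.1 hζ⟩
  have hζq : ζ ^ q = ζ := H.mu ζ hζ.pow_eq_one
  have hζqk : ∀ n : ℕ, ζ ^ (q ^ n) = ζ := by
    intro n
    induction n with
    | zero => simp
    | succ n ih => rw [pow_succ, pow_mul, ih, hζq]
  obtain ⟨σ, hσX, hσact, hσφ⟩ := H.rot ζ hζ.pow_eq_one
  have hσK : ∀ x ∈ K, (σ : E ≃+* E) x ∈ K := by
    intro x hx
    rw [hK, mem_fxd] at hx ⊢
    intro s
    have h1 := hσact s x
    rw [hx] at h1
    exact h1.symm
  have hσK' : ∀ x ∈ K, (σ : E ≃+* E).symm x ∈ K := by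
    intro x hx
    rw [hK, mem_fxd] at hx ⊢
    intro s
    apply σ.injective
    rw [hσact]
    have h1 : σ ((σ : E ≃+* E).symm x) = x := (σ : E ≃+* E).apply_symm_apply x
    rw [h1, hx]
  let σK : K ≃ₐ[𝕜] K := AlgEquiv.ofRingEquiv (f := PEM.resEq K (σ : E ≃+* E) hσK hσK') (by
    intro c
    apply Subtype.ext
    exact σ.commutes c)
  have hσKc : ∀ x : K, (σK x : E) = σ (x : E) := fun _ => rfl
  have hσφn : ∀ (n : ℕ) (f : E), σ ((φ ^ n) f) = (φ ^ n) (σ f) := by
    intro n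
    induction n with
    | zero => intro f; simp
    | succ n ih => intro f; rw [pow_succ', RingAut.mul_apply, RingAut.mul_apply, hσφ, ih]
  -- the divisor on K
  choose W hW using hover
  have hDmod : ∀ w w' : Place 𝕜 E, Bad ℓ X w → w.res K = w'.res K → (ℓ : ℤ) ∣ D w' - D w := by
    intro w w' hb h
    obtain ⟨s, rfl⟩ := hconj w w' h
    exact hDact w hb s
  have hbadW : ∀ u : Place 𝕜 K, Bad ℓ XK u ↔ Bad ℓ X (W u) := by
    intro u
    have h1 := PEM.bad_iff (K := K) (W u) ℓ XK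
    rw [hW, hXKcoe] at h1
    exact h1.symm
  let D₀ : Place 𝕜 K → ℤ := fun u => if Bad ℓ XK u then D (W u) % ℓ else 0
  have hD₀ : ∀ u, Bad ℓ XK u → (ℓ : ℤ) ∣ D₀ u - D (W u) := by
    intro u hu
    simp only [D₀, if_pos hu]
    exact ⟨-(D (W u) / ℓ), by have := Int.emod_add_mul_ediv (D (W u)) ℓ; linarith⟩
  have hℓpos : (0 : ℤ) < ℓ := by exact_mod_cast hℓ.pos
  have hD₀inv : ∀ u : Place 𝕜 K, D₀ (u.comap (φK ^ k)) = D₀ u := by
    intro u
    have hb := PEM.bad_comap (ℓ := ℓ) (PEM.pow_fix φK hφXK k) u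
    by_cases hu : Bad ℓ XK u
    · have hu' := hb.2 hu
      have hres : ((W u).comap (φ ^ k)).res K = u.comap (φK ^ k) := by
        have h1 := ((W u).res_comap (E := K) (φ ^ k) (φK ^ k) (fun f => (hφKp k f).symm)).1
        rw [hW] at h1
        exact h1
      have hbW : Bad ℓ X (W u) := (hbadW u).1 hu
      have hbW' : Bad ℓ X ((W u).comap (φ ^ k)) :=
        (PEM.bad_comap (PEM.pow_fix φ H.frobX k) _).2 hbW
      have h1 := hDφ (W u) hbW
      have h2 := hDmod ((W u).comap (φ ^ k)) (W (u.comap (φK ^ k))) hbW'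
        (by rw [hres, hW])
      simp only [D₀, if_pos hu, if_pos hu']
      have h3 : (ℓ : ℤ) ∣ D (W (u.comap (φK ^ k))) - D (W u) := by
        have := dvd_add h2 h1
        have e : D (W (u.comap (φK ^ k))) - D ((W u).comap (φ ^ k))
            + (D ((W u).comap (φ ^ k)) - D (W u)) = D (W (u.comap (φK ^ k))) - D (W u) := by ring
        rwa [e] at this
      exact Int.emod_eq_emod_iff_emod_sub_eq_zero.2 (Int.emod_eq_zero_of_dvd h3)
    · have hu' : ¬ Bad ℓ XK (u.comap (φK ^ k)) := fun h => hu (hb.1 h)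
      simp only [D₀, if_neg hu, if_neg hu']
  have hD₀fin : {u | D₀ u ≠ 0}.Finite := by
    refine (hfin.image (fun w => w.res K)).subset ?_
    intro u hu
    have hu1 : Bad ℓ XK u := by
      by_contra h
      apply hu
      simp only [D₀, if_neg h]
    refine ⟨W u, ⟨(hbadW u).1 hu1, ?_⟩, hW u⟩
    intro h
    apply hu
    simp only [D₀, if_pos hu1, h]
    exact Int.zero_emod _
  obtain ⟨y, hy0, hyφ, hy⟩ := hP 𝕜 K (q ^ k) (φK ^ k) hfrobk ℓ hℓ hℓ0 ζ hζ (hζqk k) XK htrK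
    (PEM.pow_fix φK hφXK k) σK
    (by
      intro f
      apply Subtype.ext
      rw [hσKc, hφKp, hφKp, hσKc, hσφn])
    (by
      apply Subtype.ext
      exact hσX)
    ∅ Set.finite_empty D₀ hD₀inv hD₀fin
  refine ⟨(y : E), ?_, ?_, ?_, ?_⟩
  · intro h
    exact hy0 (Subtype.ext h)
  · exact mem_fxd.1 y.2
  · rw [← hφKp, hyφ]
  · intro v hv
    have hr : v.ram K = 1 := hram v (fun s hs => H.neu v hv s hs)
    have h1 : v.pord (y : E) = (v.res K).pord y := by
      have := v.pord_algebraMap_eq (E := K) y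
      rw [hr] at this
      simpa using this
    have hb : Bad ℓ XK (v.res K) := (PEM.bad_iff (K := K) v ℓ XK).1 hv
    have h2 := hy (v.res K) (Or.inr hb)
    have h3 := hD₀ (v.res K) hb
    have h4 := hDmod v (W (v.res K)) hv (by rw [hW])
    rw [h1]
    have e : (v.res K).pord y - D v = ((v.res K).pord y - D₀ (v.res K))
        + (D₀ (v.res K) - D (W (v.res K))) + (D (W (v.res K)) - D v) := by ring
    rw [e]
    exact dvd_add (dvd_add h2 h3) h4

end MP7Z
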