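import Pool.Agent.Lib.MP_7f581e_Z.CS.SpecB
import Pool.Agent.Lib.MP_7f581e_Z.BR.BC

/-!
# Adjunction of an `ℓ`-th root of `x`
-/

set_option autoImplicit false

namespace MP7Z

variable {p : ℕ} [Fact p.Prime] {Ω : Type} [Field Ω] [Algebra (ZMod p) Ω]

theorem Rot_mem_cst {ζ : Ω} {n : ℕ} (hn : 0 < n) (h : ζ ^ n = 1) : ζ ∈ Cst p Ω := by
  change ζ ∈ algebraicClosure (ZMod p) Ω
  rw [mem_algebraicClosure_iff]
  refine IsAlgebraic.of_pow hn ?_
  rw [h]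
  exact isAlgebraic_one

theorem Rot_pow_apply {γ : Ω ≃ₐ[ZMod p] Ω} {ζ x' : Ω} (hζ : γ ζ = ζ) (hx : γ x' = ζ * x') (k : ℕ) :
    (γ ^ k) x' = ζ ^ k * x' := by
  induction k with
  | zero => simp
  | succ k ih =>
    rw [pow_succ']
    change γ ((γ ^ k) x') = _
    rw [ih, map_mul, map_pow, hζ, hx, pow_succ]
    ring

theorem ctRot (hCst : CstStmt) (hLvl : LvlStmt) (hBel : BelStmt) (hAbv : AbvStmt)
    (hKum : KumRStmt) (hBC : BCStmt) : CStmtRot := by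
  intro p _ ℓ hℓ hne Ω _ _ x H P _ ρ N x' hx'
  have hp : p.Prime := Fact.out
  have hcop : ℓ.Coprime p := (Nat.coprime_primes hℓ hp).2 hne
  obtain ⟨hst', hle, hbad, -⟩ := hBC p Ω x N.stage x' ℓ hcop hx'
  refine ⟨⟨hst', inf_le_right, ?_, ?_, ?_, ?_, ?_⟩, ?_⟩
  · obtain ⟨S, hS⟩ := N.opn
    exact ⟨S, fun γ hγ h => ⟨hS γ (hle hγ) h, hγ⟩⟩
  · intro ζ hζ γ hγ
    exact N.mu ζ hζ γ hγ.1
  · intro V hV hVx γ hγ hγI
    have h1 : V.valuation x < 1 := by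
      rw [← hx', map_pow]
      exact pow_lt_one₀ zero_le' hVx hℓ.ne_zero
    obtain ⟨a, ha, haH⟩ := N.zero V hV h1 γ (hle hγ) hγI
    exact ⟨a, ha, haH, pow_mem hγ a⟩
  · obtain ⟨S, hS⟩ := N.fin
    refine ⟨S, fun γ hγ => ?_⟩
    exact hS ⟨γ, γ.2.1⟩ hγ
  · intro V hV hb γ hγ
    exact N.neu V hV (hbad ℓ V hb) ⟨γ, γ.2.1⟩ hγ
  · -- the rotation
    intro ζ hζ
    haveI : IsAlgClosed (Cst p Ω) := hCst p Ω x N.stage
    have hK := BC_isLevel (p := p) x x 1 (pow_one x)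
    obtain ⟨hcf, htr, -⟩ := (hLvl p Ω x N.stage).1 _ hK
    have htr' : Transcendental (Cst p Ω) x := by
      intro h
      apply htr
      exact (isAlgebraic_algebraMap_iff (R := Cst p Ω)
        (A := Ω) (S := IntermediateField.adjoin (Cst p Ω) {x}) Subtype.val_injective).1 h
    obtain ⟨v, hv, -⟩ := exists_place_zero htr'
    rw [Place.oz_eq_pord] at hv
    obtain ⟨V, hV, hb⟩ := hAbv p Ω x N.stage _ hK v
    obtain ⟨v₀, -, h2, h3⟩ := hBel p Ω x N.stage _ hK V hV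
    have hv₀ := h2 v hb
    have hg0 : IntermediateField.AdjoinSimple.gen (Cst p Ω) x ≠ 0 := by
      intro h0
      rw [h0] at hv
      simp [Place.pord] at hv
    have hVx : V.valuation x < 1 := by
      have h4 : 0 < v.ord (IntermediateField.AdjoinSimple.gen (Cst p Ω) x) := by
        rw [v.ord_eq_pord hg0, hv]
        exact_mod_cast one_pos
      rw [hv₀, h3] at h4
      exact h4
    obtain ⟨γ₀, ⟨hγK, hγD⟩, hγx'⟩ := hKum p Ω x N.stage _ hK V hV v hb ℓ hℓ hne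
      (IntermediateField.AdjoinSimple.gen (Cst p Ω) x) hg0 (by
        rw [hv]
        intro h
        have h5 := Int.natAbs_dvd_natAbs.2 h
        rw [Int.natAbs_natCast, Int.natAbs_one, Nat.dvd_one] at h5
        exact hℓ.one_lt.ne' h5) x' hx' ζ hζ
    have hγC : γ₀ ∈ geo p Ω := fun c hc =>
      hγK c ((IntermediateField.adjoin (Cst p Ω) {x}).algebraMap_mem (⟨c, hc⟩ : Cst p Ω))
    have hγI : γ₀ ∈ Inert p V := ⟨hγC, hγD⟩
    have hγx : γ₀ ∈ Gx p x := by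
      rw [mem_Gx]
      exact hγK x hK.mem
    obtain ⟨a, ha, haH⟩ := N.zero V hV hVx γ₀ hγx hγI
    obtain ⟨b, -, hab⟩ := Nat.exists_mul_mod_eq_one_of_coprime ha hℓ.one_lt
    have hu : γ₀ ^ (a * b) ∈ H := by
      rw [pow_mul]
      exact pow_mem haH b
    refine ⟨γ₀ ^ (a * b), ⟨pow_mem hγC _, hu, ?_⟩, ?_⟩
    · exact N.neu V hV (Or.inl hVx) ⟨_, hu⟩ (pow_mem hγI _)
    · rw [Rot_pow_apply (hγC ζ (Rot_mem_cst hℓ.pos hζ)) hγx']
      have h6 : ζ ^ (a * b) = ζ := by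
        rw [pow_eq_pow_mod (a * b) hζ, hab, pow_one]
      rw [h6]

end MP7Z
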