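import Pool.Agent.Lib.MP_7f581e_Z.CS.Spec

/-!
# CS/TL: crossed homomorphisms on central extensions of l-groups
-/

set_option autoImplicit false

namespace MP7Z

open Finset

namespace TL_

/-! ### Group theory -/

section grp

variable {Q : Type} [Group Q]

theorem prime_index {ℓ : ℕ} (hℓ : ℓ.Prime) (R : Subgroup Q) (hR : R.Normal) (hidx : R.index = ℓ)
    {s₀ : Q} (hs₀ : s₀ ∉ R) :
    (∀ s : Q, ∃ r ∈ R, ∃ i : ℤ, s = r * s₀ ^ i) ∧ (∀ i : ℤ, s₀ ^ i ∈ R → (ℓ : ℤ) ∣ i) ∧
      s₀ ^ ℓ ∈ R := by
  have : Fact ℓ.Prime := ⟨hℓ⟩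
  have hcard : Nat.card (Q ⧸ R) = ℓ := hidx
  have hne : (QuotientGroup.mk s₀ : Q ⧸ R) ≠ 1 := by
    rwa [Ne, QuotientGroup.eq_one_iff]
  have htop := zpowers_eq_top_of_prime_card hcard hne
  have hpow : (QuotientGroup.mk s₀ : Q ⧸ R) ^ ℓ = 1 := by
    rw [← hcard]
    exact pow_card_eq_one'
  have hord : orderOf (QuotientGroup.mk s₀ : Q ⧸ R) = ℓ := orderOf_eq_prime hpow hne
  refine ⟨?_, ?_, ?_⟩
  · intro s
    have h1 : (QuotientGroup.mk s : Q ⧸ R) ∈ Subgroup.zpowers (QuotientGroup.mk s₀ : Q ⧸ R) := by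
      rw [htop]
      trivial
    obtain ⟨i, hi⟩ := Subgroup.mem_zpowers_iff.1 h1
    refine ⟨s * (s₀ ^ i)⁻¹, ?_, i, by group⟩
    rw [← QuotientGroup.eq_one_iff, QuotientGroup.mk_mul, QuotientGroup.mk_inv,
      QuotientGroup.mk_zpow, hi, mul_inv_cancel]
  · intro i hi
    rw [← hord, orderOf_dvd_iff_zpow_eq_one, ← QuotientGroup.mk_zpow, QuotientGroup.eq_one_iff]
    exact hi
  · rw [← QuotientGroup.eq_one_iff, QuotientGroup.mk_pow, hpow]

/-- iterated conjugation -/
theorem conj_pow {Y G : Type} [Group Y] [Group G] (N : Subgroup G) (hN : N.Normal) (g : G)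
    (τ : N →* Y) (y : Y)
    (h : ∀ n : N, y * τ n = τ ⟨g * n * g⁻¹, hN.conj_mem n n.2 g⟩ * y) (k : ℕ) (n : N) :
    y ^ k * τ n = τ ⟨g ^ k * n * (g ^ k)⁻¹, hN.conj_mem n n.2 (g ^ k)⟩ * y ^ k := by
  induction k generalizing n with
  | zero =>
    have e : (⟨g ^ 0 * n * (g ^ 0)⁻¹, hN.conj_mem n n.2 (g ^ 0)⟩ : N) = n := by
      apply Subtype.ext
      simp
    rw [e]
    simp
  | succ k ih =>
    rw [pow_succ, mul_assoc, h n, ← mul_assoc, ih, mul_assoc]
    congr 2
    apply Subtype.ext
    change g ^ k * (g * n * g⁻¹) * (g ^ k)⁻¹ = g ^ (k + 1) * n * (g ^ (k + 1))⁻¹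
    rw [pow_succ]
    group

end grp

/-! ### The semidirect product -/

section sd

variable {𝕜 E : Type} [Field 𝕜] [Field E] [Algebra 𝕜 E] {Q : Type} [Group Q]

/-- the action on the units -/
def Phi (act : Q →* (E ≃ₐ[𝕜] E)) : Q →* MulAut Eˣ where
  toFun s := Units.mapEquiv (act s).toRingEquiv.toMulEquiv
  map_one' := by
    apply MulEquiv.ext
    intro u
    apply Units.ext
    change act 1 (u : E) = u
    rw [map_one]
    rfl
  map_mul' s r := by
    apply MulEquiv.ext
    intro u
    apply Units.ext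
    change act (s * r) (u : E) = act s (act r (u : E))
    rw [map_mul]
    rfl

theorem Phi_val (act : Q →* (E ≃ₐ[𝕜] E)) (s : Q) (u : Eˣ) : ((Phi act s u : Eˣ) : E) = act s u :=
  rfl

/-- the semidirect product -/
abbrev SD (act : Q →* (E ≃ₐ[𝕜] E)) : Type := Eˣ ⋊[Phi act] Q

theorem inl_mul (act : Q →* (E ≃ₐ[𝕜] E)) (u : Eˣ) (z : SD act) (h : Phi act z.right u = u) :
    SemidirectProduct.inl u * z = z * SemidirectProduct.inl u := by
  apply SemidirectProduct.ext
  · rw [SemidirectProduct.mul_left, SemidirectProduct.mul_left, SemidirectProduct.left_inl,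
      SemidirectProduct.right_inl, map_one, h]
    exact mul_comm _ _
  · rw [SemidirectProduct.mul_right, SemidirectProduct.mul_right, SemidirectProduct.right_inl,
      one_mul, mul_one]

theorem fixed_of_comm (act : Q →* (E ≃ₐ[𝕜] E)) (u z : SD act) (hu : u.right = 1)
    (h : u * z = z * u) : Phi act z.right u.left = u.left := by
  have h1 := congrArg SemidirectProduct.left h
  rw [SemidirectProduct.mul_left, SemidirectProduct.mul_left, hu, map_one] at h1
  change u.left * z.left = _ at h1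
  rw [mul_comm] at h1
  exact (mul_left_cancel h1).symm

theorem eq_inl (act : Q →* (E ≃ₐ[𝕜] E)) (u : SD act) (hu : u.right = 1) :
    u = SemidirectProduct.inl u.left := by
  apply SemidirectProduct.ext
  · rw [SemidirectProduct.left_inl]
  · rw [SemidirectProduct.right_inl, hu]

theorem inl_mul_pow (act : Q →* (E ≃ₐ[𝕜] E)) (u : Eˣ) (z : SD act) (k : ℕ) :
    (SemidirectProduct.inl u * z) ^ k
      = SemidirectProduct.inl (∏ i ∈ range k, Phi act (z.right ^ i) u) * z ^ k := by
  induction k with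
  | zero => simp
  | succ k ih =>
    rw [pow_succ, ih, Finset.prod_range_succ, map_mul, pow_succ]
    have h1 : z ^ k * SemidirectProduct.inl u
        = SemidirectProduct.inl (Phi act (z.right ^ k) u) * z ^ k := by
      apply SemidirectProduct.ext
      · rw [SemidirectProduct.mul_left, SemidirectProduct.mul_left, SemidirectProduct.left_inl,
          SemidirectProduct.left_inl, SemidirectProduct.right_inl, map_one]
        have h2 : (z ^ k).right = z.right ^ k := map_pow SemidirectProduct.rightHom z k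
        rw [h2]
        exact mul_comm _ _
      · rw [SemidirectProduct.mul_right, SemidirectProduct.mul_right,
          SemidirectProduct.right_inl, SemidirectProduct.right_inl, mul_one, one_mul]
    rw [mul_assoc, ← mul_assoc (z ^ k), h1]
    simp only [mul_assoc]

end sd

/-! ### The induction step -/

section step

variable {𝕜 E : Type} [Field 𝕜] [IsAlgClosed 𝕜] [Field E] [Algebra 𝕜 E] [IsCurveField 𝕜 E]

theorem act_conj {Q : Type} [Group Q] (act : Q →* (E ≃ₐ[𝕜] E)) (s r : Q) (z : E) :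
    (act s).symm (act (s * r * s⁻¹) z) = act r ((act s).symm z) := by
  rw [map_mul, map_mul, map_inv]
  change (act s).symm ((act s) ((act r) ((act s).symm z))) = _
  rw [AlgEquiv.symm_apply_apply]

theorem step (h90 : CStmtH90f) (hNrm : CStmtNrm) (hExt : CStmtExt) (X : E)
    (hX : Transcendental 𝕜 X) (hsep : Algebra.IsSeparable (IntermediateField.adjoin 𝕜 {X}) E)
    {ℓ : ℕ} (hℓ : ℓ.Prime) {Q : Type} [Group Q] [Finite Q] (act : Q →* (E ≃ₐ[𝕜] E))
    (hinj : Function.Injective act) (hactX : ∀ s, act s X = X) {Q' : Type} [Group Q']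
    (f : Q' →* Q) (hf : Function.Surjective f) (hcen : ∀ a ∈ f.ker, ∀ b : Q', a * b = b * a)
    (jj : f.ker →* 𝕜ˣ) (R : Subgroup Q) (hR : R.Normal) (hidx : R.index = ℓ)
    (t₁ : R.comap f → E) (ht0 : ∀ x, t₁ x ≠ 0)
    (htm : ∀ x y : R.comap f, t₁ (x * y) = t₁ x * act (f x) (t₁ y))
    (htj : ∀ (a : f.ker) (ha : (a : Q') ∈ R.comap f), t₁ ⟨a, ha⟩ = algebraMap 𝕜 E (jj a)) :
    ∃ t : Q' → E, (∀ g, t g ≠ 0) ∧ (∀ g h, t (g * h) = t g * act (f g) (t h)) ∧
      ∀ a : f.ker, t a = algebraMap 𝕜 E (jj a) := by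
  classical
  have hN : (R.comap f).Normal := inferInstance
  obtain ⟨g, hg⟩ : ∃ g : Q', f g ∉ R := by
    by_contra hcon
    push Not at hcon
    have htop : R = ⊤ := by
      rw [eq_top_iff]
      intro s _
      obtain ⟨x, rfl⟩ := hf s
      exact hcon x
    rw [htop, Subgroup.index_top] at hidx
    exact hℓ.one_lt.ne hidx
  obtain ⟨hrep, hdvd, hgl⟩ := prime_index hℓ R hR hidx hg
  let cj : R.comap f → R.comap f := fun x => ⟨g * x * g⁻¹, hN.conj_mem x x.2 g⟩
  have hcjf : ∀ x : R.comap f, f (cj x : Q') = f g * f x * (f g)⁻¹ := by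
    intro x
    change f (g * x * g⁻¹) = _
    rw [map_mul, map_mul, map_inv]
  have hcjm : ∀ x y : R.comap f, cj (x * y) = cj x * cj y := by
    intro x y
    apply Subtype.ext
    change g * (x * y : Q') * g⁻¹ = (g * x * g⁻¹) * (g * y * g⁻¹)
    group
  -- the crossed homomorphism κ
  let κ : R.comap f → E := fun x => (act (f g)).symm (t₁ (cj x)) / t₁ x
  have hκ0 : ∀ x, κ x ≠ 0 := fun x =>
    div_ne_zero ((map_ne_zero_iff _ (act (f g)).symm.injective).2 (ht0 _)) (ht0 x)
  have hκm : ∀ x y : R.comap f, κ (x * y) = κ x * act (f x) (κ y) := by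
    intro x y
    change (act (f g)).symm (t₁ (cj (x * y))) / t₁ (x * y) = _
    rw [hcjm, htm, htm, map_mul, hcjf, act_conj]
    change _ = (act (f g)).symm (t₁ (cj x)) / t₁ x
      * act (f x) ((act (f g)).symm (t₁ (cj y)) / t₁ y)
    rw [map_div₀, mul_div_mul_comm]
  have hκ1 : ∀ x : R.comap f, f x = 1 → κ x = 1 := by
    intro x hx
    have hxk : (x : Q') ∈ f.ker := hx
    have h1 : cj x = x := by
      apply Subtype.ext
      change g * (x : Q') * g⁻¹ = x
      rw [← hcen x hxk g, mul_inv_cancel_right]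
    change (act (f g)).symm (t₁ (cj x)) / t₁ x = 1
    have h2 : t₁ x = algebraMap 𝕜 E (jj ⟨x, hxk⟩) := htj ⟨x, hxk⟩ x.2
    have h3 : (act (f g)).symm (t₁ x) = t₁ x := by
      rw [h2]
      exact (act (f g)).symm.commutes _
    rw [h1, h3, div_self (ht0 x)]
  have hκf : ∀ x y : R.comap f, f x = f y → κ x = κ y := by
    intro x y hxy
    have h1 : y = x * (x⁻¹ * y) := by group
    have h2 : f ((x⁻¹ * y : R.comap f) : Q') = 1 := by
      change f ((x : Q')⁻¹ * y) = 1
      rw [map_mul, map_inv, hxy, inv_mul_cancel]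
    rw [h1, hκm, hκ1 _ h2, map_one, mul_one]
  have hsec : ∀ r : R, ∃ x : R.comap f, f x = r := by
    intro r
    obtain ⟨x, hx⟩ := hf r
    refine ⟨⟨x, ?_⟩, hx⟩
    change f x ∈ R
    rw [hx]
    exact r.2
  choose sec hsec' using hsec
  let actR : R →* (E ≃+* E) :=
    { toFun := fun r => (act r).toRingEquiv
      map_one' := by
        apply RingEquiv.ext
        intro z
        change act 1 z = z
        rw [map_one]
        rfl
      map_mul' := by
        intro r r'
        apply RingEquiv.ext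
        intro z
        change act (r * r') z = act r (act r' z)
        rw [map_mul]
        rfl }
  have hactR : ∀ (r : R) (z : E), actR r z = act r z := fun _ _ => rfl
  have hactRinj : Function.Injective actR := by
    intro r r' h
    apply Subtype.ext
    apply hinj
    apply AlgEquiv.ext
    intro z
    have h1 := congrArg (fun e : E ≃+* E => e z) h
    exact h1
  obtain ⟨b, hb0, hb⟩ := h90 E R actR hactRinj (fun r => κ (sec r)) (fun r => hκ0 _) (by
    intro r s
    rw [hactR]
    have h1 : κ (sec (r * s)) = κ (sec r * sec s) := by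
      apply hκf
      rw [hsec']
      change (r * s : Q) = f ((sec r : Q') * (sec s : Q'))
      rw [map_mul, hsec', hsec']
    rw [h1, hκm, hsec'])
  have hb' : ∀ x : R.comap f, act (f x) b = κ x * b := by
    intro x
    have h1 := hb ⟨f x, x.2⟩
    rw [hactR] at h1
    rw [h1]
    congr 1
    apply hκf
    rw [hsec']
  -- the semidirect product
  let τ : R.comap f →* SD act := MonoidHom.mk' (fun x => ⟨Units.mk0 (t₁ x) (ht0 x), f x⟩) (by
    intro x y
    apply SemidirectProduct.ext
    · apply Units.ext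
      exact htm x y
    · exact map_mul f (x : Q') y)
  have hτl : ∀ x, ((τ x).left : E) = t₁ x := fun _ => rfl
  have hτr : ∀ x, (τ x).right = f x := fun _ => rfl
  have hab0 : act (f g) b ≠ 0 := (map_ne_zero_iff _ (act (f g)).injective).2 hb0
  let y₀ : SD act := ⟨(Units.mk0 (act (f g) b) hab0)⁻¹, f g⟩
  have hconj0 : ∀ x : R.comap f, y₀ * τ x = τ (cj x) * y₀ := by
    intro x
    apply SemidirectProduct.ext
    · apply Units.ext
      change (act (f g) b)⁻¹ * act (f g) (t₁ x)
        = t₁ (cj x) * act (f (cj x)) ((act (f g) b)⁻¹)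
      have h1 : act (f (cj x)) (act (f g) b)
          = (t₁ (cj x) / act (f g) (t₁ x)) * act (f g) b := by
        have h2 : act (f (cj x)) (act (f g) b) = act (f g) (act (f x) b) := by
          rw [hcjf]
          have h3 := act_conj act (f g) (f x) (act (f g) b)
          rw [AlgEquiv.symm_apply_apply, AlgEquiv.symm_apply_eq] at h3
          exact h3
        rw [h2, hb', map_mul]
        congr 1
        change act (f g) ((act (f g)).symm (t₁ (cj x)) / t₁ x) = _
        rw [map_div₀, AlgEquiv.apply_symm_apply]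
      rw [map_inv₀, h1]
      have h4 : act (f g) (t₁ x) ≠ 0 := (map_ne_zero_iff _ (act (f g)).injective).2 (ht0 x)
      have h5 := ht0 (cj x)
      field_simp
    · change f g * f x = f (cj x) * f g
      rw [hcjf, inv_mul_cancel_right]
  have hpow := conj_pow (R.comap f) hN g τ y₀ hconj0
  have hgl' : g ^ ℓ ∈ R.comap f := by
    change f (g ^ ℓ) ∈ R
    rw [map_pow]
    exact hgl
  let G : R.comap f := ⟨g ^ ℓ, hgl'⟩
  have hyG : y₀ * τ G = τ G * y₀ := by
    have h1 : cj G = G := by
      apply Subtype.ext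
      change g * g ^ ℓ * g⁻¹ = g ^ ℓ
      rw [← pow_succ', pow_succ, mul_inv_cancel_right]
    have h2 := hconj0 G
    rw [h1] at h2
    exact h2
  let u : SD act := (y₀ ^ ℓ)⁻¹ * τ G
  have hcomm1 : ∀ x : R.comap f, u * τ x = τ x * u := by
    intro x
    have h1 := hpow ℓ x
    have h2 : (⟨g ^ ℓ * x * (g ^ ℓ)⁻¹, hN.conj_mem x x.2 (g ^ ℓ)⟩ : R.comap f) = G * x * G⁻¹ :=
      Subtype.ext rfl
    rw [h2, map_mul, map_mul, map_inv] at h1
    -- y₀^ℓ τx = τG τx τG⁻¹ y₀^ℓ
    change (y₀ ^ ℓ)⁻¹ * τ G * τ x = τ x * ((y₀ ^ ℓ)⁻¹ * τ G)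
    have h3 : τ G * τ x = y₀ ^ ℓ * τ x * (y₀ ^ ℓ)⁻¹ * τ G := by
      rw [h1]
      group
    rw [mul_assoc, h3]
    group
  have hyGl : y₀ ^ ℓ * τ G = τ G * y₀ ^ ℓ := by
    have h1 : Commute y₀ (τ G) := hyG
    exact (h1.pow_left ℓ)
  have hcomm2 : u * y₀ = y₀ * u := by
    have h1 : Commute (y₀ ^ ℓ)⁻¹ y₀ := ((Commute.refl y₀).pow_left ℓ).inv_left
    have h2 : Commute (τ G) y₀ := (show Commute y₀ (τ G) from hyG).symm
    exact h1.mul_left h2
  have hur : u.right = 1 := by
    change SemidirectProduct.rightHom ((y₀ ^ ℓ)⁻¹ * τ G) = 1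
    rw [map_mul, map_inv, map_pow]
    change ((f g) ^ ℓ)⁻¹ * f (g ^ ℓ) = 1
    rw [map_pow, inv_mul_cancel]
  have hfixR : ∀ r ∈ R, Phi act r u.left = u.left := by
    intro r hr
    obtain ⟨x, hx⟩ := hf r
    have hx' : x ∈ R.comap f := by
      change f x ∈ R
      rw [hx]
      exact hr
    have h1 := fixed_of_comm act u (τ ⟨x, hx'⟩) hur (hcomm1 ⟨x, hx'⟩)
    rw [hτr] at h1
    rw [← hx]
    exact h1
  have hfixg : Phi act (f g) u.left = u.left := fixed_of_comm act u y₀ hur hcomm2
  have hfixgz : ∀ i : ℤ, Phi act (f g ^ i) u.left = u.left := by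
    intro i
    let H : Subgroup Q :=
      { carrier := {s | Phi act s u.left = u.left}
        one_mem' := by
          change Phi act 1 u.left = u.left
          rw [map_one]
          rfl
        mul_mem' := by
          intro s r hs hr
          change Phi act (s * r) u.left = u.left
          rw [map_mul]
          change Phi act s (Phi act r u.left) = u.left
          rw [hr, hs]
        inv_mem' := by
          intro s hs
          change Phi act s⁻¹ u.left = u.left
          have h2 : Phi act s⁻¹ (Phi act s u.left) = u.left := by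
            rw [map_inv]
            exact (Phi act s).symm_apply_apply _
          rw [hs] at h2
          exact h2 }
    exact H.zpow_mem (show f g ∈ H from hfixg) i
  have hfix : ∀ s, act s (u.left : E) = (u.left : E) := by
    intro s
    obtain ⟨r, hr, i, rfl⟩ := hrep s
    have h1 : Phi act (r * f g ^ i) u.left = u.left := by
      rw [map_mul]
      change Phi act r (Phi act (f g ^ i) u.left) = u.left
      rw [hfixgz, hfixR r hr]
    have h2 := congrArg (fun v : Eˣ => (v : E)) h1
    exact h2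
  obtain ⟨m, hm0, hmR, hmn⟩ := hNrm 𝕜 E Q act hinj X hX hsep hactX ℓ hℓ R hR hidx (f g) hg
    (u.left : E) u.left.ne_zero hfix
  let mu : Eˣ := Units.mk0 m hm0
  let y : SD act := SemidirectProduct.inl mu * y₀
  have hmuτ : ∀ x, SemidirectProduct.inl mu * τ x = τ x * SemidirectProduct.inl mu := by
    intro x
    apply inl_mul
    apply Units.ext
    rw [Phi_val]
    exact hmR _ x.2
  have hconj : ∀ x : R.comap f, y * τ x = τ (cj x) * y := by
    intro x
    change SemidirectProduct.inl mu * y₀ * τ x = τ (cj x) * (SemidirectProduct.inl mu * y₀)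
    rw [mul_assoc, hconj0, ← mul_assoc, hmuτ, mul_assoc]
  have hyl : y ^ ℓ = τ G := by
    change (SemidirectProduct.inl mu * y₀) ^ ℓ = τ G
    rw [inl_mul_pow]
    have h1 : (∏ i ∈ range ℓ, Phi act (y₀.right ^ i) mu) = u.left := by
      apply Units.ext
      rw [Units.coe_prod, ← hmn]
      rfl
    rw [h1, ← eq_inl act u hur]
    change (y₀ ^ ℓ)⁻¹ * τ G * y₀ ^ ℓ = τ G
    rw [mul_assoc, ← hyGl, inv_mul_cancel_left]
  obtain ⟨τ', hτ'1, hτ'2⟩ := hExt Q' (SD act) (R.comap f) hN g τ y
    (by
      intro γ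
      obtain ⟨r, hr, i, hi⟩ := hrep (f γ)
      refine ⟨γ * (g ^ i)⁻¹, ?_, i, by group⟩
      change f (γ * (g ^ i)⁻¹) ∈ R
      rw [map_mul, map_inv, map_zpow, hi, mul_inv_cancel_right]
      exact hr)
    (by
      intro n
      rw [hconj n, mul_inv_cancel_right])
    (by
      intro i hi
      have h1 : f g ^ i ∈ R := by
        rw [← map_zpow]
        exact hi
      obtain ⟨j, rfl⟩ := hdvd i h1
      have h2 : (⟨g ^ ((ℓ : ℤ) * j), hi⟩ : R.comap f) = G ^ j := by
        apply Subtype.ext
        change g ^ ((ℓ : ℤ) * j) = (g ^ ℓ) ^ j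
        rw [zpow_mul, zpow_natCast]
      rw [h2, map_zpow, ← hyl, zpow_mul, zpow_natCast])
  have hright : ∀ γ : Q', (τ' γ).right = f γ := by
    intro γ
    obtain ⟨r, hr, i, hi⟩ := hrep (f γ)
    have hn : γ * (g ^ i)⁻¹ ∈ R.comap f := by
      change f (γ * (g ^ i)⁻¹) ∈ R
      rw [map_mul, map_inv, map_zpow, hi, mul_inv_cancel_right]
      exact hr
    have h1 : γ = (γ * (g ^ i)⁻¹) * g ^ i := by group
    have h2 : (τ' (γ * (g ^ i)⁻¹)).right = f (γ * (g ^ i)⁻¹) := by
      have h3 := hτ'1 ⟨_, hn⟩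
      change τ' (γ * (g ^ i)⁻¹) = _ at h3
      rw [h3]
      rfl
    have h4 : (τ' g).right = f g := by
      rw [hτ'2]
      change (SemidirectProduct.inl mu : SD act).right * y₀.right = f g
      rw [SemidirectProduct.right_inl, one_mul]
    have h5 : (τ' (g ^ i)).right = f (g ^ i) := by
      change SemidirectProduct.rightHom (τ' (g ^ i)) = _
      rw [map_zpow, map_zpow, map_zpow]
      change (τ' g).right ^ i = f g ^ i
      rw [h4]
    rw [h1, map_mul, SemidirectProduct.mul_right, h2, h5, ← map_mul]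
  refine ⟨fun γ => ((τ' γ).left : E), fun γ => (τ' γ).left.ne_zero, ?_, ?_⟩
  · intro γ δ
    change ((τ' (γ * δ)).left : E) = (τ' γ).left * act (f γ) ((τ' δ).left : E)
    rw [map_mul, SemidirectProduct.mul_left, Units.val_mul, Phi_val, hright]
  · intro a
    have ha : (a : Q') ∈ R.comap f := by
      change f a ∈ R
      have h1 : f (a : Q') = 1 := a.2
      rw [h1]
      exact R.one_mem
    have h1 := hτ'1 ⟨a, ha⟩
    change ((τ' (a : Q')).left : E) = _
    change τ' (a : Q') = _ at h1
    rw [h1, hτl]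
    exact htj a ha

end step

end TL_

open TL_ in
/-- **TL.** Every central extension of an `ℓ`-group acting on `E` becomes trivial in the
multiplicative group of `E`. -/
theorem ctTL (h90 : CStmtH90f) (hNrm : CStmtNrm) (hExt : CStmtExt) : CStmtTL := by
  intro 𝕜 E _ _ _ _ _ X hX hsep ℓ hℓ
  have : Fact ℓ.Prime := ⟨hℓ⟩
  have key : ∀ n : ℕ, ∀ (Q : Type) [Group Q] [Finite Q], Nat.card Q = ℓ ^ n →
      ∀ act : Q →* (E ≃ₐ[𝕜] E), Function.Injective act → (∀ s, act s X = X) →
      ∀ (Q' : Type) [Group Q'] (f : Q' →* Q), Function.Surjective f →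
      (∀ a ∈ f.ker, ∀ b : Q', a * b = b * a) → ∀ jj : f.ker →* 𝕜ˣ,
      ∃ t : Q' → E, (∀ g, t g ≠ 0) ∧ (∀ g h, t (g * h) = t g * act (f g) (t h)) ∧
        ∀ a : f.ker, t a = algebraMap 𝕜 E (jj a) := by
    intro n
    induction n with
    | zero =>
      intro Q _ _ hcard act hinj hactX Q' _ f hf hcen jj
      rw [pow_zero] at hcard
      have hsub : Subsingleton Q := (Nat.card_eq_one_iff_unique.1 hcard).1
      have hker : ∀ g : Q', g ∈ f.ker := fun g => Subsingleton.elim _ _
      refine ⟨fun g => algebraMap 𝕜 E (jj ⟨g, hker g⟩), ?_, ?_, ?_⟩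
      · intro g
        exact (map_ne_zero _).2 (jj ⟨g, hker g⟩).ne_zero
      · intro g h
        have h1 : (⟨g * h, hker (g * h)⟩ : f.ker) = ⟨g, hker g⟩ * ⟨h, hker h⟩ := rfl
        change algebraMap 𝕜 E (jj ⟨g * h, hker (g * h)⟩) = algebraMap 𝕜 E (jj ⟨g, hker g⟩)
          * act (f g) (algebraMap 𝕜 E (jj ⟨h, hker h⟩))
        rw [h1, map_mul, Units.val_mul, map_mul, AlgEquiv.commutes]
      · intro a
        rfl
    | succ n ih =>
      intro Q _ _ hcard act hinj hactX Q' _ f hf hcen jj
      obtain ⟨R, hRc⟩ := Sylow.exists_subgroup_card_pow_prime (G := Q) ℓ (n := n)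
        (by rw [hcard]; exact pow_dvd_pow ℓ (Nat.le_succ n))
      have hidx : R.index = ℓ := by
        have h1 := R.card_mul_index
        rw [hRc, hcard, pow_succ] at h1
        exact Nat.eq_of_mul_eq_mul_left (pow_pos hℓ.pos n) h1
      have hR : R.Normal := by
        apply Subgroup.normal_of_index_eq_minFac_card
        rw [hidx, hcard, Nat.Prime.pow_minFac hℓ (Nat.succ_ne_zero n)]
      let fR : R.comap f →* R := f.subgroupComap R
      have hfR : ∀ x : R.comap f, ((fR x : R) : Q) = f x := fun _ => rfl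
      have hkR : ∀ x : fR.ker, ((x : R.comap f) : Q') ∈ f.ker := by
        intro x
        have h1 : fR (x : R.comap f) = 1 := x.2
        have h2 := congrArg (fun r : R => (r : Q)) h1
        exact h2
      let jR : fR.ker →* 𝕜ˣ := MonoidHom.mk' (fun x => jj ⟨x, hkR x⟩) (by
        intro x y
        rw [← map_mul]
        rfl)
      obtain ⟨t₁, ht0, htm, htj⟩ := ih R hRc (act.comp R.subtype)
        (hinj.comp R.subtype_injective) (fun s => hactX s) (R.comap f) fR
        (by
          intro r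
          obtain ⟨x, hx⟩ := hf r
          refine ⟨⟨x, ?_⟩, ?_⟩
          · change f x ∈ R
            rw [hx]
            exact r.2
          · apply Subtype.ext
            exact hx)
        (by
          intro a ha b
          apply Subtype.ext
          exact hcen (a : Q') (hkR ⟨a, ha⟩) b)
        jR
      exact step h90 hNrm hExt X hX hsep hℓ act hinj hactX f hf hcen jj R hR hidx t₁ ht0
        (fun x y => htm x y) (by
          intro a ha
          have h1 : (⟨(a : Q'), ha⟩ : R.comap f) ∈ fR.ker := by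
            apply Subtype.ext
            exact a.2
          exact htj ⟨_, h1⟩)
  intro Q _ _ hp
  obtain ⟨n, hn⟩ := IsPGroup.iff_card.1 hp
  exact key n Q hn

end MP7Z
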