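import Pool.Agent.Lib.MP_7f581e_Z.CS.SpecB

/-!
# Adjunction of a root of order `ℓ ^ j`
-/

set_option autoImplicit false

namespace MP7Z

variable {p : ℕ} [Fact p.Prime] {Ω : Type} [Field Ω] [Algebra (ZMod p) Ω]

theorem Tow_Gx_le {x x' : Ω} {n : ℕ} (h : x' ^ n = x) : Gx p x' ≤ Gx p x := by
  intro γ hγ
  rw [mem_Gx] at hγ ⊢
  rw [← h, map_pow, hγ]

theorem Tow_zero {ℓ : ℕ} {x : Ω} {H : Subgroup (Ω ≃ₐ[ZMod p] Ω)} {P : Type} [Group P]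
    {ρ : H →* P} (N : NHom p ℓ x H ρ) : NHom p ℓ x (H ⊓ Gx p x) (rst ρ x) where
  stage := N.stage
  le := inf_le_right
  opn := by
    obtain ⟨S, hS⟩ := N.opn
    exact ⟨S, fun γ hγ h => ⟨hS γ hγ h, hγ⟩⟩
  mu := fun ζ hζ γ hγ => N.mu ζ hζ γ hγ.1
  zero := by
    intro V hV hVx γ hγ hγI
    obtain ⟨a, ha, haH⟩ := N.zero V hV hVx γ hγ hγI
    exact ⟨a, ha, haH, pow_mem hγ a⟩
  fin := by
    obtain ⟨S, hS⟩ := N.fin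
    exact ⟨S, fun γ hγ => hS ⟨γ, γ.2.1⟩ hγ⟩
  neu := fun V hV hb γ hγ => N.neu V hV hb ⟨γ, γ.2.1⟩ hγ

theorem Tow_shrink {ℓ n : ℕ} {x₁ x' : Ω} {H : Subgroup (Ω ≃ₐ[ZMod p] Ω)} {P : Type} [Group P]
    {ρ : H →* P} (h : x' ^ n = x₁)
    (N : NHom p ℓ x' (H ⊓ Gx p x₁ ⊓ Gx p x') (rst (rst ρ x₁) x')) :
    NHom p ℓ x' (H ⊓ Gx p x') (rst ρ x') where
  stage := N.stage
  le := inf_le_right
  opn := by
    obtain ⟨S, hS⟩ := N.opn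
    exact ⟨S, fun γ hγ h => ⟨(hS γ hγ h).1.1, hγ⟩⟩
  mu := fun ζ hζ γ hγ => N.mu ζ hζ γ ⟨⟨hγ.1, Tow_Gx_le h hγ.2⟩, hγ.2⟩
  zero := by
    intro V hV hVx γ hγ hγI
    obtain ⟨a, ha, haH⟩ := N.zero V hV hVx γ hγ hγI
    exact ⟨a, ha, haH.1.1, haH.2⟩
  fin := by
    obtain ⟨S, hS⟩ := N.fin
    exact ⟨S, fun γ hγ => hS ⟨γ, ⟨γ.2.1, Tow_Gx_le h γ.2.2⟩, γ.2.2⟩ hγ⟩
  neu := fun V hV hb γ hγ => N.neu V hV hb ⟨γ, ⟨γ.2.1, Tow_Gx_le h γ.2.2⟩, γ.2.2⟩ hγ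

theorem Tow_gker {H : Subgroup (Ω ≃ₐ[ZMod p] Ω)} {P : Type} [Group P] {ρ : H →* P} {x₁ : Ω}
    {u : Ω ≃ₐ[ZMod p] Ω} (hu : u ∈ gker (rst ρ x₁)) : u ∈ gker ρ ∧ u ∈ Gx p x₁ := by
  obtain ⟨hg, hH, hρ⟩ := hu
  exact ⟨⟨hg, hH.1, hρ⟩, hH.2⟩

theorem Tow_mem_cst {ζ : Ω} {n : ℕ} (hn : 0 < n) (h : ζ ^ n = 1) : ζ ∈ Cst p Ω := by
  change ζ ∈ algebraicClosure (ZMod p) Ω
  rw [mem_algebraicClosure_iff]
  refine IsAlgebraic.of_pow hn ?_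
  rw [h]
  exact isAlgebraic_one

theorem ctTow (hRot : CStmtRot) : CStmtTow := by
  intro p _ ℓ hℓ hne Ω _ _ x H P _ ρ N j
  have hp : p.Prime := Fact.out
  induction j with
  | zero =>
    refine ⟨x, by rw [pow_zero, pow_one], Tow_zero N, ?_, fun h => absurd h (lt_irrefl _)⟩
    intro γ hγ
    refine ⟨1, one_mem _, ?_⟩
    rw [one_mul]
    exact N.le hγ
  | succ j ih =>
    obtain ⟨x₁, hx₁, N₁, hs, -⟩ := ih
    haveI := N.stage.sepClosed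
    haveI hch : CharP Ω p := (Algebra.charP_iff (ZMod p) Ω p).1 inferInstance
    haveI : NeZero ((ℓ : ℕ) : Ω) := ⟨by
      intro h
      rw [CharP.cast_eq_zero_iff Ω p ℓ] at h
      exact hne ((Nat.prime_dvd_prime_iff_eq hp hℓ).1 h).symm⟩
    obtain ⟨x', hx'⟩ := IsSepClosed.exists_pow_nat_eq x₁ ℓ
    obtain ⟨N₂, hr⟩ := hRot p ℓ hℓ hne Ω x₁ (H ⊓ Gx p x₁) P (rst ρ x₁) N₁ x' hx'
    have hx0 : x ≠ 0 := by
      rintro rfl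
      exact N.stage.transc isAlgebraic_zero
    have hx'x : x' ^ (ℓ ^ (j + 1)) = x := by
      rw [pow_succ, mul_comm, pow_mul, hx', hx₁]
    have hx'0 : x' ≠ 0 := by
      rintro rfl
      rw [zero_pow (pow_ne_zero _ hℓ.ne_zero)] at hx'x
      exact hx0 hx'x.symm
    refine ⟨x', hx'x, Tow_shrink hx' N₂, ?_, ?_⟩
    · intro γ hγ
      obtain ⟨u₁, hu₁, hu₁γ⟩ := hs γ hγ
      set ε : Ω := (u₁ * γ) x' / x' with hε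
      have h1 : (u₁ * γ) x' = ε * x' := by rw [hε, div_mul_cancel₀ _ hx'0]
      have h2 : ε ^ ℓ = 1 := by
        rw [hε, div_pow, ← map_pow, hx', mem_Gx.1 hu₁γ]
        apply div_self
        rintro rfl
        rw [zero_pow (pow_ne_zero _ hℓ.ne_zero)] at hx₁
        exact hx0 hx₁.symm
      have hε0 : ε ≠ 0 := by
        intro h
        rw [h, zero_pow hℓ.ne_zero] at h2
        exact zero_ne_one h2
      obtain ⟨u₂, hu₂, hu₂x⟩ := hr ε⁻¹ (by rw [inv_pow, h2, inv_one])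
      have hu₂' := Tow_gker hu₂
      refine ⟨u₂ * u₁, mul_mem hu₂'.1 hu₁, ?_⟩
      rw [mem_Gx, mul_assoc]
      change u₂ ((u₁ * γ) x') = x'
      rw [h1, map_mul, hu₂x]
      have h3 : u₂ ε = ε := hu₂'.1.1 ε (Tow_mem_cst hℓ.pos h2)
      rw [h3, ← mul_assoc, mul_inv_cancel₀ hε0, one_mul]
    · intro _ ζ hζ
      obtain ⟨u, hu, hux⟩ := hr ζ hζ
      exact ⟨u, (Tow_gker hu).1, hux⟩

end MP7Z
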