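import Pool.Agent.Lib.MP_7f581e_Z.CS.Spec
import Pool.Agent.Lib.MP_7f581e_Z.BR.Fin
import Pool.Agent.Lib.MP_7f581e_Z.BR.FinRam

/-!
# Tra: places in Galois extensions
-/

set_option autoImplicit false

namespace MP7Z

theorem ctTra (hFxd : CStmtFxd) : CStmtTra := by
  classical
  intro 𝕜 E Q _ _ _ _ _ _ _ act hc hf hinj
  obtain ⟨-, -, hgal, -, hall⟩ := hFxd 𝕜 E Q act hinj
  haveI := hgal
  haveI : Fintype (E ≃ₐ[fxd act] E) := Fintype.ofFinite _
  have hcoe : ∀ (σ : E ≃ₐ[fxd act] E) (s : Q), (∀ f, σ f = act s f) → ∀ w : Place 𝕜 E,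
      w.comap (σ : E ≃+* E) = w.comap ((act s : E ≃ₐ[𝕜] E) : E ≃+* E) := by
    intro σ s h w
    ext f
    rw [Place.comap_ord, Place.comap_ord]
    exact congrArg w.ord (h f)
  refine ⟨?_, ?_, ?_⟩
  · intro w w' h
    obtain ⟨σ, hσ⟩ := tFin 𝕜 (fxd act) E w w' h
    obtain ⟨s, hs⟩ := hall σ
    exact ⟨s, by rw [hσ, hcoe σ s hs]⟩
  · intro w h
    rw [← tFinRam tFin 𝕜 (fxd act) E w]
    rw [Nat.card_eq_one_iff_unique]
    constructor
    · constructor
      rintro ⟨σ, hσ⟩ ⟨τ, hτ⟩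
      have key : ∀ ρ : E ≃ₐ[fxd act] E, w.comap (ρ : E ≃+* E) = w → ρ = 1 := by
        intro ρ hρ
        obtain ⟨s, hs⟩ := hall ρ
        rw [hcoe ρ s hs] at hρ
        have := h s hρ
        subst this
        ext f
        rw [hs f, map_one]
        rfl
      exact Subtype.ext ((key σ hσ).trans (key τ hτ).symm)
    · exact ⟨⟨1, by ext f; rfl⟩⟩
  · intro u
    obtain ⟨S, e, hS, hsum⟩ := exists_places_over (E := E) u
    have hne : S.Nonempty := by
      by_contra hcon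
      rw [Finset.not_nonempty_iff_eq_empty] at hcon
      rw [hcon, Finset.sum_empty] at hsum
      have : 0 < Module.finrank (fxd act) E := Module.finrank_pos
      omega
    obtain ⟨w, hw⟩ := hne
    exact ⟨w, (Place.res_eq w u (hS w hw).1 (hS w hw).2).1⟩

end MP7Z
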