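import Pool.Agent.Lib.MP_7f581e_Z.FF.Main
import Pool.Agent.Lib.MP_7f581e_Z.BR.Main
import Pool.Agent.Lib.MP_7f581e_Z.CS.H90f
import Pool.Agent.Lib.MP_7f581e_Z.CS.H90c
import Pool.Agent.Lib.MP_7f581e_Z.CS.Fxd
import Pool.Agent.Lib.MP_7f581e_Z.CS.Tra
import Pool.Agent.Lib.MP_7f581e_Z.CS.PE
import Pool.Agent.Lib.MP_7f581e_Z.CS.NumA
import Pool.Agent.Lib.MP_7f581e_Z.CS.NumB
import Pool.Agent.Lib.MP_7f581e_Z.CS.Num
import Pool.Agent.Lib.MP_7f581e_Z.CS.NE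
import Pool.Agent.Lib.MP_7f581e_Z.CS.Nrm
import Pool.Agent.Lib.MP_7f581e_Z.CS.Ext
import Pool.Agent.Lib.MP_7f581e_Z.CS.TL
import Pool.Agent.Lib.MP_7f581e_Z.CS.Fr
import Pool.Agent.Lib.MP_7f581e_Z.CS.FP
import Pool.Agent.Lib.MP_7f581e_Z.CS.Den
import Pool.Agent.Lib.MP_7f581e_Z.CS.BExt
import Pool.Agent.Lib.MP_7f581e_Z.CS.Rot
import Pool.Agent.Lib.MP_7f581e_Z.CS.Tow
import Pool.Agent.Lib.MP_7f581e_Z.CS.PB
import Pool.Agent.Lib.MP_7f581e_Z.CS.Lev
import Pool.Agent.Lib.MP_7f581e_Z.CS.Back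
import Pool.Agent.Lib.MP_7f581e_Z.CS.CS

/-!
# Package CS, complete: the central step
-/

namespace MP7Z

theorem cs_tra : CStmtTra := ctTra ctFxd

theorem cs_pe : CStmtPE := ctPE ff_p ctFxd cs_tra

theorem cs_num : CStmtNum := ctNum ctNumA ctNumB

theorem cs_ne : CStmtNE := ctNE ff_hn cs_num ctH90c ctFxd cs_tra

theorem cs_nrm : CStmtNrm := ctNrm ctFxd

theorem cs_tl : CStmtTL := ctTL ctH90f cs_nrm ctExt

/-- The field part. -/
theorem cs_fp : CStmtFP := ctFP cs_tl (ctFr ctH90f) cs_pe cs_ne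

theorem cs_den : CStmtDen := ctDen br_cst br_lvl br_frb br_gal

theorem cs_rot : CStmtRot := ctRot br_cst br_lvl br_bel br_abv br_kumR br_bc

theorem cs_tow : CStmtTow := ctTow cs_rot

/-- Prescribed orders modulo `ℓ` by an element fixed by an open subgroup. -/
theorem cs_pb : CStmtPB := ctPB ff_p br_cst br_lvl br_frbK cs_rot cs_den

theorem cs_lev : CStmtLev := ctLev br_cst br_lvl br_bel br_abv br_conj br_frbK br_gal

theorem cs_back : CStmtBack := ctBack br_cst br_lvl br_bel br_res br_kumU (ctBExt br_cst br_frb)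

/-- **The central step.** -/
theorem cs_step (p : ℕ) [Fact p.Prime] : CStep p :=
  ctCS br_cst br_lvl cs_den cs_tow cs_lev cs_fp cs_back p

end MP7Z
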