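import Pool.Agent.Lib.MP_7f581e_Z.InterfaceFF
import Pool.Agent.Lib.MP_7f581e_Z.BR.Val

/-!
# Package CS: the central step, field part (no `Ω` here)

One Lean task for each `def CStmtX : Prop`: file `CS/X.lean`, import only this file (and the files
named in the docstring), `theorem ctX : CStmtX`; the statements under *Uses* are hypotheses
`(h : CStmtY)`.  Complete proofs are in the docstrings.

THE FIELD PART (`CStmtFP`).  `E` is the function field of a curve over `𝕜`, with a Frobenius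
automorphism `φ` and a faithful action of a finite `ℓ`-group `Q` (`ℓ ≠ p`) such that
`φ (act s f) = act (cj s) (φ f)`, and a separating element `X`, fixed by `Q` and `φ`, such that the
stabilizers of the `ℓ`-bad places are trivial.  `f : Q' → Q` is an extension with central kernel
`≅ μ_ℓ`, and `cj'` an automorphism of `Q'` over `cj`.  We find a crossed homomorphism `t : Q' → E^*`
extending `ker f → μ_ℓ` (Tsen) and, in the field `E'` obtained from `E` by adjoining `X^(1/ℓ^j)`,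
elements `z, w` with

* `t(g)^ℓ = act (f g) z / z`,
* `φ (t g) = t (cj' g) · act (cj (f g)) w / w`,
* `φ z = w^ℓ z`,
* `ℓ ∣ v(z)` for all the `ℓ`-bad places `v` of `E'`.

Then adjoining `z^(1/ℓ)` solves the embedding problem, compatibly with `φ` and without ramification
at the `ℓ`-bad places.
-/

set_option autoImplicit false

namespace MP7Z

open Finset

/-- The fixed field of an action. -/
noncomputable def fxd {𝕜 E Q : Type} [Field 𝕜] [Field E] [Algebra 𝕜 E] [Group Q]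
    (act : Q →* (E ≃ₐ[𝕜] E)) : IntermediateField 𝕜 E := IntermediateField.fixedField act.range

theorem mem_fxd {𝕜 E Q : Type} [Field 𝕜] [Field E] [Algebra 𝕜 E] [Group Q]
    {act : Q →* (E ≃ₐ[𝕜] E)} {f : E} : f ∈ fxd act ↔ ∀ s, act s f = f := by
  unfold fxd
  rw [IntermediateField.mem_fixedField_iff]
  constructor
  · exact fun h s => h _ ⟨s, rfl⟩
  · rintro h _ ⟨s, rfl⟩
    exact h s

/-- The data of the field part of the central step. -/
structure CSD (𝕜 E : Type) [Field 𝕜] [IsAlgClosed 𝕜] [Field E] [Algebra 𝕜 E] (ℓ q : ℕ)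
    {Q : Type} [Group Q] (act : Q →* (E ≃ₐ[𝕜] E)) (cj : Q ≃* Q) (φ : E ≃+* E) (X : E) :
    Prop where
  /-- the action is faithful -/
  inj : Function.Injective act
  /-- `Q` is an `ℓ`-group -/
  pgp : IsPGroup ℓ Q
  /-- `φ` is a Frobenius automorphism -/
  frob : IsFrob 𝕜 q φ
  /-- `φ` normalizes the action of `Q` -/
  comm : ∀ s f, φ (act s f) = act (cj s) (φ f)
  /-- `X` is a separating element -/
  tr : Transcendental 𝕜 X
  /-- `X` is a separating element -/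
  sep : Algebra.IsSeparable (IntermediateField.adjoin 𝕜 {X}) E
  /-- `X` is fixed -/
  actX : ∀ s, act s X = X
  /-- `X` is fixed -/
  frobX : φ X = X
  /-- `φ` fixes the roots of unity of order `ℓ` -/
  mu : ∀ ζ : 𝕜, ζ ^ ℓ = 1 → ζ ^ q = ζ
  /-- no inertia at the bad places -/
  neu : ∀ v : Place 𝕜 E, Bad ℓ X v → ∀ s : Q, v.comap ((act s : E ≃ₐ[𝕜] E) : E ≃+* E) = v → s = 1
  /-- automorphisms which rotate `X` -/
  rot : ∀ ζ : 𝕜, ζ ^ ℓ = 1 → ∃ σ : E ≃ₐ[𝕜] E, σ X = algebraMap 𝕜 E ζ * X ∧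
    (∀ s f, σ (act s f) = act s (σ f)) ∧ ∀ f, σ (φ f) = φ (σ f)

/-! ## Hilbert 90 -/

/-- **H90f.** (60 lines)  Hilbert 90 for a finite group acting faithfully on a field.

*Proof.*  The maps `act s`, `s : Q`, are distinct homomorphisms of monoids `E → E`, so linearly
independent over `E` (Dedekind: `linearIndependent_monoidHom`).  As all `c s ≠ 0`, there is `a` with
`b₀ = ∑_s c s * act s a ≠ 0`.  `act r b₀ = ∑_s act r (c s) * act (r s) a = (c r)⁻¹ ∑_s c (r s) * act (r s) a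
= (c r)⁻¹ b₀`.  Take `b = b₀⁻¹`: `act r b = c r * b`. -/
def CStmtH90f : Prop :=
  ∀ (E Q : Type) [Field E] [Group Q] [Finite Q] (act : Q →* (E ≃+* E)), Function.Injective act →
    ∀ c : Q → E, (∀ s, c s ≠ 0) → (∀ r s, c (r * s) = c r * act r (c s)) →
    ∃ b : E, b ≠ 0 ∧ ∀ s, act s b = c s * b

/-- **H90c.** (80 lines)  Hilbert 90 for one automorphism: an element of norm `1` fixed by `φ ^ M`.

*Proof.*  Let `F = {x : E | (φ ^ M) x = x}` (a subfield).  The maps `x ↦ (φ ^ i) x`, `i < M`, from `F` to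
`E` are pairwise distinct (if `(φ ^ i) = (φ ^ j)` on `F`, `i < j < M`, then `(φ ^ (j - i)) θ = θ`), so they are
linearly independent over `E` (`linearIndependent_monoidHom` for the monoid homomorphisms `F →* E`).
Let `b_i = ∏_{k<i} (φ ^ k) b`, `b_0 = 1`, `b_M = 1`: there is `a ∈ F` with `s = ∑_{i<M} b_i * (φ ^ i) a ≠ 0`.
`φ s = ∑_{i<M} φ (b_i) * (φ ^ (i+1)) a`, `b * φ (b_i) = b_(i+1)`, so `b * φ s = ∑_{i<M} b_(i+1) * (φ ^ (i+1)) a
= s` (the term `i = M - 1` is `b_M * (φ ^ M) a = a = b_0 * a`).  Also `(φ ^ M) s = s` (`φ` commutes with `φ ^ M`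
and `b, a ∈ F`).  Take `c = s⁻¹`: `φ c = (φ s)⁻¹ = b * s⁻¹ = b * c`. -/
def CStmtH90c : Prop :=
  ∀ (E : Type) [Field E] (φ : E ≃+* E) (M : ℕ), 0 < M → ∀ θ : E, (φ ^ M) θ = θ →
    (∀ i, 0 < i → i < M → (φ ^ i) θ ≠ θ) → ∀ b : E, b ≠ 0 → (φ ^ M) b = b →
    ∏ i ∈ range M, (φ ^ i) b = 1 → ∃ c : E, c ≠ 0 ∧ (φ ^ M) c = c ∧ φ c = b * c

/-! ## The fixed field -/

/-- **Fxd.** (100 lines)  The fixed field of a finite group acting faithfully on a curve field.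

*Proof.*  `K = fxd act`.  `E` is finite Galois over `K` with group the (image of) `Q`: Artin's theorem,
Mathlib: `IntermediateField.finrank_fixedField_eq_card`, `IsGalois.of_fixedField` and
`IntermediateField.fixingSubgroup_fixedField` need `E` finite over the base field; here use instead
`FixedPoints.subfield` for the group `act.range` (`FixedPoints.isGalois`-type instances,
`FixedPoints.finrank_eq_card`, `FixedPoints.toAlgAut_bijective` /
`FixedPoints.toAlgHom_bijective`), which has the same elements as `K`.  `IsCurveField 𝕜 K` is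
`isCurveField_sub` (`Crv/Places`). -/
def CStmtFxd : Prop :=
  ∀ (𝕜 E Q : Type) [Field 𝕜] [IsAlgClosed 𝕜] [Field E] [Algebra 𝕜 E] [IsCurveField 𝕜 E]
    [Group Q] [Finite Q] (act : Q →* (E ≃ₐ[𝕜] E)), Function.Injective act →
    IsCurveField 𝕜 (fxd act) ∧ Module.Finite (fxd act) E ∧ IsGalois (fxd act) E ∧
    Module.finrank (fxd act) E = Nat.card Q ∧
    ∀ σ : E ≃ₐ[fxd act] E, ∃ s : Q, ∀ f : E, σ f = act s f

/-- **Tra.** (80 lines)  Places of `E` with the same restriction to the fixed field are conjugate,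
and a place with trivial stabilizer is unramified.  Every place of the fixed field is a restriction.

*Proof.*  First claim: suppose `w'` is not of the form `w.comap (act s)`.  By weak approximation
(`places_approx'` for the finitely many distinct places among the `w.comap (act s)`, `w'.comap (act s)`)
there is `f : E` with `(w'.comap (act s)).ord f > 0` for all `s` and `(w.comap (act s)).ord f = 0` for
all `s` (build it from the elements given by `places_approx'`: for each `u` in the first family one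
element of positive order at `u` and congruent to `1` at the places of the second family, multiply
them).  `a = ∏_s act s f ∈ fxd act`: `w'.ord a > 0`, `w.ord a = 0`, but the signs agree
(`Place.res_nonneg` for `a` and `a⁻¹`).  Second claim: choose `f` with `w.ord f = 1` and
`(w.comap (act s)).ord f = 0` for `s ≠ 1` (these places are `≠ w`; `places_approx` or multiply a
uniformizer with suitable elements), `a = ∏_s act s f`: `w.ord a = 1 = ram * _`, so the ramification index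
is `1`.  Third: `exists_places_over` (`Crv/PlacesOver`) or `exists_places_over_aux`.
(If `BR/Fin.lean`, `BR/FinRam.lean` are on main, the first two claims follow from them with *Fxd*.) -/
def CStmtTra : Prop :=
  ∀ (𝕜 E Q : Type) [Field 𝕜] [IsAlgClosed 𝕜] [Field E] [Algebra 𝕜 E] [IsCurveField 𝕜 E]
    [Group Q] [Finite Q] (act : Q →* (E ≃ₐ[𝕜] E)) [IsCurveField 𝕜 (fxd act)]
    [Module.Finite (fxd act) E], Function.Injective act →
    (∀ w w' : Place 𝕜 E, w.res (fxd act) = w'.res (fxd act) →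
      ∃ s : Q, w' = w.comap ((act s : E ≃ₐ[𝕜] E) : E ≃+* E)) ∧
    (∀ w : Place 𝕜 E, (∀ s : Q, w.comap ((act s : E ≃ₐ[𝕜] E) : E ≃+* E) = w → s = 1) →
      w.ram (fxd act) = 1) ∧
    ∀ u : Place 𝕜 (fxd act), ∃ w : Place 𝕜 E, w.res (fxd act) = u

/-- **PE.** (180 lines)  Prescribed orders modulo `ℓ` at the bad places by an invariant element: the
statement `PStmt` of the interface for the fixed field, transported to `E`.

*Proof.*  `K = fxd act`; `φ` and the `σ` of `rot` restrict to `K` (`comm`, `rot`; `cj` is bijective).  Let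
`φK, σK` be the restrictions.  `IsFrob 𝕜 (q ^ k) (φK ^ k)`: prime power, zero in `𝕜`, on constants
`c ↦ c ^ (q ^ k)`, finite orbits (`(φ ^ n) f = f` gives `((φ ^ k) ^ n) f = f`), and `X ∈ K` is separating for
`K` (`K` is between `𝕜(X)` and `E`; `Algebra.IsSeparable` of the bottom of a tower).  `K` is a curve
field (*Fxd*).  Choose `ζ : 𝕜` a primitive root of unity of order `ℓ` (`(ℓ : 𝕜) ≠ 0`), `ζ ^ (q ^ k) = ζ`
(`mu`, iterate).  For a place `u` of `K` choose a place `w u` of `E` over `u` (*Tra*), and put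
`D₀ u = D (w u) mod ℓ` (`Int.emod`, in `[0, ℓ)`) if `Bad ℓ X u`, and `0` otherwise.  For every place `w`
over a bad `u`: `D w ≡ D₀ u` modulo `ℓ` (*Tra*, first claim, and the hypothesis on `act`).  `Bad ℓ X w` iff
`Bad ℓ X (w.res K)` (`Place.pord_algebraMap_eq`, the ramification index is positive).
`D₀ (u.comap (φK ^ k)) = D₀ u`: `(w u).comap (φ ^ k)` is a place over `u.comap (φK ^ k)`
(`Place.res_comap`), it is bad iff `w u` is (`φ X = X`), so the value is `D ((w u).comap (φ ^ k)) ≡ D (w u)`.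
Finite support: the support of `D₀` is contained in the set of restrictions of the bad `w` with
`D w ≠ 0`.  `PStmt` with `T = ∅` gives `y ∈ K`.  For a bad place `w` of `E`: the stabilizer is trivial
(`neu`), so the ramification index over `K` is `1` (*Tra*), `w.pord y = (w.res K).pord y ≡ D₀ (w.res K) ≡ D w`.
*Uses*: PStmt (interface), Fxd, Tra. -/
def CStmtPE : Prop :=
  ∀ (𝕜 E Q : Type) [Field 𝕜] [IsAlgClosed 𝕜] [Field E] [Algebra 𝕜 E] [IsCurveField 𝕜 E]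
    [Group Q] [Finite Q] (ℓ q : ℕ) (act : Q →* (E ≃ₐ[𝕜] E)) (cj : Q ≃* Q) (φ : E ≃+* E) (X : E),
    ℓ.Prime → (ℓ : 𝕜) ≠ 0 → CSD 𝕜 E ℓ q act cj φ X →
    ∀ (k : ℕ), 0 < k → ∀ D : Place 𝕜 E → ℤ, {v | Bad ℓ X v ∧ D v ≠ 0}.Finite →
    (∀ v, Bad ℓ X v → ∀ s : Q, (ℓ : ℤ) ∣ D (v.comap ((act s : E ≃ₐ[𝕜] E) : E ≃+* E)) - D v) →
    (∀ v, Bad ℓ X v → (ℓ : ℤ) ∣ D (v.comap (φ ^ k)) - D v) →
    ∃ y : E, y ≠ 0 ∧ (∀ s, act s y = y) ∧ (φ ^ k) y = y ∧
      ∀ v, Bad ℓ X v → (ℓ : ℤ) ∣ v.pord y - D v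

/-! ## Numbers -/

/-- **NumA.** (100 lines)

*Proof.*  Let `b` be the exponent of `ℓ` in `m` (`padicValNat` or `factorization`), `j₀ = q ^ (ℓ ^ b)`, so
`q ^ (ℓ ^ b) - 1 < ℓ ^ j` for `j ≥ j₀`.  Let `ℓ ^ j ∣ q ^ r - 1`, `g = gcd m r` and suppose that `ℓ` does not
divide `r / g`.  Write `r = ℓ ^ s * r'`, `ℓ ∤ r'`; the exponent of `ℓ` in `r` equals that in `g`, and
`g ∣ m`, so `s ≤ b`.  With `Q = q ^ (ℓ ^ s)`: `Q ≡ 1` modulo `ℓ`, `q ^ r - 1 = Q ^ r' - 1 =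
(Q - 1) * ∑_{i<r'} Q ^ i` and the sum is `≡ r'` modulo `ℓ`, so prime to `ℓ`.  Hence `ℓ ^ j ∣ Q - 1`, which
divides `q ^ (ℓ ^ b) - 1 > 0`, so `ℓ ^ j ≤ q ^ (ℓ ^ b) - 1`, a contradiction. -/
def CStmtNumA : Prop :=
  ∀ (ℓ q m : ℕ), ℓ.Prime → 2 ≤ q → ℓ ∣ q - 1 → 0 < m → ∃ j₀ : ℕ, ∀ j, j₀ ≤ j → ∀ r, 0 < r →
    ℓ ^ j ∣ q ^ r - 1 → ℓ ∣ r / Nat.gcd m r

/-- **NumB.** (60 lines)  A sum of a function with two periods.

*Proof.*  `a` has the period `g = gcd m r` (Bezout; e.g. extend: `a (i + g) = a i` because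
`i + g + k m = i + l r` for suitable natural `k, l`).  So `∑_{i<m} a i = (m / g) ∑_{i<g} a i`
(`Finset.sum_range_succ`-induction on the number of blocks), and `r * (m / g) = m * (r / g)`. -/
def CStmtNumB : Prop :=
  ∀ (a : ℕ → ℤ) (m r : ℕ), 0 < m → 0 < r → (∀ i, a (i + m) = a i) → (∀ i, a (i + r) = a i) →
    (r : ℤ) * ∑ i ∈ range m, a i =
      (m : ℤ) * (((r / Nat.gcd m r : ℕ) : ℤ) * ∑ i ∈ range (Nat.gcd m r), a i)

/-- **Num.** (220 lines)  The norm of `d` becomes locally divisible by `m ℓ` after the adjunction of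
`X ^ (1 / ℓ ^ j)`.

*Proof.*  `j₀` is the maximum of the constant of *NumA* and a number larger than all `|v.pord X|` (finitely
many places with `v.ord X ≠ 0`, `finite_ord_ne`), so `ℓ ^ j₀ > |v.pord X|` for all `v`.  Let `u` be a place
of `K'`, `r = orbLen φ' u` (if `r = 0` the claim is trivial), `v = u.res K`, `e = u.ram K`,
`a i = u.pord ((φ ^ i) d) = e * v.pord ((φ ^ i) d)` (`Place.pord_algebraMap_eq`).  `a (i + m) = a i` since
`(φ ^ m) d = d`.  `a (i + r) = a i`: the `r`-fold `comap` by `φ'` of `u` is `u.comap (φ' ^ r)` and equals `u`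
(`Function.minimalPeriod`, `Place.comap_mul`), so
`u.pord (φ' ^ r y) = (u.comap (φ' ^ r)).pord y = u.pord y` for `y = (φ ^ i) d ∈ K'`.  `u.pord` of the product
is `∑_{i<m} a i`.  By *NumB* it is enough that `ℓ ∣ (r / gcd m r) * ∑_{i<gcd} a i`.
(i) `Bad ℓ X v`: `v.comap (φ ^ i)` is bad too (`φ X = X`), so `ℓ ∣ (v.comap (φ ^ i)).pord d =
v.pord ((φ ^ i) d)`: all `a i` are divisible by `ℓ`.
(ii) `v.ord X < 0`: `ℓ ^ j * u.pord X' = u.pord X = e * v.pord X` and `ℓ ^ j` does not divide `v.pord X`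
(`0 < |v.pord X| < ℓ ^ j`), so `ℓ ∣ e` (`Nat.Coprime`-argument: if `ℓ ∤ e` then `ℓ ^ j ∣ v.pord X`), all `a i`
are divisible by `ℓ`.
(iii) `0 ≤ v.ord X`, not bad: then `v.ord X = 0`, `u.ord X' = 0`.  Let `c = u.ev X' ≠ 0`, `c ^ (ℓ ^ j) = u.ev X
= v.ev X` (`Place.ev_pow`, uniqueness of values).  `c ^ (q ^ r) = c` (`Place.ev_comap` for `φ' ^ r`, which acts
on constants as `q ^ r`-th power, `φ' X' = X'`, `u.comap (φ' ^ r) = u`), so `c ^ (q ^ r - 1) = 1`; let `o` be the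
order of `c` in `𝕜ˣ`, `o ∣ q ^ r - 1`.  Claim: `ℓ ^ (j+1) ∣ o`.  Otherwise `o = ℓ ^ s * o'` with `s ≤ j`,
`ℓ ∤ o'`, `0 < o'`, so `(c ^ (ℓ ^ j)) ^ o' = 1`, and so `X ^ o' - 1` has value `0` at `v`: `v` is bad,
contradiction.  So `ℓ ^ j ∣ q ^ r - 1`, and *NumA* gives `ℓ ∣ r / gcd m r`.
(`2 ≤ q` since `q` is a prime power.)
*Uses*: NumA, NumB. -/
def CStmtNum : Prop :=
  ∀ (𝕜 K : Type) [Field 𝕜] [IsAlgClosed 𝕜] [Field K] [Algebra 𝕜 K] [IsCurveField 𝕜 K]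
    (ℓ q : ℕ) (φ : K ≃+* K) (X d : K) (m : ℕ), ℓ.Prime → ℓ ∣ q - 1 → IsFrob 𝕜 q φ →
    Transcendental 𝕜 X → φ X = X → d ≠ 0 → 0 < m → (φ ^ m) d = d →
    (∀ v : Place 𝕜 K, Bad ℓ X v → (ℓ : ℤ) ∣ v.pord d) →
    ∃ j₀ : ℕ, ∀ j, j₀ ≤ j →
      ∀ (K' : Type) [Field K'] [Algebra 𝕜 K'] [IsCurveField 𝕜 K'] [Algebra K K']
        [IsScalarTower 𝕜 K K'] [Module.Finite K K'] (φ' : K' ≃+* K') (X' : K'),
        (∀ f : K, φ' (algebraMap K K' f) = algebraMap K K' (φ f)) →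
        (∀ c : 𝕜, φ' (algebraMap 𝕜 K' c) = algebraMap 𝕜 K' (c ^ q)) →
        X' ^ (ℓ ^ j) = algebraMap K K' X → φ' X' = X' →
        ∀ u : Place 𝕜 K', ((m * ℓ : ℕ) : ℤ) ∣
          (orbLen φ' u : ℤ) * u.pord (algebraMap K K' (∏ i ∈ range m, (φ ^ i) d))

/-- **NE.** (220 lines)  The norm step, on the level of `E`.

*Proof.*  `K = fxd act`.  `d ∈ K`; `m > 0` with `(φ ^ m) d = d` (`IsFrob.fin`).  For a bad place `u` of `K` and
`w` over `u`: `w.pord d = (w.ram K) * u.pord d` and the ramification index is `1` (*Tra*, `neu`), so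
`ℓ ∣ u.pord d`.  `ℓ ∣ q - 1`: a primitive `ℓ`-th root of unity `ζ : 𝕜` satisfies `ζ ^ q = ζ`.  Let `j₀` be
the number given by *Num* for `K`, the restriction of `φ`, `X`, `d`, `m`.  Given `E'`: `K' = fxd act'`, and
`K → K'` the restriction of `algebraMap E E'` (it maps `K` into `K'` by compatibility); `K'` is finite
over `K` (`E'` is finite over `E`, `E` over `K`, and `K'` is a `K`-subspace of `E'`).  By *Num* the
element `N = ∏_{i<m} (φ ^ i) d ∈ K'`, fixed by `φ'`, satisfies the hypothesis of `HNStmt` for `M = m * ℓ`: so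
there is `e ∈ K'` with `(φ' ^ M) e = e` and `∏_{i<M} (φ' ^ i) e = N`.  Put `b = d / e ^ ℓ`: `(φ' ^ M) b = b`,
`∏_{i<M} (φ' ^ i) b = N ^ ℓ / N ^ ℓ = 1` (the product of `(φ ^ i) d` over `i < m ℓ` is `N ^ ℓ`, as
`(φ ^ m) d = d`).  `θ = ` a primitive root of unity of order `q ^ M - 1` in `𝕜`: `(φ' ^ i) θ = θ ^ (q ^ i)`,
so `(φ' ^ M) θ = θ` and `(φ' ^ i) θ ≠ θ` for `0 < i < M` (`q ^ M - 1 ∤ q ^ i - 1`); `q ^ M - 1 ≠ 0` in `𝕜`.
(If `q ^ M - 1 = 1`, i.e. `q = 2, M = 1`, nothing is required.)  *H90c* in `K'` (or in `E'` for `φ'`; but we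
need `c ∈ K'`, so use it in `K'`): `c ≠ 0`, `φ' c = b * c`.  So `d * c = e ^ ℓ * b * c = e ^ ℓ * φ' c`.
*Uses*: HNStmt (interface), Num, H90c, Fxd, Tra. -/
def CStmtNE : Prop :=
  ∀ (𝕜 E Q : Type) [Field 𝕜] [IsAlgClosed 𝕜] [Field E] [Algebra 𝕜 E] [IsCurveField 𝕜 E]
    [Group Q] [Finite Q] (ℓ q : ℕ) (act : Q →* (E ≃ₐ[𝕜] E)) (cj : Q ≃* Q) (φ : E ≃+* E) (X : E),
    ℓ.Prime → (ℓ : 𝕜) ≠ 0 → CSD 𝕜 E ℓ q act cj φ X →
    ∀ d : E, d ≠ 0 → (∀ s, act s d = d) → (∀ v : Place 𝕜 E, Bad ℓ X v → (ℓ : ℤ) ∣ v.pord d) →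
    ∃ j₀ : ℕ, ∀ j, j₀ ≤ j →
      ∀ (E' : Type) [Field E'] [Algebra 𝕜 E'] [IsCurveField 𝕜 E'] [Algebra E E']
        [IsScalarTower 𝕜 E E'] [Module.Finite E E'] (act' : Q →* (E' ≃ₐ[𝕜] E')) (φ' : E' ≃+* E')
        (X' : E'), CSD 𝕜 E' ℓ q act' cj φ' X' → X' ^ (ℓ ^ j) = algebraMap E E' X →
        (∀ f, φ' (algebraMap E E' f) = algebraMap E E' (φ f)) →
        (∀ s f, act' s (algebraMap E E' f) = algebraMap E E' (act s f)) →
        ∃ e c : E', e ≠ 0 ∧ c ≠ 0 ∧ (∀ s, act' s e = e) ∧ (∀ s, act' s c = c) ∧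
          algebraMap E E' d * c = e ^ ℓ * φ' c

/-! ## The crossed homomorphism -/

/-- **Nrm.** (150 lines)  Norms are surjective (Tsen), cyclic of prime degree.

*Proof.*  `k = fxd act` and `F = fxd (act.comp R.subtype)`, `k ≤ F ≤ E`, both curve fields (*Fxd*), `F` finite
over `k`.  `TsenStmt` for `k ⊆ F` (`Algebra k F` by inclusion; `X ∈ k` is a separating element of `k` and
`F / k` is separable, being inside the Galois extension `E / k`): there is `m ∈ F` with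
`Algebra.norm k m = n`.  `F / k` is Galois with group `{g^i}`: `R` is normal, `act g` preserves `F`, and the
`g ^ i`, `i < ℓ`, are representatives of `Q / R` (prime index, `g ∉ R`); the automorphisms of `F/k` are the
restrictions of the `act s` (every automorphism of `F / k` extends to `E`, *Fxd*), and
`Algebra.norm k m = ∏_{σ} σ m` (`Algebra.norm_eq_prod_automorphisms`) `= ∏_{i<ℓ} act (g ^ i) m` because the
restrictions of the `g ^ i` are distinct (`act (g ^ i)` is trivial on `F` only if `g ^ i ∈ R`, by the Galois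
correspondence for `E / F`, *Fxd* for `R`).
Alternatively: the group `⟨σ⟩` generated by `σ = act g | F` has order `ℓ` and fixed field `k`, and Artin's
theorem applies.
*Uses*: TsenStmt (interface), Fxd. -/
def CStmtNrm : Prop :=
  ∀ (𝕜 E Q : Type) [Field 𝕜] [IsAlgClosed 𝕜] [Field E] [Algebra 𝕜 E] [IsCurveField 𝕜 E]
    [Group Q] [Finite Q] (act : Q →* (E ≃ₐ[𝕜] E)), Function.Injective act →
    ∀ X : E, Transcendental 𝕜 X → Algebra.IsSeparable (IntermediateField.adjoin 𝕜 {X}) E →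
    (∀ s, act s X = X) → ∀ (ℓ : ℕ), ℓ.Prime → ∀ (R : Subgroup Q), R.Normal → R.index = ℓ →
    ∀ g : Q, g ∉ R → ∀ n : E, n ≠ 0 → (∀ s, act s n = n) →
    ∃ m : E, m ≠ 0 ∧ (∀ s ∈ R, act s m = m) ∧ ∏ i ∈ range ℓ, act (g ^ i) m = n

/-- **Ext.** (100 lines)  Extension of a homomorphism from a normal subgroup with cyclic quotient.

*Proof.*  `τ' (n g^i) = τ n * y^i`.  Well defined: `n g^i = n' g^{i'}` gives `g^{i-i'} = n⁻¹ n' ∈ N` and so
`y^{i-i'} = τ (n⁻¹ n')`.  Multiplicative: `n g^i n' g^{i'} = n (g^i n' g^{-i}) g^{i+i'}` and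
`y^i τ(n') y^{-i} = τ (g^i n' g^{-i})` for all integers `i` (induction from `i = ± 1`). -/
def CStmtExt : Prop :=
  ∀ (G Y : Type) [Group G] [Group Y] (N : Subgroup G) (hN : N.Normal) (g : G) (τ : N →* Y)
    (y : Y), (∀ γ : G, ∃ n ∈ N, ∃ i : ℤ, γ = n * g ^ i) →
    (∀ n : N, y * τ n * y⁻¹ = τ ⟨g * n * g⁻¹, hN.conj_mem n n.2 g⟩) →
    (∀ (i : ℤ) (h : g ^ i ∈ N), y ^ i = τ ⟨g ^ i, h⟩) →
    ∃ τ' : G →* Y, (∀ n : N, τ' n = τ n) ∧ τ' g = y

/-- **TL.** (250 lines)  Every central extension of an `ℓ`-group `Q` acting on `E` becomes trivial in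
`E^*`: the homomorphism `jj : ker f → E^*` extends to a crossed homomorphism `t : Q' → E^*`.

*Proof.*  Induction on `Nat.card Q` (for all `Q, act, Q', f, jj`; `E, X` fixed).  If `Q` is trivial then
`Q' = ker f` and `t = jj`.  Otherwise `Q` has a normal subgroup `R` of index `ℓ` (`Q` is a nontrivial
`ℓ`-group; Mathlib: `IsPGroup` / Sylow: a subgroup of index `ℓ` exists by `Sylow.exists_subgroup_card_pow_prime`
and is normal because its index is the smallest prime dividing the order, `Subgroup.normal_of_index_eq_minFac_card`;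
or take a maximal subgroup of a nilpotent group).  `R' = R.comap f`.  By induction (for `R` acting through
`act`, and `R' → R`, which has the same kernel) there is a crossed homomorphism `t₁ : R' → E^*` extending
`jj`.  Choose `g : Q'` with `f g ∉ R`; `a := act (f g)`.  For `x : R'` let
`κ x = a⁻¹ (t₁ (g x g⁻¹)) / t₁ x`.  `x ↦ a⁻¹ (t₁ (g x g⁻¹))` is a crossed homomorphism:
`t₁ (g x x' g⁻¹) = t₁ (g x g⁻¹) * act (f (g x g⁻¹)) (t₁ (g x' g⁻¹))`, and `a⁻¹ act (f g f x f g⁻¹) =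
act (f x) a⁻¹`.  So `κ` is a crossed homomorphism `R' → E^*`, and `κ = 1` on `ker f` (`g` commutes with `ker f`,
`jj` has values in `𝕜`, fixed by `a`).  So it factors through `R` and by *H90f* (for `R`) there is `b ≠ 0` with
`κ x = act (f x) b / b`.  Put `w₀ = a (b⁻¹)`, that is `b = a⁻¹(w₀)⁻¹`: then
`(*) t₁ (g x g⁻¹) * act (f (g x g⁻¹)) w₀ = w₀ * a (t₁ x)` for `x : R'`.
[`a (κ x) = t₁ (g x g⁻¹) / a (t₁ x)` and `a (act (f x) b / b) = act (f (g x g⁻¹)) (a b) / a b`, `a b = w₀⁻¹`.]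
Let `W i = ∏_{k<i} act (f g ^ k) w₀` (so `W ℓ` is the value which `t (g ^ ℓ)` should have) and
`n = t₁ (g ^ ℓ) / W ℓ`.  Claim: `n` is fixed by `Q`.  For `x : R'`: `(*)` iterated gives
`t₁ (g^ℓ x g^{-ℓ}) * act (f (g^ℓ x g^{-ℓ})) (W ℓ) = W ℓ * act (f g ^ ℓ) (t₁ x)`, and
`t₁ (g^ℓ x g^{-ℓ}) * act (f (g^ℓ x g^{-ℓ})) (t₁ (g^ℓ)) = t₁ (g^ℓ x) = t₁ (g^ℓ) * act (f g ^ ℓ) (t₁ x)`; divide:
`act (f (g^ℓ x g^{-ℓ})) n = n`, for all `x : R'`.  For `g`: `(*)` with `x = g ^ ℓ`: `t₁ (g^ℓ) * act (f g ^ ℓ) w₀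
= w₀ * a (t₁ (g^ℓ))`, and `W ℓ * act (f g ^ ℓ) w₀ = w₀ * a (W ℓ)`; divide: `n = a n`.  By *Nrm* there is
`m ≠ 0`, fixed by `R`, with `∏_{i<ℓ} act (f g ^ i) m = n`.  Put `w = w₀ * m`: `(*)` holds for `w`
(`act (f (g x g⁻¹)) m = m`), and `∏_{k<ℓ} act (f g ^ k) w = W ℓ * n = t₁ (g ^ ℓ)`.  Now extend: by *Ext* for the
group `Q'`, `N = R'`, `Y = Eˣ ⋊[action] Q` (semidirect product, `Q` acting on `Eˣ` by `act`),
`τ x = ⟨t₁ x, f x⟩`, `y = ⟨w, f g⟩`: the conjugation hypothesis is `(*)`; `g ^ i ∈ R'` iff `ℓ ∣ i`, and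
`y ^ ℓ = ⟨∏_{k<ℓ} act (f g ^ k) w, f g ^ ℓ⟩ = τ (g ^ ℓ)`.  The first component of `τ'` is `t` (the second
component of `τ'` is `f`, since it agrees with `f` on `R'` and at `g`).  (`Q' = ⋃ R' g^i` because `R` has
prime index.)
*Uses*: H90f, Nrm, Ext. -/
def CStmtTL : Prop :=
  ∀ (𝕜 E : Type) [Field 𝕜] [IsAlgClosed 𝕜] [Field E] [Algebra 𝕜 E] [IsCurveField 𝕜 E]
    (X : E), Transcendental 𝕜 X → Algebra.IsSeparable (IntermediateField.adjoin 𝕜 {X}) E →
    ∀ (ℓ : ℕ), ℓ.Prime → ∀ (Q : Type) [Group Q] [Finite Q], IsPGroup ℓ Q →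
    ∀ act : Q →* (E ≃ₐ[𝕜] E), Function.Injective act → (∀ s, act s X = X) →
    ∀ (Q' : Type) [Group Q'] (f : Q' →* Q), Function.Surjective f →
    (∀ a ∈ f.ker, ∀ b : Q', a * b = b * a) → ∀ jj : f.ker →* 𝕜ˣ,
    ∃ t : Q' → E, (∀ g, t g ≠ 0) ∧ (∀ g h, t (g * h) = t g * act (f g) (t h)) ∧
      ∀ a : f.ker, t a = algebraMap 𝕜 E (jj a)

/-- **Fr.** (120 lines)  The elements `z`, `w`, `d`.

*Proof.*  `z`: `g ↦ t g ^ ℓ` is a crossed homomorphism, trivial on `ker f`, so it factors through `Q`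
(choose a section of `f`), *H90f*.  `w`: `κ g = φ (t (cj'⁻¹ g)) / t g`.  It is a crossed homomorphism:
`φ (t (cj'⁻¹ (g h))) = φ (t (cj'⁻¹ g)) * φ (act (f (cj'⁻¹ g)) (t (cj'⁻¹ h))) = φ (t (cj'⁻¹ g)) *
act (f g) (φ (t (cj'⁻¹ h)))` (`comm`, `cj (f (cj'⁻¹ g)) = f g`), trivial on `ker f` (`cj' a = a` and
`φ (t a) = t a`); so it factors through `Q`: `κ g = act (f g) w / w`, which is the second claim with `cj' g`
in place of `g`.  `d = φ z / (w ^ ℓ * z)`: for `s = f (cj' g)`: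
`act s (φ z) = φ (act (f g) z) = φ (t g) ^ ℓ * φ z`, `act s w = φ (t g) * w / t (cj' g)`,
`act s z = t (cj' g) ^ ℓ * z`; so `act s d = d`.
*Uses*: H90f. -/
def CStmtFr : Prop :=
  ∀ (𝕜 E Q Q' : Type) [Field 𝕜] [Field E] [Algebra 𝕜 E] [Group Q] [Finite Q] [Group Q']
    (act : Q →* (E ≃ₐ[𝕜] E)) (cj : Q ≃* Q) (φ : E ≃+* E) (f : Q' →* Q) (cj' : Q' ≃* Q')
    (t : Q' → E) (ℓ : ℕ), Function.Injective act → (∀ s x, φ (act s x) = act (cj s) (φ x)) →
    Function.Surjective f → (∀ g, f (cj' g) = cj (f g)) → (∀ a ∈ f.ker, cj' a = a) →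
    (∀ g, t g ≠ 0) → (∀ g h, t (g * h) = t g * act (f g) (t h)) →
    (∀ a ∈ f.ker, t a ^ ℓ = 1 ∧ φ (t a) = t a) →
    ∃ z w d : E, z ≠ 0 ∧ w ≠ 0 ∧ d ≠ 0 ∧ (∀ g, act (f g) z = t g ^ ℓ * z) ∧
      (∀ g, φ (t g) * w = t (cj' g) * act (cj (f g)) w) ∧ (∀ s, act s d = d) ∧
      φ z = d * w ^ ℓ * z

/-- **FP.** (200 lines)  The field part of the central step.

*Proof.*  `t` from *TL*.  `φ (t a) = t a`, `t a ^ ℓ = 1` for `a ∈ ker f`: `t a` is the image of a constant `c`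
with `c ^ ℓ = 1` (`hjj`), and `φ c = c ^ q = c` (`mu`).  *Fr* gives `z₀, w, d₀`.  Choose `k > 0` with
`(φ ^ k) z₀ = z₀` (`IsFrob.fin`).  *PE* with this `k` and `D v = v.pord z₀`: finite support
(`finite_ord_ne`); `D (v.comap (act s)) = v.pord (act s z₀) = v.pord (t g ^ ℓ * z₀) ≡ D v`;
`D (v.comap (φ ^ k)) = v.pord z₀`.  So there is `y`, fixed by `Q`, with `ℓ ∣ v.pord z₁` at the bad `v`,
`z₁ = z₀ / y`.  `d₁ = d₀ * y / φ y` is fixed by `Q` (`φ y` is fixed by `Q`, by `comm`), `act (f g) z₁ =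
t g ^ ℓ * z₁` and `φ z₁ = d₁ * w ^ ℓ * z₁`.  At bad `v`: `v.comap φ` is bad (`φ X = X`), so
`v.pord d₁ = (v.comap φ).pord z₁ - ℓ * v.pord w - v.pord z₁ ≡ 0`.  `j₀` from *NE* for `d₁`.
Given `E'` (all elements of `E` are considered in `E'`): `e, c` from *NE*, `d₁ * c = e ^ ℓ * φ' c`.  Put
`z₂ = z₁ / c`, `w' = e * w`: `act' (f g) z₂ = t g ^ ℓ * z₂`, and `φ' z₂ = d₁ w ^ ℓ z₁ / φ' c =
(e w) ^ ℓ z₁ / c = w' ^ ℓ * z₂`, and `φ' (t g) * w' = t (cj' g) * act' (cj (f g)) w'` (`e` is fixed).  *PE* for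
`E'` with `k = 1` and `D v = v.pord z₂`: `D (v.comap (act' s)) ≡ D v`, `D (v.comap φ') = v.pord (w' ^ ℓ * z₂)
≡ D v`.  So there is `y'`, fixed by `Q` and `φ'`, with `ℓ ∣ v.pord (z₂ / y')` at bad `v`.  `z = z₂ / y'`,
`w'` satisfy all the conditions.
*Uses*: TL, Fr, PE, NE. -/
def CStmtFP : Prop :=
  ∀ (𝕜 E Q Q' : Type) [Field 𝕜] [IsAlgClosed 𝕜] [Field E] [Algebra 𝕜 E] [IsCurveField 𝕜 E]
    [Group Q] [Finite Q] [Group Q'] (ℓ q : ℕ) (act : Q →* (E ≃ₐ[𝕜] E)) (cj : Q ≃* Q)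
    (φ : E ≃+* E) (X : E), ℓ.Prime → (ℓ : 𝕜) ≠ 0 → CSD 𝕜 E ℓ q act cj φ X →
    ∀ (f : Q' →* Q) (cj' : Q' ≃* Q'), Function.Surjective f →
    (∀ a ∈ f.ker, ∀ b : Q', a * b = b * a) → (∀ g, f (cj' g) = cj (f g)) →
    (∀ a ∈ f.ker, cj' a = a) → ∀ jj : f.ker →* 𝕜ˣ, (∀ a, jj a ^ ℓ = 1) →
    ∃ t : Q' → E, (∀ g, t g ≠ 0) ∧ (∀ g h, t (g * h) = t g * act (f g) (t h)) ∧
      (∀ a : f.ker, t a = algebraMap 𝕜 E (jj a)) ∧ ∃ j₀ : ℕ, ∀ j, j₀ ≤ j →
      ∀ (E' : Type) [Field E'] [Algebra 𝕜 E'] [IsCurveField 𝕜 E'] [Algebra E E']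
        [IsScalarTower 𝕜 E E'] [Module.Finite E E'] (act' : Q →* (E' ≃ₐ[𝕜] E')) (φ' : E' ≃+* E')
        (X' : E'), CSD 𝕜 E' ℓ q act' cj φ' X' → X' ^ (ℓ ^ j) = algebraMap E E' X →
        (∀ f, φ' (algebraMap E E' f) = algebraMap E E' (φ f)) →
        (∀ s f, act' s (algebraMap E E' f) = algebraMap E E' (act s f)) →
        ∃ z w : E', z ≠ 0 ∧ w ≠ 0 ∧ (∀ g, act' (f g) z = algebraMap E E' (t g) ^ ℓ * z) ∧
          (∀ g, φ' (algebraMap E E' (t g)) * w =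
            algebraMap E E' (t (cj' g)) * act' (cj (f g)) w) ∧
          φ' z = w ^ ℓ * z ∧ ∀ v : Place 𝕜 E', Bad ℓ X' v → (ℓ : ℤ) ∣ v.pord z

end MP7Z
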